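import Pool.Agent.K1H17.MC.Cx

/-! The existence of rational polyhedral fundamental domains. -/

set_option autoImplicit false
set_option linter.overlappingInstances false
set_option linter.unusedSectionVars false
set_option linter.unusedVariables false

open Pointwise

namespace Pool.Agent.K1H17.MC

/-- The interior of a convex set. -/
def inn {V : Type*} [AddCommGroup V] [Module ℝ V] (C : Set V) : Set V :=
  {x | ∀ v, ∃ ε : ℝ, 0 < ε ∧ x + ε • v ∈ C}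

theorem dickson {Γ : Type*} [Nonempty Γ] {ι : Type*} [Finite ι] (f : Γ → ι → ℕ) :
    ∃ S : Finset Γ, ∀ γ, ∃ s ∈ S, ∀ i, f s i ≤ f γ i := by
  classical
  have hM : {a | Minimal (· ∈ Set.range f) a}.Finite := by
    apply IsAntichain.finite_of_partiallyWellOrderedOn (r := (· ≤ ·))
    · exact setOfPred_minimal_antichain _
    · exact Set.isPWO_of_wellQuasiOrderedLE _
  obtain ⟨g, hg⟩ : ∃ g : (ι → ℕ) → Γ, ∀ a ∈ Set.range f, f (g a) = a := by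
    refine ⟨fun a => if h : ∃ γ, f γ = a then h.choose else Classical.arbitrary Γ, ?_⟩
    rintro a ha
    have h : ∃ γ, f γ = a := ha
    simp only [dif_pos h]
    exact h.choose_spec
  refine ⟨hM.toFinset.image g, fun γ => ?_⟩
  obtain ⟨m, hm, hmin⟩ := exists_minimal_le_of_wellFoundedLT (· ∈ Set.range f) (f γ) ⟨γ, rfl⟩
  refine ⟨g m, Finset.mem_image_of_mem _ (hM.mem_toFinset.2 hmin), ?_⟩
  rw [hg m hmin.1]
  exact hm

section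

variable {V : Type*} [AddCommGroup V] [Module ℝ V] {Γ : Type*} [Group Γ]

theorem RP.map {Λ : AddSubgroup V} {C : Set V} (h : RP Λ C) (f : V →ₗ[ℝ] V)
    (hf : ∀ x ∈ Λ, f x ∈ Λ) : RP Λ (f '' C) := by
  obtain ⟨n, t, ht, rfl⟩ := h
  exact ⟨n, fun i => f (t i), fun i => hf _ (ht i), cn_map f t⟩

/-- The group `Γ` acts on the convex cone `C`, and preserves the lattice `Λ`; the linear form `ξ`
is integral on the lattice and nonnegative on the cone, and its stabilizer is finite. -/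
structure Dat (Λ : AddSubgroup V) (C : Set V) (ρ : Γ →* Module.End ℝ V) (ξ : V →ₗ[ℝ] ℝ) :
    Prop where
  cone : IsCone C
  stabΛ : ∀ γ, ∀ x ∈ Λ, ρ γ x ∈ Λ
  stabC : ∀ γ, ∀ x ∈ C, ρ γ x ∈ C
  int : ∀ x ∈ Λ, ∃ m : ℤ, ξ x = m
  nonneg : ∀ x ∈ C, 0 ≤ ξ x
  stab : {f : Module.End ℝ V | (∃ γ, ρ γ = f) ∧ ξ ∘ₗ f = ξ}.Finite
  sep : ∀ x, (∀ ℓ : V →ₗ[ℝ] ℝ, (∀ y ∈ Λ, ∃ m : ℤ, ℓ y = m) → ℓ x = 0) → x = 0

variable {Λ : AddSubgroup V} {C : Set V} {ρ : Γ →* Module.End ℝ V} {ξ : V →ₗ[ℝ] ℝ}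

theorem rho_mul (γ δ : Γ) (x : V) : ρ (γ * δ) x = ρ γ (ρ δ x) := by
  rw [map_mul]; rfl

theorem rho_inv (γ : Γ) (x : V) : ρ γ⁻¹ (ρ γ x) = x := by
  rw [← rho_mul, inv_mul_cancel, map_one]; rfl

theorem rho_inv' (γ : Γ) (x : V) : ρ γ (ρ γ⁻¹ x) = x := by
  rw [← rho_mul, mul_inv_cancel, map_one]; rfl

/-- On a polyhedral cone, finitely many of the linear forms `ξ (γ x)` suffice for the minimum. -/
theorem Dat.fin_min (h : Dat Λ C ρ ξ) {ι : Type*} [Fintype ι] (t : ι → V) (ht : ∀ i, t i ∈ Λ)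
    (htC : ∀ i, t i ∈ C) : ∃ S : Finset Γ, ∀ γ, ∃ s ∈ S, ∀ x ∈ cn t, ξ (ρ s x) ≤ ξ (ρ γ x) := by
  classical
  choose m hm using fun (γ : Γ) i => h.int _ (h.stabΛ γ _ (ht i))
  have hm0 : ∀ γ i, 0 ≤ m γ i := fun γ i => by
    have := h.nonneg _ (h.stabC γ _ (htC i))
    rw [hm] at this
    exact_mod_cast this
  obtain ⟨S, hS⟩ := dickson fun (γ : Γ) i => (m γ i).toNat
  refine ⟨S, fun γ => ?_⟩
  obtain ⟨s, hs, hle⟩ := hS γ
  refine ⟨s, hs, ?_⟩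
  rintro x ⟨a, ha, rfl⟩
  simp only [map_sum, map_smul, smul_eq_mul, hm]
  refine Finset.sum_le_sum fun i _ => mul_le_mul_of_nonneg_left ?_ (ha i)
  have h1 := hle i
  have h2 := hm0 s i
  have h3 := hm0 γ i
  have h4 : m s i ≤ m γ i := by omega
  exact_mod_cast h4

/-- A linear form with trivial stabilizer in a finite set of maps. -/
theorem exists_zeta (F : Set (Module.End ℝ V)) (hF : F.Finite)
    (sep : ∀ x, (∀ ℓ : V →ₗ[ℝ] ℝ, (∀ y ∈ Λ, ∃ m : ℤ, ℓ y = m) → ℓ x = 0) → x = 0) :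
    ∃ ζ : V →ₗ[ℝ] ℝ, (∀ y ∈ Λ, ∃ m : ℤ, ζ y = m) ∧ ∀ f ∈ F, ζ ∘ₗ f = ζ → f = 1 := by
  classical
  let L : AddSubgroup (V →ₗ[ℝ] ℝ) :=
    { carrier := {ℓ | ∀ y ∈ Λ, ∃ m : ℤ, ℓ y = m}
      add_mem' := by
        intro a b ha hb y hy
        obtain ⟨m, hm⟩ := ha y hy
        obtain ⟨n, hn⟩ := hb y hy
        exact ⟨m + n, by rw [LinearMap.add_apply, hm, hn]; push_cast; ring⟩
      zero_mem' := fun y _ => ⟨0, by simp⟩
      neg_mem' := by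
        intro a ha y hy
        obtain ⟨m, hm⟩ := ha y hy
        exact ⟨-m, by rw [LinearMap.neg_apply, hm]; push_cast; ring⟩ }
  let W : Module.End ℝ V → AddSubgroup L := fun f =>
    { carrier := {ℓ | (ℓ : V →ₗ[ℝ] ℝ) ∘ₗ f = ℓ}
      add_mem' := by
        intro a b ha hb
        change (a.1 + b.1) ∘ₗ f = a.1 + b.1
        rw [LinearMap.add_comp]
        exact congrArg₂ (· + ·) ha hb
      zero_mem' := by
        change (0 : V →ₗ[ℝ] ℝ) ∘ₗ f = 0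
        rw [LinearMap.zero_comp]
      neg_mem' := by
        intro a ha
        change (-a.1) ∘ₗ f = -a.1
        rw [LinearMap.neg_comp]
        exact congrArg Neg.neg ha }
  by_contra hcon
  push Not at hcon
  have hcov : ⋃ f ∈ hF.toFinset.erase 1, (0 : L) +ᵥ (W f : Set L) = Set.univ := by
    rw [Set.eq_univ_iff_forall]
    rintro ⟨ζ, hζ⟩
    obtain ⟨f, hf, hf1, hf2⟩ := hcon ζ hζ
    simp only [Set.mem_iUnion, zero_vadd]
    refine ⟨f, Finset.mem_erase.2 ⟨hf2, hF.mem_toFinset.2 hf⟩, ?_⟩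
    exact hf1
  obtain ⟨f, hf, hfi⟩ := AddSubgroup.exists_finiteIndex_of_leftCoset_cover hcov
  obtain ⟨hf1, -⟩ := Finset.mem_erase.1 hf
  refine hf1 (LinearMap.ext fun x => ?_)
  rw [← sub_eq_zero]
  refine sep _ fun ℓ hℓ => ?_
  have h1 : (W f).index • (⟨ℓ, hℓ⟩ : L) ∈ W f := AddSubgroup.nsmul_index_mem (W f) _
  have h2 : (((W f).index • (⟨ℓ, hℓ⟩ : L) : L) : V →ₗ[ℝ] ℝ) ∘ₗ f =
    (((W f).index • (⟨ℓ, hℓ⟩ : L) : L) : V →ₗ[ℝ] ℝ) := h1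
  have h3 : (((W f).index • (⟨ℓ, hℓ⟩ : L) : L) : V →ₗ[ℝ] ℝ) = (W f).index • ℓ := rfl
  rw [h3] at h2
  have h4 := congrArg (fun g : V →ₗ[ℝ] ℝ => g x) h2
  simp only [LinearMap.comp_apply, LinearMap.smul_apply, nsmul_eq_mul] at h4
  have h5 : ((W f).index : ℝ) ≠ 0 := by exact_mod_cast hfi.index_ne_zero
  have h6 := mul_left_cancel₀ h5 h4
  rw [map_sub, h6]
  exact sub_self _

/-- The index set of cones can be minimized. -/
theorem exists_min_fin {κ : Type*} (S : Finset κ) (hS : S.Nonempty) (g : κ → ℝ) :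
    ∃ s ∈ S, ∀ s' ∈ S, g s ≤ g s' := S.exists_min_image g hS

/-- **Fundamental domains.** If the translates of a rational polyhedral cone cover the cone `C`,
then there is a rational polyhedral fundamental domain. -/
theorem Dat.fund (h : Dat Λ C ρ ξ) {Q : Set V} (hQ : RP Λ Q) (hQC : Q ⊆ C)
    (hcov : ∀ x ∈ C, ∃ γ, ∃ y ∈ Q, x = ρ γ y) :
    ∃ Q' : Set V, RP Λ Q' ∧ (⋃ γ, ρ γ '' Q') = C ∧
      ∀ γ, (inn Q' ∩ ρ γ '' inn Q').Nonempty → ρ γ = 1 := by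
  classical
  obtain ⟨n, t, ht, hQt⟩ := hQ
  have hgen : ∀ i, t i ∈ Q := fun i => by rw [hQt]; exact gen_mem t i
  obtain ⟨S, hS⟩ := h.fin_min t ht fun i => hQC (hgen i)
  rw [← hQt] at hS
  have hSne : S.Nonempty := by
    obtain ⟨s, hs, -⟩ := hS 1
    exact ⟨s, hs⟩
  -- the Dirichlet domain
  let D : Set V := {x | x ∈ C ∧ ∀ γ, ξ x ≤ ξ (ρ γ x)}
  have hD : IsCone D := by
    refine ⟨⟨h.cone.zero, fun γ => by simp⟩, ?_, ?_⟩
    · rintro x ⟨hx, hx'⟩ y ⟨hy, hy'⟩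
      refine ⟨h.cone.add _ hx _ hy, fun γ => ?_⟩
      rw [map_add, map_add, map_add]
      exact add_le_add (hx' γ) (hy' γ)
    · rintro c hc x ⟨hx, hx'⟩
      refine ⟨h.cone.smul _ hc _ hx, fun γ => ?_⟩
      rw [map_smul, map_smul, map_smul]
      exact mul_le_mul_of_nonneg_left (hx' γ) hc
  let Qs : Γ → Set V := fun s => {x | x ∈ Q ∧ ∀ s' ∈ S, 0 ≤ (ξ ∘ₗ ρ s' - ξ ∘ₗ ρ s) x}
  have hQs : ∀ s, RP Λ (Qs s) := fun s => by
    refine RP.cut_many ⟨n, t, ht, hQt⟩ S (fun s' => ξ ∘ₗ ρ s' - ξ ∘ₗ ρ s) fun s' _ x hx => ?_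
    obtain ⟨m, hm⟩ := h.int _ (h.stabΛ s' x hx)
    obtain ⟨m', hm'⟩ := h.int _ (h.stabΛ s x hx)
    exact ⟨m - m', by
      rw [LinearMap.sub_apply, LinearMap.comp_apply, LinearMap.comp_apply, hm, hm']; push_cast; ring⟩
  have hQsD : ∀ s, ∀ x ∈ Qs s, ρ s x ∈ D := by
    rintro s x ⟨hx, hx'⟩
    refine ⟨h.stabC _ _ (hQC hx), fun γ => ?_⟩
    obtain ⟨s', hs', hle⟩ := hS (γ * s)
    have h1 := hx' s' hs'
    rw [LinearMap.sub_apply, LinearMap.comp_apply, LinearMap.comp_apply] at h1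
    have h2 := hle x hx
    rw [rho_mul] at h2
    linarith
  -- the stabilizer of `ξ`
  let F : Set (Module.End ℝ V) := {f | (∃ γ, ρ γ = f) ∧ ξ ∘ₗ f = ξ}
  have hF : F.Finite := h.stab
  have hF1 : (1 : Module.End ℝ V) ∈ F := ⟨⟨1, map_one _⟩, rfl⟩
  have hFD : ∀ f ∈ F, ∀ x ∈ D, f x ∈ D := by
    rintro _ ⟨⟨δ, rfl⟩, hδ⟩ x ⟨hx, hx'⟩
    refine ⟨h.stabC _ _ hx, fun γ => ?_⟩
    have h1 : ξ (ρ δ x) = ξ x := congrArg (fun g : V →ₗ[ℝ] ℝ => g x) hδ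
    rw [h1, ← rho_mul]
    exact hx' _
  have hFmul : ∀ f ∈ F, ∀ g ∈ F, f * g ∈ F := by
    rintro _ ⟨⟨γ, rfl⟩, hγ⟩ _ ⟨⟨δ, rfl⟩, hδ⟩
    refine ⟨⟨γ * δ, map_mul _ _ _⟩, ?_⟩
    change (ξ ∘ₗ ρ γ) ∘ₗ ρ δ = ξ
    rw [hγ, hδ]
  have hFΛ : ∀ f ∈ F, ∀ x ∈ Λ, f x ∈ Λ := by
    rintro _ ⟨⟨δ, rfl⟩, hδ⟩ x hx
    exact h.stabΛ _ _ hx
  obtain ⟨ζ, hζ1, hζ2⟩ := exists_zeta (Λ := Λ) F hF h.sep
  have hFf : Finite F := hF.to_subtype
  obtain ⟨Q1, hQ1, hQ1s, hQ1m⟩ := sum_RP (Λ := Λ) (κ := F × S)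
    (fun p => (p.1 : Module.End ℝ V) '' (ρ (p.2 : Γ) '' Qs p.2))
    fun p => ((hQs _).map _ (h.stabΛ _)).map _ (hFΛ _ p.1.2)
  have hQ1D : Q1 ⊆ D := by
    refine hQ1m D hD fun p => ?_
    rintro _ ⟨_, ⟨x, hx, rfl⟩, rfl⟩
    exact hFD _ p.1.2 _ (hQsD _ x hx)
  have hQ1F : ∀ f ∈ F, ∀ x ∈ Q1, f x ∈ Q1 := by
    intro f hf
    have hc : IsCone {x | f x ∈ Q1} := by
      refine ⟨?_, ?_, ?_⟩
      · change f 0 ∈ Q1
        rw [map_zero]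
        exact hQ1.cone.zero
      · intro x hx y hy
        change f (x + y) ∈ Q1
        rw [map_add]
        exact hQ1.cone.add _ hx _ hy
      · intro c hc x hx
        change f (c • x) ∈ Q1
        rw [map_smul]
        exact hQ1.cone.smul _ hc _ hx
    refine hQ1m _ hc fun p => ?_
    rintro _ ⟨_, ⟨x, hx, rfl⟩, rfl⟩
    exact hQ1s (⟨f * p.1, hFmul _ hf _ p.1.2⟩, p.2) ⟨_, ⟨x, hx, rfl⟩, rfl⟩
  -- the fundamental domain
  let Q' : Set V := {x | x ∈ Q1 ∧ ∀ f ∈ hF.toFinset, 0 ≤ (ζ ∘ₗ f - ζ) x}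
  have hQ' : RP Λ Q' := by
    refine RP.cut_many hQ1 hF.toFinset (fun f => ζ ∘ₗ f - ζ) fun f hf x hx => ?_
    obtain ⟨m, hm⟩ := hζ1 _ (hFΛ f (hF.mem_toFinset.1 hf) x hx)
    obtain ⟨m', hm'⟩ := hζ1 x hx
    exact ⟨m - m', by
      rw [LinearMap.sub_apply, LinearMap.comp_apply, hm, hm']; push_cast; ring⟩
  refine ⟨Q', hQ', ?_, ?_⟩
  · refine Set.Subset.antisymm ?_ ?_
    · rw [Set.iUnion_subset_iff]
      rintro γ _ ⟨x, hx, rfl⟩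
      exact h.stabC _ _ (hQ1D hx.1).1
    · intro x hx
      obtain ⟨γ, y, hy, rfl⟩ := hcov x hx
      obtain ⟨s, hs, hmin⟩ := S.exists_min_image (fun s => ξ (ρ s y)) hSne
      have hyS : y ∈ Qs s := ⟨hy, fun s' hs' => by
        rw [LinearMap.sub_apply, LinearMap.comp_apply, LinearMap.comp_apply, sub_nonneg]
        exact hmin s' hs'⟩
      have hu : ρ s y ∈ Q1 := hQ1s (⟨1, hF1⟩, ⟨s, hs⟩) ⟨_, ⟨y, hyS, rfl⟩, rfl⟩
      obtain ⟨f, hf, hfmin⟩ := hF.toFinset.exists_min_image (fun f => ζ (f (ρ s y)))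
        ⟨1, hF.mem_toFinset.2 hF1⟩
      have hfF := hF.mem_toFinset.1 hf
      obtain ⟨⟨δ, hδ⟩, -⟩ := id hfF
      have hu' : f (ρ s y) ∈ Q' := by
        refine ⟨hQ1F f hfF _ hu, fun f' hf' => ?_⟩
        rw [LinearMap.sub_apply, LinearMap.comp_apply, sub_nonneg]
        exact hfmin (f' * f) (hF.mem_toFinset.2 (hFmul _ (hF.mem_toFinset.1 hf') _ hfF))
      refine Set.mem_iUnion.2 ⟨γ * s⁻¹ * δ⁻¹, f (ρ s y), hu', ?_⟩
      rw [rho_mul, rho_mul, ← hδ, rho_inv, rho_inv]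
  · rintro γ ⟨x, hx1, x', hx2, hx3⟩
    have key : ∀ v, ∃ ε : ℝ, 0 < ε ∧ x + ε • v ∈ Q' ∧ ρ γ⁻¹ (x + ε • v) ∈ Q' := by
      intro v
      obtain ⟨ε1, h1, h2⟩ := hx1 v
      obtain ⟨ε2, h3, h4⟩ := hx2 (ρ γ⁻¹ v)
      obtain ⟨-, h5⟩ := (hx1 0).choose_spec
      obtain ⟨-, h6⟩ := (hx2 0).choose_spec
      rw [smul_zero, add_zero] at h5 h6
      have hx3' : ρ γ⁻¹ x = x' := by rw [← hx3, rho_inv]
      have hcv : ∀ (z w : V) (ε1 ε : ℝ), 0 < ε → ε ≤ ε1 → z ∈ Q' → z + ε1 • w ∈ Q' →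
          z + ε • w ∈ Q' := by
        intro z w ε1 ε hε hε1 hz hw
        have hε1' : 0 < ε1 := hε.trans_le hε1
        have h7 : z + ε • w = (1 - ε / ε1) • z + (ε / ε1) • (z + ε1 • w) := by
          rw [smul_add, smul_smul, div_mul_cancel₀ _ hε1'.ne', sub_smul, one_smul]
          abel
        rw [h7]
        refine hQ'.cone.add _ (hQ'.cone.smul _ ?_ _ hz) _ (hQ'.cone.smul _ (by positivity) _ hw)
        rw [sub_nonneg, div_le_one hε1']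
        exact hε1
      refine ⟨min ε1 ε2, lt_min h1 h3, hcv _ _ ε1 _ (lt_min h1 h3) (min_le_left _ _) h5 h2, ?_⟩
      rw [map_add, map_smul, hx3']
      exact hcv _ _ ε2 _ (lt_min h1 h3) (min_le_right _ _) h6 h4
    -- `ρ γ⁻¹` preserves `ξ`
    have hξ : ∀ y, y ∈ Q' → ρ γ⁻¹ y ∈ Q' → ξ (ρ γ⁻¹ y) = ξ y := by
      intro y hy hy'
      refine le_antisymm ?_ ((hQ1D hy.1).2 _)
      have h1 := (hQ1D hy'.1).2 γ
      rwa [rho_inv'] at h1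
    have hlin : ∀ (φ : V →ₗ[ℝ] ℝ), (∀ y, y ∈ Q' → ρ γ⁻¹ y ∈ Q' → φ (ρ γ⁻¹ y) = φ y) →
        φ ∘ₗ ρ γ⁻¹ = φ := by
      intro φ hφ
      refine LinearMap.ext fun v => ?_
      rw [LinearMap.comp_apply]
      obtain ⟨ε, hε, h1, h2⟩ := key v
      obtain ⟨ε0, hε0, h3, h4⟩ := key 0
      rw [smul_zero, add_zero] at h3 h4
      have h5 := hφ _ h1 h2
      have h6 := hφ _ h3 h4
      rw [map_add, map_add, map_add, h6, map_smul, map_smul, map_smul, smul_eq_mul,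
        smul_eq_mul] at h5
      have h7 : ε * φ (ρ γ⁻¹ v) = ε * φ v := by linarith
      exact mul_left_cancel₀ hε.ne' h7
    have hinv : ρ γ⁻¹ ∈ F := ⟨⟨_, rfl⟩, hlin ξ hξ⟩
    have hinv' : ρ γ ∈ F := by
      refine ⟨⟨_, rfl⟩, LinearMap.ext fun v => ?_⟩
      rw [LinearMap.comp_apply]
      have h1 := congrArg (fun g : V →ₗ[ℝ] ℝ => g (ρ γ v)) hinv.2
      simp only [LinearMap.comp_apply] at h1
      rw [rho_inv] at h1
      exact h1.symm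
    have h2 := hζ2 _ hinv (hlin ζ fun y hy hy' => by
      have h3 := hy.2 (ρ γ⁻¹) (hF.mem_toFinset.2 hinv)
      have h4 := hy'.2 (ρ γ) (hF.mem_toFinset.2 hinv')
      rw [LinearMap.sub_apply, LinearMap.comp_apply] at h3 h4
      rw [rho_inv'] at h4
      linarith)
    have h3 : ρ γ * ρ γ⁻¹ = 1 := by rw [← map_mul, mul_inv_cancel, map_one]
    rwa [h2, mul_one] at h3

end

end Pool.Agent.K1H17.MC
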