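import Mathlib

/-! Conjugacy classes of homomorphisms from a finite group, modulo a divisible abelian normal
subgroup. -/

set_option autoImplicit false
set_option linter.overlappingInstances false
set_option linter.unusedSectionVars false
set_option linter.unusedVariables false

namespace Pool.Agent.K1H17.MC

/-- An abelian, divisible group with finite torsion subgroups. -/
structure DivAb {Γ : Type*} [Group Γ] (A : Subgroup Γ) : Prop where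
  normal : A.Normal
  comm : ∀ x ∈ A, ∀ y ∈ A, x * y = y * x
  div : ∀ n : ℕ, 1 ≤ n → ∀ x ∈ A, ∃ y ∈ A, y ^ n = x
  tors : ∀ n : ℕ, 1 ≤ n → {x | x ∈ A ∧ x ^ n = 1}.Finite

variable {Γ : Type*} [Group Γ]

theorem cocycle {A : Subgroup Γ} (hA : DivAb A) {G : Type*} [Group G] [Fintype G]
    (σ σ' : G →* Γ) (h : ∀ g, σ g * (σ' g)⁻¹ ∈ A) :
    ∃ c ∈ A, ∀ g, c⁻¹ * σ g * c * (σ' g)⁻¹ ∈ A ∧
      (c⁻¹ * σ g * c * (σ' g)⁻¹) ^ Fintype.card G = 1 := by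
  classical
  have hN := hA.normal
  let _ : CommGroup A := { (inferInstance : Group A) with
    mul_comm := fun x y => Subtype.ext (hA.comm x x.2 y y.2) }
  let a : G → A := fun g => ⟨σ g * (σ' g)⁻¹, h g⟩
  let φ : G → A → A := fun g x => ⟨σ' g * x * (σ' g)⁻¹, hN.conj_mem _ x.2 _⟩
  have hφm : ∀ g x y, φ g (x * y) = φ g x * φ g y := by
    intro g x y
    apply Subtype.ext
    change σ' g * (x * y : Γ) * (σ' g)⁻¹ = (σ' g * x * (σ' g)⁻¹) * (σ' g * y * (σ' g)⁻¹)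
    group
  let φ' : G → (A →* A) := fun g =>
    { toFun := φ g
      map_one' := by
        apply Subtype.ext
        change σ' g * (1 : Γ) * (σ' g)⁻¹ = 1
        group
      map_mul' := hφm g }
  have hφ' : ∀ g x, φ' g x = φ g x := fun _ _ => rfl
  have ha : ∀ g k, a (g * k) = a g * φ' g (a k) := by
    intro g k
    apply Subtype.ext
    change σ (g * k) * (σ' (g * k))⁻¹ =
      (σ g * (σ' g)⁻¹) * (σ' g * (σ k * (σ' k)⁻¹) * (σ' g)⁻¹)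
    rw [map_mul, map_mul]
    group
  obtain ⟨b, hb⟩ : ∃ b : A, b = ∏ k, a k := ⟨_, rfl⟩
  have hb1 : ∀ g, b = a g ^ Fintype.card G * φ' g b := by
    intro g
    have h1 : ∏ k, a k = ∏ k, a (g * k) :=
      (Fintype.prod_equiv (Equiv.mulLeft g) _ _ fun _ => rfl).symm
    rw [hb]
    conv_lhs => rw [h1]
    simp only [ha]
    rw [Finset.prod_mul_distrib, Finset.prod_const, Finset.card_univ, map_prod]
  obtain ⟨c, hc, hcb⟩ := hA.div (Fintype.card G) Fintype.card_pos b b.2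
  obtain ⟨c', hc'⟩ : ∃ c' : A, c' = ⟨c, hc⟩ := ⟨_, rfl⟩
  have hcb' : c' ^ Fintype.card G = b := by
    apply Subtype.ext
    rw [hc']
    exact hcb
  have hα : ∀ g, (c'⁻¹ * a g * φ' g c') ^ Fintype.card G = 1 := by
    intro g
    rw [mul_pow, mul_pow, inv_pow, hcb', ← map_pow, hcb']
    have h1 := hb1 g
    calc b⁻¹ * a g ^ Fintype.card G * φ' g b = b⁻¹ * (a g ^ Fintype.card G * φ' g b) := by
          rw [mul_assoc]
      _ = b⁻¹ * b := by rw [← h1]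
      _ = 1 := inv_mul_cancel b
  have hval : ∀ g, c⁻¹ * σ g * c * (σ' g)⁻¹ = ((c'⁻¹ * a g * φ' g c' : A) : Γ) := by
    intro g
    rw [hc']
    change _ = c⁻¹ * (σ g * (σ' g)⁻¹) * (σ' g * c * (σ' g)⁻¹)
    group
  refine ⟨c, hc, fun g => ?_⟩
  rw [hval]
  refine ⟨(c'⁻¹ * a g * φ' g c' : A).2, ?_⟩
  have h1 := congrArg (fun x : A => (x : Γ)) (hα g)
  simpa using h1

/-- **Finitely many classes of conjugates.** -/
theorem fin_classes {A : Subgroup Γ} (hA : DivAb A) (G : Subgroup Γ) [Finite G]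
    (Φ : Set (Γ ⧸ A)) (hΦ : Φ.Finite) :
    ∃ R : Set Γ, R.Finite ∧ ∀ γ : Γ, (∀ g : G, ((γ * g * γ⁻¹ : Γ) : Γ ⧸ A) ∈ Φ) →
      ∃ r ∈ R, ∃ c ∈ A, ∀ g : G, r⁻¹ * c * γ * g = g * (r⁻¹ * c * γ) := by
  classical
  have := Fintype.ofFinite G
  let σ : Γ → (G →* Γ) := fun γ => (MulAut.conj γ).toMonoidHom.comp G.subtype
  have hσ : ∀ γ g, σ γ g = γ * g * γ⁻¹ := fun _ _ => rfl
  let 𝒮 : Set Γ := {γ | ∀ g : G, ((γ * g * γ⁻¹ : Γ) : Γ ⧸ A) ∈ Φ}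
  let τ : Γ → (G → Γ ⧸ A) := fun γ g => ((γ * g * γ⁻¹ : Γ) : Γ ⧸ A)
  -- reference elements
  let ref : (G → Γ ⧸ A) → Γ := fun t => if ht : ∃ γ, τ γ = t then ht.choose else 1
  have href : ∀ γ, τ (ref (τ γ)) = τ γ := by
    intro γ
    have ht : ∃ γ', τ γ' = τ γ := ⟨γ, rfl⟩
    simp only [ref, dif_pos ht]
    exact ht.choose_spec
  have hdiff : ∀ γ g, σ γ g * (σ (ref (τ γ)) g)⁻¹ ∈ A := by
    intro γ g
    have h1 := congrFun (href γ) g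
    have h2 : ((σ (ref (τ γ)) g : Γ) : Γ ⧸ A) = ((σ γ g : Γ) : Γ ⧸ A) := h1
    rw [QuotientGroup.eq] at h2
    have h3 := hA.normal.mem_comm h2
    have h4 := A.inv_mem (hA.normal.conj_mem _ h2 (σ (ref (τ γ)) g))
    have h5 : (σ (ref (τ γ)) g * ((σ (ref (τ γ)) g)⁻¹ * σ γ g) * (σ (ref (τ γ)) g)⁻¹) =
        σ γ g * (σ (ref (τ γ)) g)⁻¹ := by group
    have h6 := hA.normal.conj_mem _ h2 (σ (ref (τ γ)) g)
    rwa [h5] at h6
  choose c hc hc2 using fun γ => cocycle hA (σ γ) (σ (ref (τ γ))) (hdiff γ)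
  let Ψ : Γ → (G → Γ ⧸ A) × (G → Γ) := fun γ =>
    (τ γ, fun g => (c γ)⁻¹ * σ γ g * c γ * (σ (ref (τ γ)) g)⁻¹)
  have hfin : (Ψ '' 𝒮).Finite := by
    have h1 : (Set.univ.pi fun _ : G => Φ).Finite := Set.Finite.pi fun _ => hΦ
    have h2 : (Set.univ.pi fun _ : G => {x | x ∈ A ∧ x ^ Fintype.card G = 1}).Finite :=
      Set.Finite.pi fun _ => hA.tors _ Fintype.card_pos
    refine (h1.prod h2).subset ?_
    rintro _ ⟨γ, hγ, rfl⟩
    refine ⟨fun g _ => hγ g, fun g _ => hc2 γ g⟩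
  obtain ⟨R, hR, hRfin⟩ : ∃ R : Set Γ, (∀ y ∈ Ψ '' 𝒮, ∃ r ∈ R, Ψ r = y) ∧ R.Finite := by
    choose! f hf using fun y (hy : y ∈ Ψ '' 𝒮) => hy
    exact ⟨f '' (Ψ '' 𝒮), fun y hy => ⟨f y, ⟨y, hy, rfl⟩, (hf y hy).2⟩, hfin.image f⟩
  refine ⟨R, hRfin, fun γ hγ => ?_⟩
  obtain ⟨r, hr, hΨ⟩ := hR (Ψ γ) ⟨γ, hγ, rfl⟩
  have hτ : τ r = τ γ := congrArg Prod.fst hΨ
  refine ⟨r, hr, c r * (c γ)⁻¹, A.mul_mem (hc r) (A.inv_mem (hc γ)), fun g => ?_⟩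
  have h1 := congrFun (congrArg Prod.snd hΨ) g
  have h2 : (c r)⁻¹ * σ r g * c r * (σ (ref (τ r)) g)⁻¹ =
    (c γ)⁻¹ * σ γ g * c γ * (σ (ref (τ γ)) g)⁻¹ := h1
  rw [hτ] at h2
  have h3 := mul_right_cancel h2
  rw [hσ, hσ] at h3
  have h4 : (g : Γ) * (r⁻¹ * (c r * (c γ)⁻¹) * γ) =
      r⁻¹ * c r * ((c r)⁻¹ * (r * g * r⁻¹) * c r) * (c γ)⁻¹ * γ := by group
  rw [h4, h3]
  group

end Pool.Agent.K1H17.MC
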