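import Pool.Agent.K1H17.MC.FA
import Pool.Agent.K1H17.MC.Hm

/-! The fixed cone of a finite group: a rational polyhedral cone whose translates by the
centralizer cover it. -/

set_option autoImplicit false
set_option linter.overlappingInstances false
set_option linter.unusedSectionVars false
set_option linter.unusedVariables false

open Pointwise

namespace Pool.Agent.K1H17.MC

section

variable {V : Type*} [AddCommGroup V] [Module ℝ V] {Γ : Type*} [Group Γ]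
  {Λ : AddSubgroup V} {C : Set V} {ρ : Γ →* Module.End ℝ V} {ξ : V →ₗ[ℝ] ℝ}

theorem inn_sub {C : Set V} {x : V} (h : x ∈ inn C) : x ∈ C := by
  obtain ⟨ε, -, h1⟩ := h 0
  rwa [smul_zero, add_zero] at h1

theorem inn_add {C : Set V} (hC : IsCone C) {x y : V} (hx : x ∈ inn C) (hy : y ∈ C) :
    x + y ∈ inn C := by
  intro v
  obtain ⟨ε, hε, h1⟩ := hx v
  refine ⟨ε, hε, ?_⟩
  have h2 : x + y + ε • v = (x + ε • v) + y := by abel
  rw [h2]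
  exact hC.add _ h1 _ hy

theorem inn_smul {C : Set V} (hC : IsCone C) {x : V} (hx : x ∈ inn C) {c : ℝ} (hc : 0 < c) :
    c • x ∈ inn C := by
  intro v
  obtain ⟨ε, hε, h1⟩ := hx v
  refine ⟨c * ε, mul_pos hc hε, ?_⟩
  have h2 : c • x + (c * ε) • v = c • (x + ε • v) := by rw [smul_add, smul_smul]
  rw [h2]
  exact hC.smul _ hc.le _ h1

theorem Dat.inn_rho (h : Dat Λ C ρ ξ) {x : V} (hx : x ∈ inn C) (γ : Γ) : ρ γ x ∈ inn C := by
  intro v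
  obtain ⟨ε, hε, h1⟩ := hx (ρ γ⁻¹ v)
  refine ⟨ε, hε, ?_⟩
  have h2 : ρ γ x + ε • v = ρ γ (x + ε • ρ γ⁻¹ v) := by
    rw [map_add, map_smul, rho_inv']
  rw [h2]
  exact h.stabC _ _ h1

/-- Finitely many of the linear forms `ξ (γ x)` are bounded on an interior point. -/
theorem Dat.sublevel (h : Dat Λ C ρ ξ) {m : ℕ} {b : Fin m → V} (hb : ∀ i, b i ∈ Λ)
    (hspan : ∀ x, x ∈ Submodule.span ℝ (Set.range b)) {e : V} (he : e ∈ inn C) (B : ℝ) :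
    {η : V →ₗ[ℝ] ℝ | (∃ γ, η = ξ ∘ₗ ρ γ) ∧ η e ≤ B}.Finite := by
  classical
  choose ε1 hε1 h1 using fun i => he (b i)
  choose ε2 hε2 h2 using fun i => he (-(b i))
  let f : (V →ₗ[ℝ] ℝ) → (Fin m → ℝ) := fun η i => η (b i)
  have hinj : Set.InjOn f {η : V →ₗ[ℝ] ℝ | (∃ γ, η = ξ ∘ₗ ρ γ) ∧ η e ≤ B} := by
    intro η _ η' _ hηη
    refine LinearMap.ext_on (s := Set.range b) ?_ ?_
    · exact Submodule.eq_top_iff'.2 hspan
    · rintro _ ⟨i, rfl⟩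
      exact congrFun hηη i
  refine Set.Finite.of_finite_image ?_ hinj
  let K : ℤ := ∑ i, ⌈|B| / ε1 i + |B| / ε2 i⌉
  have hterm : ∀ i, 0 ≤ |B| / ε1 i + |B| / ε2 i := fun i =>
    add_nonneg (div_nonneg (abs_nonneg _) (hε1 i).le) (div_nonneg (abs_nonneg _) (hε2 i).le)
  have hK : ∀ i, |B| / ε1 i + |B| / ε2 i ≤ K := by
    intro i
    refine (Int.le_ceil _).trans ?_
    exact_mod_cast Finset.single_le_sum (f := fun i => ⌈|B| / ε1 i + |B| / ε2 i⌉)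
      (fun j _ => Int.ceil_nonneg (hterm j)) (Finset.mem_univ i)
  have hfin : (Set.univ.pi fun _ : Fin m => ((fun z : ℤ => (z : ℝ)) '' Set.Icc (-K) K)).Finite :=
    Set.Finite.pi fun _ => (Set.finite_Icc _ _).image _
  refine hfin.subset ?_
  rintro _ ⟨η, ⟨⟨γ, rfl⟩, hB⟩, rfl⟩ i -
  obtain ⟨z, hz⟩ := h.int _ (h.stabΛ γ _ (hb i))
  refine ⟨z, ?_, hz.symm⟩
  have hpos : ∀ x ∈ C, 0 ≤ (ξ ∘ₗ ρ γ) x := fun x hx => h.nonneg _ (h.stabC _ _ hx)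
  have g1 := hpos _ (h1 i)
  have g2 := hpos _ (h2 i)
  have hz' : (ξ ∘ₗ ρ γ) (b i) = z := hz
  rw [map_add, map_smul, smul_eq_mul, hz'] at g1
  rw [map_add, map_smul, map_neg, smul_eq_mul, hz'] at g2
  have hBB : (ξ ∘ₗ ρ γ) e ≤ |B| := hB.trans (le_abs_self _)
  have k1 : -(z : ℝ) ≤ |B| / ε1 i := by
    rw [le_div_iff₀ (hε1 i)]
    nlinarith
  have k2 : (z : ℝ) ≤ |B| / ε2 i := by
    rw [le_div_iff₀ (hε2 i)]
    nlinarith
  have k3 : 0 ≤ |B| / ε1 i := div_nonneg (abs_nonneg _) (hε1 i).le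
  have k4 : 0 ≤ |B| / ε2 i := div_nonneg (abs_nonneg _) (hε2 i).le
  have k5 := hK i
  constructor
  · have : -(K : ℝ) ≤ z := by linarith
    exact_mod_cast this
  · have : (z : ℝ) ≤ K := by linarith
    exact_mod_cast this

/-- The minimal linear forms at the interior points of a polyhedral cone. -/
def MM (C : Set V) (ρ : Γ →* Module.End ℝ V) (ξ : V →ₗ[ℝ] ℝ) (Q : Set V) : Set (V →ₗ[ℝ] ℝ) :=
  {η | (∃ γ, η = ξ ∘ₗ ρ γ) ∧ ∃ x ∈ Q, x ∈ inn C ∧ ∀ δ, η x ≤ ξ (ρ δ x)}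

theorem Dat.MM_finite (h : Dat Λ C ρ ξ) {m : ℕ} {b : Fin m → V} (hb : ∀ i, b i ∈ Λ)
    (hspan : ∀ x, x ∈ Submodule.span ℝ (Set.range b)) {n : ℕ} {t : Fin n → V}
    (ht : ∀ i, t i ∈ Λ) (htC : ∀ i, t i ∈ C) : (MM C ρ ξ (cn t)).Finite := by
  classical
  choose M hM using fun (γ : Γ) i => h.int _ (h.stabΛ γ _ (ht i))
  have hM0 : ∀ γ i, 0 ≤ M γ i := fun γ i => by
    have := h.nonneg _ (h.stabC γ _ (htC i))
    rw [hM] at this
    exact_mod_cast this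
  choose S hS using fun J : Finset (Fin n) => dickson fun (γ : Γ) (i : J) => (M γ i).toNat
  let e : Finset (Fin n) → V := fun J => ∑ i ∈ J, t i
  have hfin : (⋃ J : Finset (Fin n), ⋃ s ∈ S J, {η : V →ₗ[ℝ] ℝ | (∃ γ, η = ξ ∘ₗ ρ γ) ∧
      e J ∈ inn C ∧ η (e J) ≤ ξ (ρ s (e J))}).Finite := by
    refine Set.finite_iUnion fun J => ?_
    refine Set.Finite.biUnion (S J).finite_toSet fun s _ => ?_
    by_cases he : e J ∈ inn C
    · refine (h.sublevel hb hspan he (ξ (ρ s (e J)))).subset ?_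
      rintro η ⟨h1, -, h2⟩
      exact ⟨h1, h2⟩
    · refine Set.finite_empty.subset ?_
      rintro η ⟨-, h1, -⟩
      exact he h1
  refine hfin.subset ?_
  rintro η ⟨⟨γ, rfl⟩, x, ⟨a, ha, rfl⟩, hx, hmin⟩
  obtain ⟨J, hJ⟩ : ∃ J : Finset (Fin n), J = Finset.univ.filter fun i => 0 < a i := ⟨_, rfl⟩
  have hJa : ∀ i, i ∉ J → a i = 0 := by
    intro i hi
    rw [hJ, Finset.mem_filter] at hi
    push Not at hi
    exact le_antisymm (hi (Finset.mem_univ _)) (ha i)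
  obtain ⟨s, hs, hle⟩ := hS J γ
  have hle' : ∀ i ∈ J, M s i ≤ M γ i := by
    intro i hi
    have h1 := hle ⟨i, hi⟩
    have h2 := hM0 s i
    have h3 := hM0 γ i
    simp only at h1
    omega
  have hval : ∀ δ, ξ (ρ δ (∑ i, a i • t i)) = ∑ i ∈ J, a i * (M δ i : ℝ) := by
    intro δ
    rw [map_sum, map_sum]
    simp only [map_smul, smul_eq_mul, hM]
    refine (Finset.sum_subset (Finset.subset_univ J) fun i _ hi => ?_).symm
    rw [hJa i hi, zero_mul]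
  have hmin' := hmin s
  rw [LinearMap.comp_apply, hval, hval] at hmin'
  have heq : ∀ i ∈ J, M γ i ≤ M s i := by
    intro i hi
    by_contra hcon
    push Not at hcon
    have hai : 0 < a i := by
      rw [hJ, Finset.mem_filter] at hi
      exact hi.2
    have h1 : ∑ i ∈ J, a i * (M s i : ℝ) < ∑ i ∈ J, a i * (M γ i : ℝ) := by
      refine Finset.sum_lt_sum (fun j hj => mul_le_mul_of_nonneg_left ?_ (ha j)) ⟨i, hi,
        mul_lt_mul_of_pos_left ?_ hai⟩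
      · exact_mod_cast hle' j hj
      · exact_mod_cast hcon
    linarith
  simp only [Set.mem_iUnion]
  refine ⟨J, s, hs, ⟨γ, rfl⟩, ?_, ?_⟩
  · -- the sum of the generators is an interior point
    obtain ⟨c, hc0, hc⟩ : ∃ c : ℝ, 0 < c ∧ ∀ i ∈ J, a i ≤ c := by
      refine ⟨1 + ∑ i ∈ J, a i, by have := Finset.sum_nonneg fun i (_ : i ∈ J) => ha i; linarith,
        fun i hi => ?_⟩
      have := Finset.single_le_sum (fun j _ => ha j) hi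
      linarith
    have h1 : c • e J = (∑ i, a i • t i) + ∑ i ∈ J, (c - a i) • t i := by
      have h2 : (∑ i, a i • t i) = ∑ i ∈ J, a i • t i := by
        refine (Finset.sum_subset (Finset.subset_univ J) fun i _ hi => ?_).symm
        rw [hJa i hi, zero_smul]
      rw [h2, ← Finset.sum_add_distrib, Finset.smul_sum]
      exact Finset.sum_congr rfl fun i _ => by rw [← add_smul]; congr 1; ring
    have h3 : c • e J ∈ inn C := by
      rw [h1]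
      exact inn_add h.cone hx (h.cone.sum _ _ fun i hi =>
        h.cone.smul _ (by linarith [hc i hi]) _ (htC i))
    have h4 : e J = c⁻¹ • (c • e J) := by rw [smul_smul, inv_mul_cancel₀ hc0.ne', one_smul]
    rw [h4]
    exact inn_smul h.cone h3 (inv_pos.2 hc0)
  · change ξ (ρ γ (∑ i ∈ J, t i)) ≤ ξ (ρ s (∑ i ∈ J, t i))
    rw [map_sum, map_sum, map_sum, map_sum]
    refine Finset.sum_le_sum fun i hi => ?_
    rw [hM, hM]
    exact_mod_cast heq i hi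

/-- **The finiteness property.** -/
theorem Dat.siegel (h : Dat Λ C ρ ξ) {m : ℕ} {b : Fin m → V} (hb : ∀ i, b i ∈ Λ)
    (hspan : ∀ x, x ∈ Submodule.span ℝ (Set.range b)) {n n' : ℕ} {t : Fin n → V}
    (ht : ∀ i, t i ∈ Λ) (htC : ∀ i, t i ∈ C) {t' : Fin n' → V} (ht' : ∀ i, t' i ∈ Λ)
    (htC' : ∀ i, t' i ∈ C) :
    {f : Module.End ℝ V | ∃ γ, ρ γ = f ∧ ∃ x ∈ cn t, x ∈ inn C ∧ ρ γ x ∈ cn t'}.Finite := by
  classical
  have h1 := h.MM_finite hb hspan ht htC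
  have h2 := h.MM_finite hb hspan ht' htC'
  have hfin : (⋃ η ∈ MM C ρ ξ (cn t), ⋃ η' ∈ MM C ρ ξ (cn t'),
      {f : Module.End ℝ V | (∃ γ, ρ γ = f) ∧ η = η' ∘ₗ f}).Finite := by
    refine Set.Finite.biUnion h1 fun η _ => Set.Finite.biUnion h2 fun η' hη' => ?_
    obtain ⟨⟨δ, hδ⟩, -⟩ := hη'
    by_cases hne : ∃ γ1, η = η' ∘ₗ ρ γ1
    · obtain ⟨γ1, hγ1⟩ := hne
      refine (h.stab.image fun g => ρ δ⁻¹ * g * ρ δ * ρ γ1).subset ?_
      rintro f ⟨⟨γ, rfl⟩, hf⟩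
      refine ⟨ρ (δ * γ * γ1⁻¹ * δ⁻¹), ⟨⟨_, rfl⟩, ?_⟩, ?_⟩
      · refine LinearMap.ext fun x => ?_
        have g1 : ∀ y, ξ (ρ δ (ρ γ y)) = ξ (ρ δ (ρ γ1 y)) := by
          intro y
          have k1 := congrArg (fun g : V →ₗ[ℝ] ℝ => g y) (hf.symm.trans hγ1)
          rw [hδ] at k1
          exact k1
        rw [LinearMap.comp_apply, rho_mul, rho_mul, rho_mul, g1, rho_inv', rho_inv']
      · refine LinearMap.ext fun x => ?_
        change ρ δ⁻¹ (ρ (δ * γ * γ1⁻¹ * δ⁻¹) (ρ δ (ρ γ1 x))) = ρ γ x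
        rw [← rho_mul, ← rho_mul, ← rho_mul]
        congr 2
        group
    · refine Set.finite_empty.subset ?_
      rintro f ⟨⟨γ, rfl⟩, hf⟩
      exact hne ⟨γ, hf⟩
  refine hfin.subset ?_
  rintro f ⟨γ, rfl, x, hx, hxi, hx'⟩
  obtain ⟨S, hS⟩ := h.fin_min t ht htC
  have hSne : S.Nonempty := by
    obtain ⟨s, hs, -⟩ := hS 1
    exact ⟨s, hs⟩
  obtain ⟨δ, hδ, hmin⟩ := S.exists_min_image (fun s => ξ (ρ s x)) hSne
  have hmin' : ∀ δ', ξ (ρ δ x) ≤ ξ (ρ δ' x) := by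
    intro δ'
    obtain ⟨s, hs, hle⟩ := hS δ'
    exact (hmin s hs).trans (hle x hx)
  simp only [Set.mem_iUnion]
  refine ⟨ξ ∘ₗ ρ δ, ⟨⟨δ, rfl⟩, x, hx, hxi, hmin'⟩, ξ ∘ₗ ρ (δ * γ⁻¹),
    ⟨⟨_, rfl⟩, ρ γ x, hx', h.inn_rho hxi γ, fun δ' => ?_⟩, ⟨γ, rfl⟩, ?_⟩
  · rw [LinearMap.comp_apply, rho_mul, rho_inv, ← rho_mul]
    exact hmin' _
  · refine LinearMap.ext fun y => ?_
    rw [LinearMap.comp_apply, LinearMap.comp_apply, LinearMap.comp_apply, rho_mul, rho_inv]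

/-- The elements of a polyhedral cone which are fixed by a finite group. -/
theorem RP.fix {Q : Set V} (hQ : RP Λ Q) {m' : ℕ} {ls : Fin m' → V →ₗ[ℝ] ℝ}
    (hl : ∀ i, ∀ x ∈ Λ, ∃ z : ℤ, ls i x = z) (hl0 : ∀ x, (∀ i, ls i x = 0) → x = 0)
    {G : Subgroup Γ} [Finite G] (hΛ : ∀ γ, ∀ x ∈ Λ, ρ γ x ∈ Λ) :
    RP Λ {x | x ∈ Q ∧ ∀ g ∈ G, ρ g x = x} := by
  classical
  have := Fintype.ofFinite G
  let L : G × Fin m' × Bool → V →ₗ[ℝ] ℝ := fun p =>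
    if p.2.2 then ls p.2.1 ∘ₗ ρ p.1 - ls p.2.1 else ls p.2.1 - ls p.2.1 ∘ₗ ρ p.1
  have h1 := hQ.cut_many Finset.univ L fun p _ x hx => by
    obtain ⟨z, hz⟩ := hl p.2.1 _ (hΛ p.1 x hx)
    obtain ⟨z', hz'⟩ := hl p.2.1 _ hx
    by_cases hp : p.2.2 = true
    · refine ⟨z - z', ?_⟩
      simp only [L, hp, if_true]
      rw [LinearMap.sub_apply, LinearMap.comp_apply, hz, hz']
      push_cast; ring
    · refine ⟨z' - z, ?_⟩
      simp only [L, hp]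
      rw [if_neg (by simp), LinearMap.sub_apply, LinearMap.comp_apply, hz, hz']
      push_cast; ring
  have h2 : {x | x ∈ Q ∧ ∀ p ∈ Finset.univ, 0 ≤ L p x} = {x | x ∈ Q ∧ ∀ g ∈ G, ρ g x = x} := by
    ext x
    constructor
    · rintro ⟨hx, h3⟩
      refine ⟨hx, fun g hg => ?_⟩
      rw [← sub_eq_zero]
      refine hl0 _ fun i => ?_
      have h4 := h3 (⟨g, hg⟩, i, true) (Finset.mem_univ _)
      have h5 := h3 (⟨g, hg⟩, i, false) (Finset.mem_univ _)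
      simp only [L, if_true] at h4
      simp only [L] at h5
      rw [if_neg (by simp)] at h5
      rw [LinearMap.sub_apply, LinearMap.comp_apply] at h4 h5
      rw [map_sub]
      exact le_antisymm (by linarith) h4
    · rintro ⟨hx, h3⟩
      refine ⟨hx, fun p _ => ?_⟩
      have h4 := h3 p.1 p.1.2
      simp only [L]
      split_ifs
      · rw [LinearMap.sub_apply, LinearMap.comp_apply, h4, sub_self]
      · rw [LinearMap.sub_apply, LinearMap.comp_apply, h4, sub_self]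
  rw [← h2]
  exact h1

/-- **The fixed cone of a finite group.** -/
theorem Dat.fixed (h : Dat Λ C ρ ξ) {m : ℕ} {b : Fin m → V} (hb : ∀ i, b i ∈ Λ)
    (hspan : ∀ x, x ∈ Submodule.span ℝ (Set.range b)) {m' : ℕ} {ls : Fin m' → V →ₗ[ℝ] ℝ}
    (hl : ∀ i, ∀ x ∈ Λ, ∃ z : ℤ, ls i x = z) (hl0 : ∀ x, (∀ i, ls i x = 0) → x = 0)
    {Q : Set V} (hQ : RP Λ Q) (hQC : Q ⊆ C) (hcov : ∀ x ∈ C, ∃ γ, ∃ y ∈ Q, x = ρ γ y)
    {A : Subgroup Γ} (hA : DivAb A) (hA1 : ∀ a ∈ A, ρ a = 1)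
    (hker : ((fun g : Γ => (g : Γ ⧸ A)) '' {g | ρ g = 1}).Finite)
    (G : Subgroup Γ) [Finite G] {e0 : V} (he0Λ : e0 ∈ Λ) (he0 : e0 ∈ inn C)
    (he0G : ∀ g ∈ G, ρ g e0 = e0) :
    ∃ Q'' : Set V, RP Λ Q'' ∧ (∀ x ∈ Q'', x ∈ C ∧ ∀ g ∈ G, ρ g x = x) ∧
      ∀ x ∈ C, (∀ g ∈ G, ρ g x = x) → ∃ z : Γ, (∀ g ∈ G, z * g = g * z) ∧
        ∃ y ∈ Q'', x = ρ z y := by
  classical
  obtain ⟨n, t, ht, hQt⟩ := id hQ
  have htC : ∀ i, t i ∈ C := fun i => hQC (by rw [hQt]; exact gen_mem t i)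
  obtain ⟨F, hFdef⟩ : ∃ F : Set (Module.End ℝ V),
    F = {f | ∃ γ, ρ γ = f ∧ ∃ x ∈ cn t, x ∈ inn C ∧ ρ γ x ∈ cn t} := ⟨_, rfl⟩
  have hF : F.Finite := by rw [hFdef]; exact h.siegel hb hspan ht htC ht htC
  obtain ⟨Φ, hΦdef⟩ : ∃ Φ : Set (Γ ⧸ A), Φ = {c | ∃ γ : Γ, (γ : Γ ⧸ A) = c ∧ ρ γ ∈ F} :=
    ⟨_, rfl⟩
  have hΦ : Φ.Finite := by
    have h1 : (⋃ f ∈ F, {c : Γ ⧸ A | ∃ γ : Γ, (γ : Γ ⧸ A) = c ∧ ρ γ = f}).Finite := by
      refine Set.Finite.biUnion hF fun f _ => ?_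
      by_cases hne : ∃ γ0, ρ γ0 = f
      · obtain ⟨γ0, hγ0⟩ := hne
        refine (hker.image fun c => γ0 • c).subset ?_
        rintro _ ⟨γ, rfl, hγ⟩
        refine ⟨((γ0⁻¹ * γ : Γ) : Γ ⧸ A), ⟨γ0⁻¹ * γ, ?_, rfl⟩, ?_⟩
        · change ρ (γ0⁻¹ * γ) = 1
          rw [map_mul, hγ, ← hγ0, ← map_mul, inv_mul_cancel, map_one]
        · change ((γ0 * (γ0⁻¹ * γ) : Γ) : Γ ⧸ A) = _
          rw [mul_inv_cancel_left]
      · refine Set.finite_empty.subset ?_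
        rintro _ ⟨γ, rfl, hγ⟩
        exact hne ⟨γ, hγ⟩
    refine h1.subset ?_
    rw [hΦdef]
    rintro _ ⟨γ, rfl, hγ⟩
    simp only [Set.mem_iUnion]
    exact ⟨ρ γ, hγ, γ, rfl, rfl⟩
  obtain ⟨R, hR, hRc⟩ := fin_classes hA G Φ hΦ
  have hRf : Finite R := hR.to_subtype
  let Qr : R → Set V := fun r => {x | x ∈ ρ (r : Γ)⁻¹ '' Q ∧ ∀ g ∈ G, ρ g x = x}
  have hQr : ∀ r, RP Λ (Qr r) := fun r => (hQ.map _ (h.stabΛ _)).fix hl hl0 h.stabΛ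
  obtain ⟨Q'', hQ'', hsub, hmin⟩ := sum_RP Qr hQr
  refine ⟨Q'', hQ'', ?_, ?_⟩
  · have hE : IsCone {x | x ∈ C ∧ ∀ g ∈ G, ρ g x = x} := by
      refine ⟨⟨h.cone.zero, fun g _ => map_zero _⟩, ?_, ?_⟩
      · rintro x ⟨hx, hx'⟩ y ⟨hy, hy'⟩
        refine ⟨h.cone.add _ hx _ hy, fun g hg => ?_⟩
        rw [map_add, hx' g hg, hy' g hg]
      · rintro c hc x ⟨hx, hx'⟩
        refine ⟨h.cone.smul _ hc _ hx, fun g hg => ?_⟩
        rw [map_smul, hx' g hg]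
    refine hmin _ hE fun r => ?_
    rintro x ⟨⟨y, hy, rfl⟩, hx⟩
    exact ⟨h.stabC _ _ (hQC hy), hx⟩
  · intro x hx hxG
    obtain ⟨γ0, y0, hy0, hxy0⟩ := hcov x hx
    -- a polyhedral cone which contains `x` and `e0`
    let t1 : Fin (n + 1) → V := Fin.cons e0 fun i => ρ γ0 (t i)
    have ht1 : ∀ i, t1 i ∈ Λ := by
      intro i
      refine Fin.cases ?_ (fun j => ?_) i
      · exact he0Λ
      · exact h.stabΛ _ _ (ht j)
    have ht1C : ∀ i, t1 i ∈ C := by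
      intro i
      refine Fin.cases ?_ (fun j => ?_) i
      · exact inn_sub he0
      · exact h.stabC _ _ (htC j)
    have he1 : e0 ∈ cn t1 := gen_mem t1 0
    have hx1 : x ∈ cn t1 := by
      rw [hQt] at hy0
      obtain ⟨a, ha, hy0'⟩ := hy0
      rw [hxy0, hy0', map_sum]
      refine (cn_cone t1).sum _ _ fun i _ => ?_
      rw [map_smul]
      exact (cn_cone t1).smul _ (ha i) _ (gen_mem t1 i.succ)
    obtain ⟨F1, hF1def⟩ : ∃ F1 : Set (Module.End ℝ V),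
      F1 = {f | ∃ γ, ρ γ = f ∧ ∃ x ∈ cn t1, x ∈ inn C ∧ ρ γ x ∈ cn t} := ⟨_, rfl⟩
    have hF1 : F1.Finite := by rw [hF1def]; exact h.siegel hb hspan ht1 ht1C ht htC
    have hstep : ∀ ε : ℝ, 0 < ε → ∃ r ∈ R, ∃ f ∈ F1, f (x + ε • e0) ∈ cn t ∧
        ∃ z : Γ, (∀ g ∈ G, z * g = g * z) ∧ ρ (r * z) = f := by
      intro ε hε
      have hxi : x + ε • e0 ∈ inn C := by
        rw [add_comm]
        exact inn_add h.cone (inn_smul h.cone he0 hε) hx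
      have hxG' : ∀ g ∈ G, ρ g (x + ε • e0) = x + ε • e0 := fun g hg => by
        rw [map_add, map_smul, hxG g hg, he0G g hg]
      obtain ⟨γ, y, hy, hxy⟩ := hcov _ (inn_sub hxi)
      have hy1 : ρ γ⁻¹ (x + ε • e0) = y := by rw [hxy, rho_inv]
      have hyi : y ∈ inn C := by rw [← hy1]; exact h.inn_rho hxi _
      have hcls : ∀ g : G, ((γ⁻¹ * g * γ⁻¹⁻¹ : Γ) : Γ ⧸ A) ∈ Φ := by
        intro g
        have h1 : ρ (γ⁻¹ * g * γ⁻¹⁻¹) y = y := by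
          rw [inv_inv, rho_mul, ← hxy, rho_mul, hxG' g g.2, hy1]
        rw [hΦdef]
        refine ⟨_, rfl, ?_⟩
        rw [hFdef]
        exact ⟨_, rfl, y, by rw [← hQt]; exact hy, hyi, by rw [h1, ← hQt]; exact hy⟩
      obtain ⟨r, hr, c, hc, hz⟩ := hRc γ⁻¹ hcls
      refine ⟨r, hr, ρ γ⁻¹, ?_, ?_, r⁻¹ * c * γ⁻¹, fun g hg => hz ⟨g, hg⟩, ?_⟩
      · rw [hF1def]
        exact ⟨_, rfl, _, (cn_cone t1).add _ hx1 _ ((cn_cone t1).smul _ hε.le _ he1), hxi,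
          by rw [hy1, ← hQt]; exact hy⟩
      · rw [hy1, ← hQt]; exact hy
      · have h2 : r * (r⁻¹ * c * γ⁻¹) = c * γ⁻¹ := by group
        rw [h2, map_mul, hA1 c hc, one_mul]
    -- one pair occurs for arbitrarily small `ε`
    obtain ⟨r, hr, f, hf, hinf, z, hz, hrz⟩ : ∃ r ∈ R, ∃ f ∈ F1, (∀ δ > 0, ∃ ε : ℝ, 0 < ε ∧
        ε < δ ∧ f (x + ε • e0) ∈ cn t) ∧ ∃ z : Γ, (∀ g ∈ G, z * g = g * z) ∧ ρ (r * z) = f := by
      by_contra hcon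
      push Not at hcon
      have h1 : ∀ p : Γ × Module.End ℝ V, ∃ δ : ℝ, 0 < δ ∧ (p.1 ∈ R → p.2 ∈ F1 →
          (∃ z : Γ, (∀ g ∈ G, z * g = g * z) ∧ ρ (p.1 * z) = p.2) →
          ∀ ε : ℝ, 0 < ε → ε < δ → p.2 (x + ε • e0) ∉ cn t) := by
        intro p
        by_cases hp : p.1 ∈ R ∧ p.2 ∈ F1 ∧
          ∃ z : Γ, (∀ g ∈ G, z * g = g * z) ∧ ρ (p.1 * z) = p.2
        · obtain ⟨hp1, hp2, z, hz1, hz2⟩ := hp
          by_cases hall : ∀ δ > 0, ∃ ε : ℝ, 0 < ε ∧ ε < δ ∧ p.2 (x + ε • e0) ∈ cn t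
          · exact absurd hz2 (hcon p.1 hp1 p.2 hp2 hall z hz1)
          · push Not at hall
            obtain ⟨δ, hδ, h2⟩ := hall
            exact ⟨δ, hδ, fun _ _ _ => h2⟩
        · exact ⟨1, one_pos, fun a b c => absurd ⟨a, b, c⟩ hp⟩
      choose δ hδ0 hδ using h1
      obtain ⟨r0, hr0, f0, hf0, -, z0, -, -⟩ := hstep 1 one_pos
      let P : Finset (Γ × Module.End ℝ V) := hR.toFinset ×ˢ hF1.toFinset
      obtain ⟨p0, hp0, hp0min⟩ := P.exists_min_image δ ⟨(r0, f0), Finset.mem_product.2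
        ⟨hR.mem_toFinset.2 hr0, hF1.mem_toFinset.2 hf0⟩⟩
      obtain ⟨r, hr, f, hf, hfx, hz⟩ := hstep (δ p0 / 2) (half_pos (hδ0 p0))
      have h3 := hp0min (r, f) (Finset.mem_product.2
        ⟨hR.mem_toFinset.2 hr, hF1.mem_toFinset.2 hf⟩)
      exact hδ (r, f) hr hf hz _ (half_pos (hδ0 p0)) ((half_lt_self (hδ0 p0)).trans_le h3) hfx
    have hfx : f x ∈ cn t := by
      refine cn_closed t (v := f e0) fun δ hδ => ?_
      obtain ⟨ε, h1, h2, h3⟩ := hinf δ hδ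
      refine ⟨ε, h1, h2, ?_⟩
      rwa [map_add, map_smul] at h3
    refine ⟨z⁻¹, fun g hg => ?_, ρ z x, ?_, (rho_inv _ _).symm⟩
    · have h1 := hz g hg
      calc z⁻¹ * g = z⁻¹ * (g * z) * z⁻¹ := by group
        _ = z⁻¹ * (z * g) * z⁻¹ := by rw [h1]
        _ = g * z⁻¹ := by group
    · refine hsub ⟨r, hr⟩ ⟨⟨f x, by rw [hQt]; exact hfx, ?_⟩, fun g hg => ?_⟩
      · rw [← hrz, rho_mul, rho_inv]
      · rw [← rho_mul, ← hz g hg, rho_mul, hxG g hg]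

end

end Pool.Agent.K1H17.MC
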