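import Pool.Agent.K1H17.MC.Gm
import Pool.Agent.K1H17.MC.FB

/-! A rational polyhedral cone whose translates cover the big movable classes. -/

set_option autoImplicit false
set_option linter.overlappingInstances false
set_option linter.unusedSectionVars false
set_option linter.unusedVariables false

open FF Module

namespace Pool.Agent.K1H17.MC

section

variable {V : Type*} [AddCommGroup V] [Module ℝ V] {Γ : Type*} [Group Γ]
  {Λ : AddSubgroup V} {C E : Set V} {ρ : Γ →* Module.End ℝ V} {ξ : V →ₗ[ℝ] ℝ}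

/-- **Passage to the boundary.** If the classes `∑ a j • D j + ε • x0` for arbitrarily small `ε`,
where the `D j` and `x0` are lattice points of an invariant cone with finitely many lattice points of
bounded degree, lie in the translates of a rational polyhedral cone, then so does `∑ a j • D j`. -/
theorem bigcov (hC : Dat Λ C ρ ξ) (hEρ : ∀ γ, ∀ x ∈ E, ρ γ x ∈ E) (hE0 : ∀ x ∈ E, 0 ≤ ξ x)
    (hfin : ∀ B : ℝ, {x | x ∈ Λ ∧ x ∈ E ∧ ξ x ≤ B}.Finite) {n : ℕ} {t : Fin n → V}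
    (ht : ∀ i, t i ∈ Λ) (htC : ∀ i, t i ∈ C) {J : Type} [Fintype J] {D : J → V}
    (hD : ∀ j, D j ∈ Λ) (hDE : ∀ j, D j ∈ E) {a : J → ℝ} (ha : ∀ j, 0 < a j) {x0 : V}
    (hx0 : x0 ∈ Λ) (hx0E : x0 ∈ E)
    (hcov : ∀ δ : ℝ, 0 < δ → ∃ ε : ℝ, 0 < ε ∧ ε < δ ∧
      ∃ γ, ∃ y ∈ cn t, ∑ j, a j • D j + ε • x0 = ρ γ y) :
    ∃ γ, ∃ y ∈ cn t, ∑ j, a j • D j = ρ γ y := by
  classical
  obtain ⟨S, hS⟩ := hC.fin_min t ht htC
  have hSne : S.Nonempty := by
    obtain ⟨s, hs, -⟩ := hS 1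
    exact ⟨s, hs⟩
  choose e hN0 hN1 γ y hy hp using fun N : ℕ => hcov (1 / ((N : ℝ) + 1)) (by positivity)
  obtain ⟨p, hpdef⟩ : ∃ p : ℕ → V, p = fun N : ℕ => ∑ j, a j • D j + e N • x0 :=
    ⟨_, rfl⟩
  have hp' : ∀ N, p N = ρ (γ N) (y N) := fun N => by rw [hpdef]; exact hp N
  choose s hsS hsmin using fun N => S.exists_min_image (fun s => ξ (ρ s (y N))) hSne
  obtain ⟨g, hg⟩ : ∃ g : ℕ → Γ, g = fun N => s N * (γ N)⁻¹ := ⟨_, rfl⟩
  have hgp : ∀ N, ρ (g N) (p N) = ρ (s N) (y N) := by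
    intro N
    rw [hg, hp']
    change ρ (s N * (γ N)⁻¹) _ = _
    rw [rho_mul, rho_inv]
  have hmin : ∀ N γ', ξ (ρ (g N) (p N)) ≤ ξ (ρ γ' (p N)) := by
    intro N γ'
    obtain ⟨s', hs', hle⟩ := hS (γ' * γ N)
    have h1 := hle (y N) (hy N)
    rw [hgp, hp' N, ← rho_mul]
    exact (hsmin N s' hs').trans h1
  have hexp : ∀ N γ', ξ (ρ γ' (p N)) = ∑ j, a j * ξ (ρ γ' (D j)) +
      e N * ξ (ρ γ' x0) := by
    intro N γ'
    rw [hpdef]
    simp only [map_add, map_sum, map_smul, smul_eq_mul]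
  have hN2 : ∀ N : ℕ, e N ≤ 1 := fun N => by
    refine (hN1 N).le.trans ?_
    rw [div_le_one (by positivity)]
    have : (0 : ℝ) ≤ N := Nat.cast_nonneg N
    linarith
  have hD0 : ∀ γ' j, 0 ≤ ξ (ρ γ' (D j)) := fun γ' j => hE0 _ (hEρ _ _ (hDE j))
  have hx00 : ∀ γ', 0 ≤ ξ (ρ γ' x0) := fun γ' => hE0 _ (hEρ _ _ hx0E)
  obtain ⟨B, hB⟩ : ∃ B : ℝ, B = ∑ j, a j * ξ (D j) + ξ x0 := ⟨_, rfl⟩
  have hbd : ∀ N, ξ (ρ (g N) (p N)) ≤ B := by
    intro N
    refine (hmin N 1).trans ?_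
    rw [hexp, hB]
    have h1 : ∀ x, ρ (1 : Γ) x = x := fun x => by rw [map_one]; rfl
    simp only [h1]
    have h2 : 0 ≤ ξ x0 := by
      have := hx00 1
      rwa [h1] at this
    have h3 := mul_le_mul_of_nonneg_right (hN2 N) h2
    linarith
  have hbdj : ∀ N j, ξ (ρ (g N) (D j)) ≤ B / a j := by
    intro N j
    rw [le_div_iff₀ (ha j)]
    have h1 := hbd N
    rw [hexp] at h1
    have h2 : a j * ξ (ρ (g N) (D j)) ≤ ∑ j, a j * ξ (ρ (g N) (D j)) :=
      Finset.single_le_sum (f := fun j => a j * ξ (ρ (g N) (D j)))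
        (fun j _ => mul_nonneg (ha j).le (hD0 _ j)) (Finset.mem_univ j)
    have h3 := mul_nonneg (hN0 N).le (hx00 (g N))
    linarith
  -- the first choice
  have hF1 : ∀ j, Finite {x | x ∈ Λ ∧ x ∈ E ∧ ξ x ≤ B / a j} := fun j => (hfin _).to_subtype
  let f1 : ℕ → S × (∀ j, {x | x ∈ Λ ∧ x ∈ E ∧ ξ x ≤ B / a j}) := fun N =>
    (⟨s N, hsS N⟩, fun j => ⟨ρ (g N) (D j), hC.stabΛ _ _ (hD j), hEρ _ _ (hDE j), hbdj N j⟩)
  obtain ⟨c1, hc1⟩ := Finite.exists_infinite_fiber f1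
  obtain ⟨m0⟩ := hc1.nonempty
  have hsame : ∀ N : f1 ⁻¹' {c1}, s N = s m0 ∧ ∀ j, ρ (g N) (D j) = ρ (g m0) (D j) := by
    intro N
    have h1 : f1 N = f1 m0 := by
      have h2 : f1 N = c1 := N.2
      have h3 : f1 m0 = c1 := m0.2
      rw [h2, h3]
    refine ⟨?_, fun j => ?_⟩
    · exact congrArg (fun q => ((q.1 : S) : Γ)) h1
    · exact congrArg (fun q => ((q.2 j : {x | x ∈ Λ ∧ x ∈ E ∧ ξ x ≤ B / a j}) : V)) h1
  have hx0b : ∀ N : f1 ⁻¹' {c1}, ξ (ρ (g N) x0) ≤ ξ (ρ (g m0) x0) := by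
    intro N
    have h1 := hmin N (g m0)
    rw [hexp, hexp] at h1
    simp only [(hsame N).2] at h1
    exact le_of_mul_le_mul_left (by linarith) (hN0 N)
  -- the second choice
  have hF2 : Finite {x | x ∈ Λ ∧ x ∈ E ∧ ξ x ≤ ξ (ρ (g m0) x0)} := (hfin _).to_subtype
  let f2 : f1 ⁻¹' {c1} → {x | x ∈ Λ ∧ x ∈ E ∧ ξ x ≤ ξ (ρ (g m0) x0)} := fun N =>
    ⟨ρ (g N) x0, hC.stabΛ _ _ hx0, hEρ _ _ hx0E, hx0b N⟩
  obtain ⟨c2, hc2⟩ := Finite.exists_infinite_fiber f2
  obtain ⟨m1⟩ := hc2.nonempty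
  have hsame2 : ∀ N : f2 ⁻¹' {c2}, ρ (g (N : f1 ⁻¹' {c1})) x0 = ρ (g (m1 : f1 ⁻¹' {c1})) x0 := by
    intro N
    have h1 : f2 N = f2 m1 := by
      have h2 : f2 N = c2 := N.2
      have h3 : f2 m1 = c2 := m1.2
      rw [h2, h3]
    exact congrArg Subtype.val h1
  have hlim : ∑ j, a j • ρ (g m0) (D j) ∈ cn (fun i => ρ (s m0) (t i)) := by
    refine cn_closed _ (v := ρ (g (m1 : f1 ⁻¹' {c1})) x0) fun δ hδ => ?_
    obtain ⟨N, hN⟩ : ∃ N : f2 ⁻¹' {c2}, e (N : f1 ⁻¹' {c1}) < δ := by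
      obtain ⟨N0, hN0'⟩ := exists_nat_gt (1 / δ)
      by_contra hcon
      push Not at hcon
      have hle : ∀ N : f2 ⁻¹' {c2}, ((N : f1 ⁻¹' {c1}) : ℕ) ∈ Set.Iic N0 := by
        intro N
        rw [Set.mem_Iic]
        by_contra h1
        push Not at h1
        have h2 := hcon N
        have h3 : (N0 : ℝ) < ((N : f1 ⁻¹' {c1}) : ℕ) := by exact_mod_cast h1
        have h4 : 1 / δ < ((((N : f1 ⁻¹' {c1}) : ℕ) : ℝ)) + 1 := by linarith
        have h5 : 1 / (((((N : f1 ⁻¹' {c1}) : ℕ) : ℝ)) + 1) < δ := by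
          rw [div_lt_iff₀ (by positivity)]
          rw [div_lt_iff₀ hδ] at h4
          linarith
        have h6 := hN1 ((N : f1 ⁻¹' {c1}) : ℕ)
        linarith
      have h6 : Finite (f2 ⁻¹' {c2}) := by
        refine Finite.of_injective (fun N : f2 ⁻¹' {c2} => (⟨_, hle N⟩ : Set.Iic N0)) ?_
        intro x y h
        exact Subtype.ext (Subtype.ext (Subtype.mk.inj h))
      exact not_finite_iff_infinite.2 hc2 h6
    refine ⟨_, hN0 _, hN, ?_⟩
    have h1 := hgp ((N : f1 ⁻¹' {c1}) : ℕ)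
    have h2 : ρ (g ((N : f1 ⁻¹' {c1}) : ℕ)) (p ((N : f1 ⁻¹' {c1}) : ℕ)) =
        ∑ j, a j • ρ (g m0) (D j) +
          e (N : f1 ⁻¹' {c1}) • ρ (g (m1 : f1 ⁻¹' {c1})) x0 := by
      rw [hpdef]
      simp only [map_add, map_sum, map_smul]
      rw [hsame2 N]
      simp only [(hsame (N : f1 ⁻¹' {c1})).2]
    rw [← h2, h1, (hsame (N : f1 ⁻¹' {c1})).1, ← cn_map]
    exact ⟨_, hy _, rfl⟩
  rw [← cn_map] at hlim
  obtain ⟨q, hq, hq'⟩ := hlim
  refine ⟨(g m0)⁻¹ * s m0, q, hq, ?_⟩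
  rw [rho_mul, hq']
  simp only [map_sum, map_smul, rho_inv]

end

section

variable {k K : Type} [Field k] [Field K] [Algebra k K] {P : Set (Place k K)}

/-- The closure of the effective cone contains no line. -/
theorem salientE {H : P →₀ ℤ} (hH : ∀ D : P →₀ ℤ, ∃ m : ℕ, 1 ≤ m ∧ Movable P (m • H + D))
    (x : N1 P) (h1 : ∀ ε : ℝ, 0 < ε → x + ε • cls P (rl P H) ∈ Eff P)
    (h2 : ∀ ε : ℝ, 0 < ε → -x + ε • cls P (rl P H) ∈ Eff P) : x = 0 := by
  obtain ⟨D, rfl⟩ := cls_surj x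
  have key : ∀ D : P →₀ ℝ, (∀ ε : ℝ, 0 < ε → cls P D + ε • cls P (rl P H) ∈ Eff P) →
      D ∈ clo (effC P) := by
    intro D hD
    refine ⟨(2 : ℝ) • rl P H, fun ε hε => ?_⟩
    obtain ⟨E, hE, hE'⟩ := hD ε hε
    have h3 : E - (D + ε • rl P H) ∈ numTriv P := by
      rw [← cls_eq, hE', map_add, map_smul]
    have h4 := clo_of_unit hH h3.2 hε
    have h5 : D + ε • (2 : ℝ) • rl P H =
        E + (-(E - (D + ε • rl P H)) + ε • rl P H) := by
      rw [two_smul, smul_add]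
      abel
    rw [h5]
    exact (cg_cone _).add _ hE _ h4
  have h3 : D ∈ numTriv P := by
    refine ⟨key D h1, key (-D) fun ε hε => ?_⟩
    rw [map_neg]
    exact h2 ε hε
  exact cls_eq_zero.2 h3

/-- The data for the convex geometry, with a linear form which is positive on the effective cone. -/
theorem exists_datE (hample : HasAmple P) (hbase : HasBase P) :
    ∃ (n : ℕ) (b : Basis (Fin n) ℝ (N1 P))
    (ξ : N1 P →ₗ[ℝ] ℝ), (∀ i, b i ∈ lat P) ∧ (∀ x ∈ lat P, ∀ i, ∃ z : ℤ, b.repr x i = z) ∧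
    (∀ x ∈ Eff P, ∀ i, |b.repr x i| ≤ ξ x) ∧ (∀ x ∈ Eff P, 0 ≤ ξ x) ∧
    Dat (lat P) (MovE P) (rho P) ξ := by
  classical
  obtain ⟨H, hH⟩ := hample
  obtain ⟨n, b, hb, hbz⟩ := hbase
  have hinnE : cls P (rl P H) ∈ inn (Eff P) := fun v => by
    obtain ⟨ε, hε, h⟩ := ample_inn hH v
    exact ⟨ε, hε, h.2⟩
  obtain ⟨z, hz⟩ := exists_xi b Eff_cone hinnE (salientE hH)
  obtain ⟨ξ, hξ⟩ : ∃ ξ : N1 P →ₗ[ℝ] ℝ, ∀ x, ξ x = ∑ j, (z j : ℝ) * b.repr x j := by
    refine ⟨∑ j, (z j : ℝ) • b.coord j, fun x => ?_⟩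
    rw [LinearMap.sum_apply]
    exact Finset.sum_congr rfl fun j _ => by
      rw [LinearMap.smul_apply, Basis.coord_apply, smul_eq_mul]
  have hξE : ∀ x ∈ Eff P, ∀ i, |b.repr x i| ≤ ξ x := fun x hx i => by
    rw [hξ]; exact hz x hx i
  have hξ1 : ∀ x ∈ MovE P, ∀ i, |b.repr x i| ≤ ξ x := fun x hx => hξE x hx.2
  have hξ0 : ∀ x ∈ Eff P, 0 ≤ ξ x := by
    intro x hx
    by_cases hn : n = 0
    · subst hn
      rw [hξ]; simp
    · exact (abs_nonneg _).trans (hξE x hx ⟨0, Nat.pos_of_ne_zero hn⟩)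
  refine ⟨n, b, ξ, hb, hbz, hξE, hξ0, ?_⟩
  have hint : ∀ x ∈ lat P, ∃ m : ℤ, ξ x = m := by
    intro x hx
    choose w hw using hbz x hx
    refine ⟨∑ j, z j * w j, ?_⟩
    rw [hξ]
    push_cast
    exact Finset.sum_congr rfl fun j _ => by rw [hw]
  refine ⟨MovE_cone, fun g x => rho_lat g, fun g x => rho_MovE g, hint,
    fun x hx => hξ0 x hx.2, ?_, ?_⟩
  · -- the stabilizer
    choose D hD using hb
    choose m hm hM using fun i => hH (D i)
    obtain ⟨m0, hm0, hM0⟩ := hH 0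
    rw [add_zero] at hM0
    let u : Fin (n + 1) → N1 P := Fin.cons (cls P (rl P (m0 • H)))
      fun i => cls P (rl P (m i • H + D i))
    refine fin_stab (u := u) (fin_deg b hbz hξ1) (fun g x => rho_lat g) (fun g x => rho_MovE g)
      ?_ ?_ ?_
    · intro i
      refine Fin.cases ?_ (fun j => ?_) i
      · exact cls_rl_mem _
      · exact cls_rl_mem _
    · intro i
      refine Fin.cases ?_ (fun j => ?_) i
      · exact Mov_sub_MovE ⟨_, cg_gen ⟨_, hM0, rfl⟩, rfl⟩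
      · exact Mov_sub_MovE ⟨_, cg_gen ⟨_, hM j, rfl⟩, rfl⟩
    · intro x
      have h1 : ∀ i, b i ∈ Submodule.span ℝ (Set.range u) := by
        intro i
        have h2 : b i = u i.succ - ((m i : ℝ) / m0) • u 0 := by
          have hm0' : (m0 : ℝ) ≠ 0 := by
            have : 0 < m0 := hm0
            exact_mod_cast this.ne'
          have h3 : b i = cls P (rl P (D i)) := (hD i).symm
          change b i = cls P (rl P (m i • H + D i)) - ((m i : ℝ) / m0) • cls P (rl P (m0 • H))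
          rw [h3, map_add, map_add, rl_nsmul, rl_nsmul, (cls P).map_smul, (cls P).map_smul,
            smul_smul, div_mul_cancel₀ _ hm0']
          abel
        rw [h2]
        exact Submodule.sub_mem _ (Submodule.subset_span ⟨_, rfl⟩)
          (Submodule.smul_mem _ _ (Submodule.subset_span ⟨_, rfl⟩))
      rw [← b.sum_repr x]
      exact Submodule.sum_mem _ fun i _ => Submodule.smul_mem _ _ (h1 i)
  · intro x hx
    refine b.ext_elem fun i => ?_
    rw [map_zero, Finsupp.zero_apply]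
    exact hx (b.coord i) fun y hy => hbz y hy i

/-- The data for the closure of the movable cone. -/
theorem dat_clo {ξ : N1 P →ₗ[ℝ] ℝ} (h : Dat (lat P) (MovE P) (rho P) ξ) :
    Dat (lat P) (clo (Mov P)) (rho P) ξ where
  cone := clo_cone Mov_cone
  stabΛ := h.stabΛ
  stabC := fun g x hx => clo_map (rho P g) (fun _ => rho_Mov g) hx
  int := h.int
  nonneg := by
    rintro x ⟨b, hb⟩
    by_contra hx
    push Not at hx
    have h1 : ∀ ε : ℝ, 0 < ε → 0 ≤ ξ x + ε * ξ b := fun ε hε => by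
      have := h.nonneg _ (Mov_sub_MovE (hb ε hε))
      rwa [map_add, map_smul, smul_eq_mul] at this
    have h2 := h1 (-ξ x / (2 * (1 + |ξ b|))) (div_pos (by linarith) (by positivity))
    have h3 : -ξ x / (2 * (1 + |ξ b|)) * ξ b ≤ -ξ x / 2 := by
      have h4 : -ξ x / (2 * (1 + |ξ b|)) * ξ b ≤ -ξ x / (2 * (1 + |ξ b|)) * (1 + |ξ b|) :=
        mul_le_mul_of_nonneg_left (by linarith [le_abs_self (ξ b)])
          (div_nonneg (by linarith) (by positivity))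
      have h5 : -ξ x / (2 * (1 + |ξ b|)) * (1 + |ξ b|) = -ξ x / 2 := by
        have : (1 + |ξ b|) ≠ 0 := by positivity
        field_simp
      linarith
    linarith
  stab := h.stab
  sep := h.sep

/-- The translates of rational polyhedral cones which cover the interior cover everything. -/
theorem cover_of_inn (hample : HasAmple P) (hbase : HasBase P) {κ : Type} [Finite κ]
    {Q : κ → Set (N1 P)} (hQ : ∀ i, RP (lat P) (Q i)) (hQM : ∀ i, Q i ⊆ clo (Mov P))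
    (hcov : ∀ x ∈ inn (MovE P), ∃ γ i, ∃ y ∈ Q i, x = rho P γ y) :
    ∀ x ∈ MovE P, ∃ γ i, ∃ y ∈ Q i, x = rho P γ y := by
  classical
  obtain ⟨n, b, ξ, hb, hbz, hξE, hξ0, hdat⟩ := exists_datE hample hbase
  obtain ⟨H, hH⟩ := hample
  intro x hx
  obtain ⟨w, ⟨l, u, hu, a, ha, hw⟩, hwx⟩ := id hx.2
  let J := {i : Fin l // 0 < a i}
  choose D hD hDr using hu
  have hsum : x = ∑ j : J, a j • cls P (rl P (D j)) := by
    rw [← hwx, hw, map_sum]
    simp only [map_smul]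
    have h1 : ∑ i, a i • cls P (u i) =
        ∑ i ∈ Finset.univ.filter (fun i => 0 < a i), a i • cls P (u i) := by
      rw [Finset.sum_filter_of_ne]
      intro i _ hi
      refine lt_of_le_of_ne (ha i) fun h0 => hi ?_
      rw [← h0, zero_smul]
    rw [h1, Finset.sum_subtype (Finset.univ.filter fun i => 0 < a i) (p := fun i => 0 < a i)
      (fun i => by simp)]
    exact Finset.sum_congr rfl fun j _ => by rw [hDr]
  have hDE : ∀ i, cls P (rl P (D i)) ∈ Eff P := fun i => ⟨_, cg_gen ⟨D i, hD i, rfl⟩, rfl⟩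
  have hHi := ample_inn hH
  choose γ i y hy hxy using fun N : ℕ => hcov (x + (1 / ((N : ℝ) + 1)) • cls P (rl P H)) (by
    rw [add_comm]
    exact inn_add MovE_cone (inn_smul MovE_cone hHi (by positivity)) hx)
  obtain ⟨c, hc⟩ := Finite.exists_infinite_fiber i
  obtain ⟨nQ, t, ht, hQt⟩ := hQ c
  obtain ⟨g, q, hq, h⟩ := bigcov (J := J) (dat_clo hdat) (fun γ x => rho_Eff γ) hξ0 (fin_deg b hbz hξE) ht
    (fun l => hQM c (by rw [hQt]; exact gen_mem t l)) (D := fun j => cls P (rl P (D j)))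
    (fun j => cls_rl_mem _)
    (fun j => hDE _) (a := fun j => a j) (fun j => j.2) (cls_rl_mem H) (inn_sub hHi).2 (by
      intro δ hδ
      obtain ⟨N, hN⟩ : ∃ N : i ⁻¹' {c}, 1 / (((N : ℕ) : ℝ) + 1) < δ := by
        obtain ⟨N0, hN0'⟩ := exists_nat_gt (1 / δ)
        by_contra hcon
        push Not at hcon
        have hle : ∀ N : i ⁻¹' {c}, (N : ℕ) ∈ Set.Iic N0 := by
          intro N
          rw [Set.mem_Iic]
          by_contra h1
          push Not at h1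
          have h2 := hcon N
          have h3 : (N0 : ℝ) < (N : ℕ) := by exact_mod_cast h1
          have h4 : 1 / δ < ((N : ℕ) : ℝ) + 1 := by linarith
          have h5 : 1 / (((N : ℕ) : ℝ) + 1) < δ := by
            rw [div_lt_iff₀ (by positivity)]
            rw [div_lt_iff₀ hδ] at h4
            linarith
          linarith
        have h6 : Finite (i ⁻¹' {c}) := by
          refine Finite.of_injective (fun N : i ⁻¹' {c} => (⟨_, hle N⟩ : Set.Iic N0)) ?_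
          intro x y h
          exact Subtype.ext (Subtype.mk.inj h)
        exact not_finite_iff_infinite.2 hc h6
      refine ⟨_, by positivity, hN, γ N, y N, ?_, ?_⟩
      · have h1 := hy N
        have h2 : i N = c := N.2
        rw [h2, hQt] at h1
        exact h1
      · rw [← hsum]
        exact hxy N)
  exact ⟨g, c, q, by rw [hQt]; exact hq, by rw [hsum]; exact h⟩

/-- **Big movable classes suffice.** -/
theorem big_main (hample : HasAmple P) (hbase : HasBase P) {κ : Type} [Finite κ]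
    {Q : κ → Set (N1 P)} (hQ : ∀ i, RP (lat P) (Q i)) (hQM : ∀ i, Q i ⊆ clo (Mov P))
    (hcov : ∀ x ∈ inn (MovE P), ∃ (g : psAut P) (i : κ), x ∈ act g '' Q i) :
    (∀ x ∈ MovE P, ∃ (g : psAut P) (i : κ), x ∈ act g '' Q i) ∧
      ((∀ i, Q i ⊆ Eff P) → MovableConeConjecture P) := by
  have hall := cover_of_inn hample hbase hQ hQM fun x hx => by
    obtain ⟨g, i, y, hy, rfl⟩ := hcov x hx
    exact ⟨g, i, y, hy, rfl⟩
  refine ⟨fun x hx => ?_, fun hQE => ?_⟩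
  · obtain ⟨g, i, y, hy, rfl⟩ := hall x hx
    exact ⟨g, i, y, hy, rfl⟩
  · obtain ⟨Q1, hQ1, hQs, hQm⟩ := sum_RP Q hQ
    have hQ1M : Q1 ⊆ MovE P := hQm _ MovE_cone fun i x hx => ⟨hQM i hx, hQE i hx⟩
    obtain ⟨n, b, ξ, hb, hbz, hξE, hξ0, hdat⟩ := exists_datE hample hbase
    obtain ⟨Q', h1, h2, h3⟩ := hdat.fund hQ1 hQ1M fun x hx => by
      obtain ⟨g, i, y, hy, h⟩ := hall x hx
      exact ⟨g, y, hQs i hy, h⟩
    exact ⟨Q', h1, h2, h3⟩

end

end Pool.Agent.K1H17.MC
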