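import Mathlib
import Pool.Agent.H575R2.Farkas

/-! Rational polyhedral cones. -/

set_option autoImplicit false
set_option linter.overlappingInstances false
set_option linter.unusedSectionVars false
set_option linter.unusedVariables false

namespace Pool.Agent.K1H17.MC

section

variable {V : Type*} [AddCommGroup V] [Module ℝ V]

/-- The cone generated by the vectors `t i`. -/
def cn {ι : Type*} [Fintype ι] (t : ι → V) : Set V :=
  {x | ∃ a : ι → ℝ, (∀ i, 0 ≤ a i) ∧ x = ∑ i, a i • t i}

/-- Cones generated by finitely many elements of the subgroup `Λ`. -/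
def RP (Λ : AddSubgroup V) (C : Set V) : Prop :=
  ∃ (n : ℕ) (t : Fin n → V), (∀ i, t i ∈ Λ) ∧ C = cn t

/-- A convex cone. -/
structure IsCone (C : Set V) : Prop where
  zero : 0 ∈ C
  add : ∀ x ∈ C, ∀ y ∈ C, x + y ∈ C
  smul : ∀ c : ℝ, 0 ≤ c → ∀ x ∈ C, c • x ∈ C

theorem IsCone.sum {C : Set V} (h : IsCone C) {ι : Type*} (s : Finset ι) (f : ι → V)
    (hf : ∀ i ∈ s, f i ∈ C) : ∑ i ∈ s, f i ∈ C := by
  classical
  induction s using Finset.induction_on with
  | empty => simpa using h.zero
  | insert a s ha ih =>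
    rw [Finset.sum_insert ha]
    exact h.add _ (hf a (Finset.mem_insert_self _ _)) _
      (ih fun i hi => hf i (Finset.mem_insert_of_mem hi))

theorem cn_cone {ι : Type*} [Fintype ι] (t : ι → V) : IsCone (cn t) where
  zero := ⟨fun _ => 0, fun _ => le_rfl, by simp⟩
  add := by
    rintro _ ⟨a, ha, rfl⟩ _ ⟨b, hb, rfl⟩
    exact ⟨fun i => a i + b i, fun i => add_nonneg (ha i) (hb i), by
      simp only [add_smul, Finset.sum_add_distrib]⟩
  smul := by
    rintro c hc _ ⟨a, ha, rfl⟩
    exact ⟨fun i => c * a i, fun i => mul_nonneg hc (ha i), by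
      simp only [Finset.smul_sum, smul_smul]⟩

theorem gen_mem {ι : Type*} [Fintype ι] (t : ι → V) (i : ι) : t i ∈ cn t := by
  classical
  refine ⟨Pi.single i 1, fun j => ?_, ?_⟩
  · by_cases h : j = i
    · subst h; simp
    · simp [h]
  · rw [Finset.sum_eq_single i]
    · simp
    · intro j _ hj
      simp [hj]
    · intro h; exact absurd (Finset.mem_univ _) h

theorem cn_sub {ι : Type*} [Fintype ι] {t : ι → V} {C : Set V} (hC : IsCone C)
    (h : ∀ i, t i ∈ C) : cn t ⊆ C := by
  rintro _ ⟨a, ha, rfl⟩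
  exact hC.sum _ _ fun i _ => hC.smul _ (ha i) _ (h i)

theorem cn_equiv {ι κ : Type*} [Fintype ι] [Fintype κ] (t : ι → V) (e : κ ≃ ι) :
    cn (t ∘ e) = cn t := by
  refine Set.Subset.antisymm (cn_sub (cn_cone t) fun i => gen_mem t _)
    (cn_sub (cn_cone _) fun i => ?_)
  have := gen_mem (t ∘ e) (e.symm i)
  rwa [Function.comp_apply, e.apply_symm_apply] at this

theorem RP.of_fintype {Λ : AddSubgroup V} {ι : Type*} [Fintype ι] (t : ι → V) (h : ∀ i, t i ∈ Λ) :
    RP Λ (cn t) :=
  ⟨Fintype.card ι, t ∘ (Fintype.equivFin ι).symm, fun i => h _, (cn_equiv t _).symm⟩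

theorem RP.cone {Λ : AddSubgroup V} {C : Set V} (h : RP Λ C) : IsCone C := by
  obtain ⟨n, t, -, rfl⟩ := h
  exact cn_cone t

/-- The image of a cone under a linear map. -/
theorem cn_map {W : Type*} [AddCommGroup W] [Module ℝ W] (f : V →ₗ[ℝ] W) {ι : Type*} [Fintype ι]
    (t : ι → V) : f '' cn t = cn (fun i => f (t i)) := by
  ext y
  constructor
  · rintro ⟨_, ⟨a, ha, rfl⟩, rfl⟩
    exact ⟨a, ha, by simp only [map_sum, map_smul]⟩
  · rintro ⟨a, ha, rfl⟩
    exact ⟨∑ i, a i • t i, ⟨a, ha, rfl⟩, by simp only [map_sum, map_smul]⟩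

/-- The sum of finitely many cones. -/
theorem sum_RP {Λ : AddSubgroup V} {κ : Type*} [Finite κ] (C : κ → Set V) (h : ∀ i, RP Λ (C i)) :
    ∃ D : Set V, RP Λ D ∧ (∀ i, C i ⊆ D) ∧ ∀ E : Set V, IsCone E → (∀ i, C i ⊆ E) → D ⊆ E := by
  classical
  have := Fintype.ofFinite κ
  choose n t ht hC using h
  refine ⟨cn (fun p : Σ i, Fin (n i) => t p.1 p.2), RP.of_fintype _ fun p => ht _ _,
    fun i => ?_, fun E hE hCE => cn_sub hE fun p => hCE p.1 ?_⟩
  · rw [hC i]
    exact cn_sub (cn_cone _) fun j => gen_mem (fun p : Σ i, Fin (n i) => t p.1 p.2) ⟨i, j⟩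
  · rw [hC p.1]
    exact gen_mem _ _

theorem sum_split {M : Type*} [AddCommGroup M] {n : ℕ} (m : Fin n → ℤ) (f : Fin n → M) :
    ∑ i, f i = ∑ i ∈ Finset.univ.filter (fun i => m i = 0), f i +
      (∑ i ∈ Finset.univ.filter (fun i => 0 < m i), f i +
        ∑ i ∈ Finset.univ.filter (fun i => m i < 0), f i) := by
  classical
  rw [← Finset.sum_filter_add_sum_filter_not Finset.univ (fun i => m i = 0) f]
  congr 1
  rw [← Finset.sum_filter_add_sum_filter_not (Finset.univ.filter fun i => ¬ m i = 0)
    (fun i => 0 < m i) f, Finset.filter_filter, Finset.filter_filter]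
  congr 1
  · refine Finset.sum_congr ?_ fun _ _ => rfl
    ext i
    simp only [Finset.mem_filter, Finset.mem_univ, true_and]
    constructor
    · rintro ⟨h1, h2⟩; exact h2
    · intro h2; exact ⟨by omega, h2⟩
  · refine Finset.sum_congr ?_ fun _ _ => rfl
    ext i
    simp only [Finset.mem_filter, Finset.mem_univ, true_and]
    constructor
    · rintro ⟨h1, h2⟩; omega
    · intro h2; exact ⟨by omega, by omega⟩

/-- **Cutting with a rational half-space.** -/
theorem RP.cut {Λ : AddSubgroup V} {C : Set V} (h : RP Λ C) (ℓ : V →ₗ[ℝ] ℝ)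
    (hℓ : ∀ x ∈ Λ, ∃ m : ℤ, ℓ x = m) : RP Λ (C ∩ {x | 0 ≤ ℓ x}) := by
  classical
  obtain ⟨n, t, ht, rfl⟩ := h
  choose m hm using fun i => hℓ (t i) (ht i)
  let T : Fin n ⊕ (Fin n × Fin n) → V := Sum.elim (fun i => if 0 ≤ m i then t i else 0)
    (fun p => if 0 < m p.1 ∧ m p.2 < 0 then m p.1 • t p.2 - m p.2 • t p.1 else 0)
  have hT : ∀ i, T i ∈ Λ := by
    rintro (i | p)
    · change (if 0 ≤ m i then t i else 0) ∈ Λ
      split_ifs
      · exact ht i
      · exact zero_mem _
    · change (if 0 < m p.1 ∧ m p.2 < 0 then m p.1 • t p.2 - m p.2 • t p.1 else 0) ∈ Λ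
      split_ifs
      · exact sub_mem (Λ.zsmul_mem (ht _) _) (Λ.zsmul_mem (ht _) _)
      · exact zero_mem _
  have hz : ∀ (c : ℤ) (x : V), c • x = (c : ℝ) • x := fun c x => (Int.cast_smul_eq_zsmul ℝ c x).symm
  have key : cn t ∩ {x | 0 ≤ ℓ x} = cn T := by
    refine Set.Subset.antisymm ?_ ?_
    · rintro x ⟨⟨a, ha, rfl⟩, hx⟩
      simp only [Set.mem_ofPred_eq, map_sum, map_smul, smul_eq_mul, hm] at hx
      have hTc := cn_cone T
      set pos := Finset.univ.filter fun i => 0 < m i with hpos
      set neg := Finset.univ.filter fun i => m i < 0 with hneg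
      set p : ℝ := ∑ i ∈ pos, a i * m i with hp
      set q : ℝ := ∑ i ∈ neg, a i * (-m i) with hq
      have hq0 : 0 ≤ q := Finset.sum_nonneg fun i hi => by
        rw [hneg, Finset.mem_filter] at hi
        have : (m i : ℝ) < 0 := by exact_mod_cast hi.2
        exact mul_nonneg (ha i) (by linarith)
      have hp0 : 0 ≤ p := Finset.sum_nonneg fun i hi => by
        rw [hpos, Finset.mem_filter] at hi
        have : (0 : ℝ) < m i := by exact_mod_cast hi.2
        exact mul_nonneg (ha i) this.le
      have hpq : q ≤ p := by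
        have h1 := sum_split m (fun i => a i * (m i : ℝ))
        rw [← hpos, ← hneg] at h1
        rw [h1] at hx
        have h2 : ∑ i ∈ Finset.univ.filter (fun i => m i = 0), a i * (m i : ℝ) = 0 :=
          Finset.sum_eq_zero fun i hi => by
            rw [(Finset.mem_filter.1 hi).2]; simp
        have h3 : ∑ i ∈ neg, a i * (m i : ℝ) = -q := by
          rw [hq, ← Finset.sum_neg_distrib]
          exact Finset.sum_congr rfl fun i _ => by ring
        rw [h2, h3] at hx
        linarith
      have hTl : ∀ i, 0 ≤ m i → t i ∈ cn T := fun i hi => by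
        have h1 := gen_mem T (Sum.inl i)
        have h2 : T (Sum.inl i) = t i := if_pos hi
        rwa [h2] at h1
      have hTr : ∀ i j, 0 < m i → m j < 0 → m i • t j - m j • t i ∈ cn T := fun i j hi hj => by
        have h1 := gen_mem T (Sum.inr (i, j))
        have h2 : T (Sum.inr (i, j)) = m i • t j - m j • t i := if_pos ⟨hi, hj⟩
        rwa [h2] at h1
      rw [sum_split m (fun i => a i • t i), ← hpos, ← hneg]
      refine hTc.add _ (hTc.sum _ _ fun i hi => hTc.smul _ (ha i) _
        (hTl i (by rw [(Finset.mem_filter.1 hi).2]))) _ ?_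
      rcases hp0.eq_or_lt with hp00 | hp00
      · -- no negative part
        have hq00 : q = 0 := le_antisymm (hpq.trans hp00.symm.le) hq0
        have h1 : ∀ i ∈ neg, a i = 0 := by
          intro i hi
          have h2 := (Finset.sum_eq_zero_iff_of_nonneg (fun i hi => by
            rw [hneg, Finset.mem_filter] at hi
            have : (m i : ℝ) < 0 := by exact_mod_cast hi.2
            exact mul_nonneg (ha i) (by linarith))).1 hq00 i hi
          rw [hneg, Finset.mem_filter] at hi
          have : (m i : ℝ) < 0 := by exact_mod_cast hi.2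
          rcases mul_eq_zero.1 h2 with h3 | h3
          · exact h3
          · linarith
        rw [Finset.sum_eq_zero (s := neg) fun i hi => by rw [h1 i hi, zero_smul], add_zero]
        exact hTc.sum _ _ fun i hi => hTc.smul _ (ha i) _ (hTl i (by
          rw [hpos, Finset.mem_filter] at hi
          exact hi.2.le))
      · have hident : ∑ i ∈ pos, a i • t i + ∑ j ∈ neg, a j • t j =
            (1 - q / p) • ∑ i ∈ pos, a i • t i +
              ∑ i ∈ pos, ∑ j ∈ neg, (a i * a j / p) • (m i • t j - m j • t i) := by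
          have h1 : ∑ i ∈ pos, ∑ j ∈ neg, (a i * a j / p) • (m i • t j - m j • t i) =
              ∑ j ∈ neg, a j • t j + (q / p) • ∑ i ∈ pos, a i • t i := by
            have h2 : ∀ i j, (a i * a j / p) • (m i • t j - m j • t i) =
                (a i * m i / p) • (a j • t j) + (a j * (-m j) / p) • (a i • t i) := by
              intro i j
              rw [hz, hz, smul_sub, smul_smul, smul_smul, smul_smul, smul_smul, sub_eq_add_neg,
                ← neg_smul]
              congr 2 <;> ring
            simp only [h2, Finset.sum_add_distrib]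
            congr 1
            · rw [Finset.sum_comm]
              refine Finset.sum_congr rfl fun j _ => ?_
              rw [← Finset.sum_smul, ← Finset.sum_div, ← hp, div_self hp00.ne', one_smul]
            · rw [Finset.smul_sum]
              refine Finset.sum_congr rfl fun i _ => ?_
              rw [← Finset.sum_smul, ← Finset.sum_div, ← hq]
          rw [h1, sub_smul, one_smul]
          abel
        rw [hident]
        refine hTc.add _ (hTc.smul _ ?_ _ (hTc.sum _ _ fun i hi => hTc.smul _ (ha i) _ (hTl i (by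
          rw [hpos, Finset.mem_filter] at hi
          exact hi.2.le)))) _ (hTc.sum _ _ fun i hi => hTc.sum _ _ fun j hj => hTc.smul _
            (div_nonneg (mul_nonneg (ha i) (ha j)) hp00.le) _ (hTr i j ?_ ?_))
        · rw [sub_nonneg, div_le_one hp00]
          exact hpq
        · rw [hpos, Finset.mem_filter] at hi
          exact hi.2
        · rw [hneg, Finset.mem_filter] at hj
          exact hj.2
    · have hc : IsCone (cn t ∩ {x | 0 ≤ ℓ x}) := by
        refine ⟨⟨(cn_cone t).zero, by simp⟩, ?_, ?_⟩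
        · rintro x ⟨hx, hx'⟩ y ⟨hy, hy'⟩
          refine ⟨(cn_cone t).add _ hx _ hy, ?_⟩
          rw [Set.mem_ofPred_eq] at *
          rw [map_add]
          exact add_nonneg hx' hy'
        · rintro c hc x ⟨hx, hx'⟩
          refine ⟨(cn_cone t).smul _ hc _ hx, ?_⟩
          rw [Set.mem_ofPred_eq] at *
          rw [map_smul]
          exact mul_nonneg hc hx'
      refine cn_sub hc ?_
      rintro (i | p)
      · change (if 0 ≤ m i then t i else 0) ∈ _
        split_ifs with h1
        · refine ⟨gen_mem t i, ?_⟩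
          rw [Set.mem_ofPred_eq, hm]
          exact_mod_cast h1
        · exact hc.zero
      · change (if 0 < m p.1 ∧ m p.2 < 0 then m p.1 • t p.2 - m p.2 • t p.1 else 0) ∈ _
        split_ifs with h1
        · have h2 : (0 : ℝ) < m p.1 := by exact_mod_cast h1.1
          have h3 : (m p.2 : ℝ) < 0 := by exact_mod_cast h1.2
          refine ⟨?_, ?_⟩
          · rw [hz, hz, sub_eq_add_neg, ← neg_smul]
            exact (cn_cone t).add _ ((cn_cone t).smul _ h2.le _ (gen_mem t _)) _
              ((cn_cone t).smul _ (by linarith) _ (gen_mem t _))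
          · rw [Set.mem_ofPred_eq, map_sub, hz, hz, map_smul, map_smul, hm, hm, smul_eq_mul,
              smul_eq_mul]
            linarith [mul_comm (m p.1 : ℝ) (m p.2)]
        · exact hc.zero
  rw [key]
  exact RP.of_fintype T hT

theorem RP.cut_many {Λ : AddSubgroup V} {C : Set V} (h : RP Λ C) {κ : Type*} (s : Finset κ)
    (ℓ : κ → V →ₗ[ℝ] ℝ) (hℓ : ∀ i ∈ s, ∀ x ∈ Λ, ∃ m : ℤ, ℓ i x = m) :
    RP Λ {x | x ∈ C ∧ ∀ i ∈ s, 0 ≤ ℓ i x} := by
  classical
  induction s using Finset.induction_on with
  | empty =>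
    have : {x | x ∈ C ∧ ∀ i ∈ (∅ : Finset κ), 0 ≤ ℓ i x} = C := by ext x; simp
    rw [this]
    exact h
  | insert a s ha ih =>
    have h1 := (ih fun i hi => hℓ i (Finset.mem_insert_of_mem hi)).cut (ℓ a)
      (hℓ a (Finset.mem_insert_self _ _))
    have h2 : {x | x ∈ C ∧ ∀ i ∈ insert a s, 0 ≤ ℓ i x} =
        {x | x ∈ C ∧ ∀ i ∈ s, 0 ≤ ℓ i x} ∩ {x | 0 ≤ ℓ a x} := by
      ext x
      simp only [Set.mem_ofPred_eq, Set.mem_inter_iff, Finset.mem_insert, forall_eq_or_imp]
      tauto
    rw [h2]
    exact h1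

/-- Finitely generated cones are closed. -/
theorem cn_closed {n : ℕ} (t : Fin n → V) {x v : V} (h : ∀ δ > 0, ∃ ε : ℝ, 0 < ε ∧ ε < δ ∧
    x + ε • v ∈ cn t) : x ∈ cn t := by
  obtain ⟨w, hw, hf⟩ := H575R2.farkas_lin (U := Module.Dual ℝ V) n
    (fun i => Module.Dual.eval ℝ V (t i)) (Module.Dual.eval ℝ V x) (by
      intro φ hφ
      by_contra hcon
      push Not at hcon
      change 0 < φ x at hcon
      obtain ⟨ε, hε, hεδ, a, ha, hx⟩ := h (φ x / (1 + |φ v|)) (div_pos hcon (by positivity))
      have h1 : φ (x + ε • v) ≤ 0 := by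
        rw [hx, map_sum]
        refine Finset.sum_nonpos fun i _ => ?_
        rw [map_smul, smul_eq_mul]
        exact mul_nonpos_of_nonneg_of_nonpos (ha i) (hφ i)
      rw [map_add, map_smul, smul_eq_mul] at h1
      rw [lt_div_iff₀ (by positivity)] at hεδ
      have h2 : -|φ v| ≤ φ v := neg_abs_le _
      nlinarith)
  refine ⟨w, hw, ?_⟩
  rw [← sub_eq_zero, ← Module.forall_dual_apply_eq_zero_iff ℝ]
  intro φ
  have h1 := hf φ
  simp only [Module.Dual.eval_apply] at h1
  rw [map_sub, h1, map_sum, sub_eq_zero]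
  exact Finset.sum_congr rfl fun i _ => by rw [map_smul, smul_eq_mul]

end

end Pool.Agent.K1H17.MC
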