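import Pool.Agent.Helper386.D5V.Helper399_OverDefs
import Pool.Agent.K1H17.MC.FA
import Pool.Agent.K1H17.MC.Hm

/-! The movable cone of a projective variety, in terms of its function field. -/

set_option autoImplicit false
set_option linter.overlappingInstances false
set_option linter.unusedSectionVars false
set_option linter.unusedVariables false

open FF Module

namespace Pool.Agent.K1H17.MC

/-- The cone generated by a set: the linear combinations of finitely many elements of the set with
nonnegative real coefficients. -/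
def cg {V : Type*} [AddCommGroup V] [Module ℝ V] (S : Set V) : Set V :=
  {x | ∃ (n : ℕ) (t : Fin n → V), (∀ i, t i ∈ S) ∧ x ∈ cn t}

/-- The closure of a convex cone. -/
def clo {V : Type*} [AddCommGroup V] [Module ℝ V] (C : Set V) : Set V :=
  {x | ∃ b : V, ∀ ε : ℝ, 0 < ε → x + ε • b ∈ C}

section

variable {V : Type*} [AddCommGroup V] [Module ℝ V]

theorem cg_cone (S : Set V) : IsCone (cg S) where
  zero := ⟨0, fun i => i.elim0, fun i => i.elim0, (cn_cone _).zero⟩
  add := by
    rintro x ⟨n, t, ht, a, ha, rfl⟩ y ⟨m, u, hu, b, hb, rfl⟩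
    refine ⟨n + m, Fin.append t u, fun i => ?_, Fin.append a b, fun i => ?_, ?_⟩
    · refine Fin.addCases (fun j => ?_) (fun j => ?_) i
      · rw [Fin.append_left]; exact ht j
      · rw [Fin.append_right]; exact hu j
    · refine Fin.addCases (fun j => ?_) (fun j => ?_) i
      · rw [Fin.append_left]; exact ha j
      · rw [Fin.append_right]; exact hb j
    · rw [Fin.sum_univ_add]
      simp only [Fin.append_left, Fin.append_right]
  smul := by
    rintro c hc x ⟨n, t, ht, hx⟩
    exact ⟨n, t, ht, (cn_cone t).smul _ hc _ hx⟩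

theorem cg_gen {S : Set V} {x : V} (hx : x ∈ S) : x ∈ cg S :=
  ⟨1, fun _ => x, fun _ => hx, gen_mem (fun _ : Fin 1 => x) 0⟩

theorem cg_sub {S C : Set V} (hC : IsCone C) (h : ∀ x ∈ S, x ∈ C) : cg S ⊆ C := by
  rintro x ⟨n, t, ht, hx⟩
  exact cn_sub hC (fun i => h _ (ht i)) hx

theorem clo_cone {C : Set V} (hC : IsCone C) : IsCone (clo C) where
  zero := ⟨0, fun ε _ => by rw [smul_zero, add_zero]; exact hC.zero⟩
  add := by
    rintro x ⟨b, hb⟩ y ⟨b', hb'⟩
    refine ⟨b + b', fun ε hε => ?_⟩
    have h1 : x + y + ε • (b + b') = (x + ε • b) + (y + ε • b') := by rw [smul_add]; abel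
    rw [h1]
    exact hC.add _ (hb ε hε) _ (hb' ε hε)
  smul := by
    rintro c hc x ⟨b, hb⟩
    refine ⟨c • b, fun ε hε => ?_⟩
    have h1 : c • x + ε • c • b = c • (x + ε • b) := by
      rw [smul_add, smul_comm ε c]
    rw [h1]
    exact hC.smul _ hc _ (hb ε hε)

theorem sub_clo {C : Set V} : C ⊆ clo C := fun x hx =>
  ⟨0, fun ε _ => by rw [smul_zero, add_zero]; exact hx⟩

end

section

variable {k K : Type} [Field k] [Field K] [Algebra k K]

/-- `P` is the set of the prime divisors of a variety `Y` with the function field `K`: they are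
places of `K`, and the (Weil) divisors on `Y` are the elements of `P →₀ ℤ`. The function `f` is a
nonzero section of `𝒪_Y(D)`: `div f + D ≥ 0`. -/
def IsSec (P : Set (Place k K)) (D : P →₀ ℤ) (f : K) : Prop :=
  f ≠ 0 ∧ ∀ v : P, -D v ≤ (v : Place k K).ord f

/-- The complete linear system of `D` has no fixed component: for every prime divisor `v` on `Y`
there is a section whose divisor does not contain `v`. -/
def Movable (P : Set (Place k K)) (D : P →₀ ℤ) : Prop :=
  ∀ v : P, ∃ f, IsSec P D f ∧ (v : Place k K).ord f = -D v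

/-- A divisor, as a divisor with real coefficients. -/
noncomputable def rl (P : Set (Place k K)) : (P →₀ ℤ) →+ (P →₀ ℝ) :=
  Finsupp.mapRange.addMonoidHom (Int.castAddHom ℝ)

theorem rl_apply {P : Set (Place k K)} (D : P →₀ ℤ) (v : P) : rl P D v = (D v : ℝ) := rfl

/-- The cone of the real divisors which are linearly equivalent to effective ones: it is generated
by the divisors `D` with `H⁰(𝒪_Y(D)) ≠ 0`. -/
def effC (P : Set (Place k K)) : Set (P →₀ ℝ) := cg {x | ∃ D, (∃ f, IsSec P D f) ∧ x = rl P D}

/-- The cone generated by the movable divisors. -/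
def movC (P : Set (Place k K)) : Set (P →₀ ℝ) := cg {x | ∃ D, Movable P D ∧ x = rl P D}

/-- The numerically trivial real divisors: `D` and `-D` are pseudo-effective. -/
def numTriv (P : Set (Place k K)) : Submodule ℝ (P →₀ ℝ) where
  carrier := {D | D ∈ clo (effC P) ∧ -D ∈ clo (effC P)}
  zero_mem' := ⟨(clo_cone (cg_cone _)).zero, by rw [neg_zero]; exact (clo_cone (cg_cone _)).zero⟩
  add_mem' := by
    rintro x y ⟨h1, h2⟩ ⟨h3, h4⟩
    exact ⟨(clo_cone (cg_cone _)).add _ h1 _ h3, by
      rw [neg_add]; exact (clo_cone (cg_cone _)).add _ h2 _ h4⟩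
  smul_mem' := by
    rintro c x ⟨h1, h2⟩
    rcases le_total 0 c with hc | hc
    · exact ⟨(clo_cone (cg_cone _)).smul _ hc _ h1, by
        rw [← smul_neg]; exact (clo_cone (cg_cone _)).smul _ hc _ h2⟩
    · refine ⟨?_, ?_⟩
      · have h3 : c • x = (-c) • (-x) := by rw [smul_neg, neg_smul, neg_neg]
        change c • x ∈ clo (effC P)
        rw [h3]
        exact (clo_cone (cg_cone _)).smul _ (by linarith) _ h2
      · rw [← neg_smul]
        exact (clo_cone (cg_cone _)).smul _ (by linarith) _ h1

/-- The space `N¹(Y)` of the real divisors modulo numerical equivalence. -/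
def N1 (P : Set (Place k K)) : Type := (P →₀ ℝ) ⧸ numTriv P

noncomputable instance instN1 (P : Set (Place k K)) : AddCommGroup (N1 P) :=
  Submodule.Quotient.addCommGroup (numTriv P)

noncomputable instance instN1' (P : Set (Place k K)) : Module ℝ (N1 P) :=
  Submodule.Quotient.module (numTriv P)

/-- The class of a real divisor. -/
noncomputable def cls (P : Set (Place k K)) : (P →₀ ℝ) →ₗ[ℝ] N1 P := (numTriv P).mkQ

theorem cls_surj {P : Set (Place k K)} (x : N1 P) : ∃ D, cls P D = x :=
  Submodule.mkQ_surjective (numTriv P) x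

theorem cls_eq_zero {P : Set (Place k K)} {D : P →₀ ℝ} : cls P D = 0 ↔ D ∈ numTriv P :=
  Submodule.Quotient.mk_eq_zero (numTriv P)

theorem cls_eq {P : Set (Place k K)} {D E : P →₀ ℝ} : cls P D = cls P E ↔ D - E ∈ numTriv P :=
  Submodule.Quotient.eq (numTriv P)

/-- The integral lattice in `N¹(Y)`: the classes of the divisors. -/
noncomputable def lat (P : Set (Place k K)) : AddSubgroup (N1 P) :=
  ((cls P).toAddMonoidHom.comp (rl P)).range

/-- The cone `Eff(Y)` of the effective classes. -/
def Eff (P : Set (Place k K)) : Set (N1 P) := cls P '' effC P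

/-- The cone generated by the classes of the movable divisors. -/
def Mov (P : Set (Place k K)) : Set (N1 P) := cls P '' movC P

/-- The effective movable cone `Mov(Y)ᵉ`. -/
def MovE (P : Set (Place k K)) : Set (N1 P) := clo (Mov P) ∩ Eff P

theorem comp_comp (v : Place k K) (g h : K ≃ₐ[k] K) : (v.comp g).comp h = v.comp (g * h) := by
  apply Place.ext
  rfl

theorem comp_one (v : Place k K) : v.comp 1 = v := by
  apply Place.ext
  rfl

/-- The birational automorphisms of `Y` which are isomorphisms in codimension one: the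
automorphisms of the function field which permute the prime divisors on `Y`. If `Y` is smooth and
`K_Y ≡ 0`, these are all birational automorphisms of `Y`. -/
def psAut (P : Set (Place k K)) : Subgroup (K ≃ₐ[k] K) where
  carrier := {g | ∀ v, v ∈ P ↔ v.comp g ∈ P}
  one_mem' := fun v => by rw [comp_one]
  mul_mem' := by
    intro g h hg hh v
    rw [← comp_comp]
    exact (hg v).trans (hh _)
  inv_mem' := by
    intro g hg v
    have h1 := hg (v.comp g⁻¹)
    rw [comp_comp, inv_mul_cancel, comp_one] at h1
    exact h1.symm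

/-- The image of a prime divisor. -/
noncomputable def mv {P : Set (Place k K)} (g : psAut P) (v : P) : P :=
  ⟨(v : Place k K).comp (g : K ≃ₐ[k] K), (g.2 v).1 v.2⟩

theorem mv_inv {P : Set (Place k K)} (g : psAut P) (v : P) : mv g⁻¹ (mv g v) = v := by
  apply Subtype.ext
  change ((v : Place k K).comp (g : K ≃ₐ[k] K)).comp ((g⁻¹ : psAut P) : K ≃ₐ[k] K) = v
  rw [comp_comp, ← Subgroup.coe_mul, mul_inv_cancel]
  exact comp_one _

theorem mv_inv' {P : Set (Place k K)} (g : psAut P) (v : P) : mv g (mv g⁻¹ v) = v := by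
  apply Subtype.ext
  change ((v : Place k K).comp ((g⁻¹ : psAut P) : K ≃ₐ[k] K)).comp (g : K ≃ₐ[k] K) = v
  rw [comp_comp, ← Subgroup.coe_mul, inv_mul_cancel]
  exact comp_one _

/-- The permutation of the prime divisors. -/
noncomputable def sg {P : Set (Place k K)} (g : psAut P) : P ≃ P :=
  ⟨mv g, mv g⁻¹, mv_inv g, mv_inv' g⟩

/-- The action on the real divisors. -/
noncomputable def pb {P : Set (Place k K)} (g : psAut P) : (P →₀ ℝ) →ₗ[ℝ] (P →₀ ℝ) :=
  Finsupp.lcomapDomain (sg g) (sg g).injective

theorem pb_one (P : Set (Place k K)) : pb (1 : psAut P) = LinearMap.id := by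
  refine LinearMap.ext fun D => Finsupp.ext fun v => ?_
  change D (sg 1 v) = D v
  congr 1

theorem pb_mul {P : Set (Place k K)} (g h : psAut P) : pb (g * h) = pb g ∘ₗ pb h := by
  refine LinearMap.ext fun D => Finsupp.ext fun v => ?_
  change D (sg (g * h) v) = D (sg h (sg g v))
  congr 1

theorem pb_apply {P : Set (Place k K)} (g : psAut P) (D : P →₀ ℝ) (v : P) :
    pb g D v = D (sg g v) := rfl

/-- The action on the integral divisors. -/
noncomputable def pbz {P : Set (Place k K)} (g : psAut P) (D : P →₀ ℤ) : P →₀ ℤ :=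
  D.comapDomain (sg g) (sg g).injective.injOn

theorem pbz_apply {P : Set (Place k K)} (g : psAut P) (D : P →₀ ℤ) (v : P) :
    pbz g D v = D (sg g v) := rfl

theorem pb_rl {P : Set (Place k K)} (g : psAut P) (D : P →₀ ℤ) :
    pb g (rl P D) = rl P (pbz g D) := by
  ext v
  rfl

theorem sec_pbz {P : Set (Place k K)} (g : psAut P) {D : P →₀ ℤ} {f : K} (h : IsSec P D f) :
    IsSec P (pbz g D) ((g : K ≃ₐ[k] K) f) :=
  ⟨by simpa using h.1, fun v => h.2 (sg g v)⟩

theorem mov_pbz {P : Set (Place k K)} (g : psAut P) {D : P →₀ ℤ} (h : Movable P D) :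
    Movable P (pbz g D) := by
  intro v
  obtain ⟨f, hf, h1⟩ := h (sg g v)
  exact ⟨(g : K ≃ₐ[k] K) f, sec_pbz g hf, h1⟩

theorem pb_eff {P : Set (Place k K)} (g : psAut P) {x : P →₀ ℝ} (hx : x ∈ effC P) :
    pb g x ∈ effC P := by
  have h1 : IsCone {x | pb g x ∈ effC P} := by
    refine ⟨?_, ?_, ?_⟩
    · change pb g 0 ∈ effC P
      rw [map_zero]; exact (cg_cone _).zero
    · intro x hx y hy
      change pb g (x + y) ∈ effC P
      rw [map_add]; exact (cg_cone _).add _ hx _ hy
    · intro c hc x hx
      change pb g (c • x) ∈ effC P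
      rw [map_smul]; exact (cg_cone _).smul _ hc _ hx
  refine cg_sub h1 ?_ hx
  rintro _ ⟨D, ⟨f, hf⟩, rfl⟩
  change pb g (rl P D) ∈ effC P
  rw [pb_rl]
  exact cg_gen ⟨_, ⟨_, sec_pbz g hf⟩, rfl⟩

theorem pb_mov {P : Set (Place k K)} (g : psAut P) {x : P →₀ ℝ} (hx : x ∈ movC P) :
    pb g x ∈ movC P := by
  have h1 : IsCone {x | pb g x ∈ movC P} := by
    refine ⟨?_, ?_, ?_⟩
    · change pb g 0 ∈ movC P
      rw [map_zero]; exact (cg_cone _).zero
    · intro x hx y hy
      change pb g (x + y) ∈ movC P
      rw [map_add]; exact (cg_cone _).add _ hx _ hy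
    · intro c hc x hx
      change pb g (c • x) ∈ movC P
      rw [map_smul]; exact (cg_cone _).smul _ hc _ hx
  refine cg_sub h1 ?_ hx
  rintro _ ⟨D, hD, rfl⟩
  change pb g (rl P D) ∈ movC P
  rw [pb_rl]
  exact cg_gen ⟨_, mov_pbz g hD, rfl⟩

theorem clo_map {V W : Type*} [AddCommGroup V] [Module ℝ V] [AddCommGroup W] [Module ℝ W]
    (f : V →ₗ[ℝ] W) {C : Set V} {C' : Set W} (h : ∀ x ∈ C, f x ∈ C') {x : V} (hx : x ∈ clo C) :
    f x ∈ clo C' := by
  obtain ⟨b, hb⟩ := hx
  refine ⟨f b, fun ε hε => ?_⟩
  have h1 := h _ (hb ε hε)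
  rwa [map_add, map_smul] at h1

theorem pb_numTriv {P : Set (Place k K)} (g : psAut P) :
    numTriv P ≤ (numTriv P).comap (pb g) := by
  rintro x ⟨h1, h2⟩
  refine ⟨clo_map (pb g) (fun _ => pb_eff g) h1, ?_⟩
  rw [← map_neg]
  exact clo_map (pb g) (fun _ => pb_eff g) h2

/-- The action on `N¹(Y)`. -/
noncomputable def act {P : Set (Place k K)} (g : psAut P) : N1 P →ₗ[ℝ] N1 P :=
  (numTriv P).mapQ (numTriv P) (pb g) (pb_numTriv g)

theorem act_cls {P : Set (Place k K)} (g : psAut P) (D : P →₀ ℝ) :
    act g (cls P D) = cls P (pb g D) := rfl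

/-- The action on `N¹(Y)`, as a homomorphism. -/
noncomputable def rho (P : Set (Place k K)) : psAut P →* Module.End ℝ (N1 P) where
  toFun g := act g
  map_one' := by
    refine LinearMap.ext fun x => ?_
    obtain ⟨D, rfl⟩ := cls_surj x
    rw [act_cls, pb_one]
    rfl
  map_mul' g h := by
    refine LinearMap.ext fun x => ?_
    obtain ⟨D, rfl⟩ := cls_surj x
    rw [act_cls, pb_mul]
    rfl

/-- **The movable cone conjecture** for `Y`: there is a rational polyhedral cone `Q` in `N¹(Y)` which
is a fundamental domain for the action of the group of the birational automorphisms of `Y` (which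
are isomorphisms in codimension one) on the effective movable cone: the translates of `Q` cover the
effective movable cone, and the interiors of `Q` and of `g Q` are disjoint, unless `g` acts trivially
on `N¹(Y)`. -/
def MovableConeConjecture (P : Set (Place k K)) : Prop :=
  ∃ Q : Set (N1 P), RP (lat P) Q ∧ (⋃ g : psAut P, act g '' Q) = MovE P ∧
    ∀ g : psAut P, (inn Q ∩ act g '' inn Q).Nonempty → act g = LinearMap.id

/-- There is an ample divisor. -/
def HasAmple (P : Set (Place k K)) : Prop :=
  ∃ H : P →₀ ℤ, ∀ D : P →₀ ℤ, ∃ m : ℕ, 1 ≤ m ∧ Movable P (m • H + D)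

/-- The theorem of the base: the classes of the divisors form a lattice in `N¹(Y)`. -/
def HasBase (P : Set (Place k K)) : Prop :=
  ∃ (n : ℕ) (b : Basis (Fin n) ℝ (N1 P)), (∀ i, b i ∈ lat P) ∧
    ∀ x ∈ lat P, ∀ i, ∃ z : ℤ, b.repr x i = z

/-- The automorphisms which act trivially on `N¹(Y)` contain an abelian variety (divisible, with
finite torsion subgroups) of finite index, which is normal in the group of all automorphisms. -/
def HasAut (P : Set (Place k K)) : Prop :=
  ∃ A : Subgroup (psAut P), DivAb A ∧ (∀ a ∈ A, act a = LinearMap.id) ∧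
    ((fun g : psAut P => (g : psAut P ⧸ A)) '' {g | act g = LinearMap.id}).Finite

/-- Properties of the set `P` of the prime divisors of a smooth projective variety `Y` with
`K_Y ≡ 0`. -/
structure IsProj (P : Set (Place k K)) : Prop where
  /-- there is an ample divisor -/
  ample : HasAmple P
  /-- the theorem of the base -/
  base : HasBase P
  /-- the automorphisms which act trivially on `N¹(Y)` -/
  aut : HasAut P

/-- The prime divisors of the quotient of `Y` by the group `G`: the places of the fixed field which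
lie under the prime divisors of `Y`. -/
def quo (P : Set (Place k K)) (G : Subgroup (K ≃ₐ[k] K)) :
    Set (Place k (IntermediateField.fixedField G)) :=
  {v | ∃ w ∈ P, ∃ e : ℕ, Over w v e}

end

end Pool.Agent.K1H17.MC
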