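import Pool.Agent.K1H17.MC.FB

/-! A linear form which is integral on the lattice and positive on a cone whose closure contains
no line. -/

set_option autoImplicit false
set_option linter.overlappingInstances false
set_option linter.unusedSectionVars false
set_option linter.unusedVariables false

open Module

namespace Pool.Agent.K1H17.MC

section

/-- A closed convex cone in `ℝ ^ m` without lines: there is a linear form which is positive on the
unit vectors of the cone. -/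
theorem exists_pos_form {m : ℕ} {C : Set (Fin m → ℝ)} (hC : IsCone C) (hcl : IsClosed C)
    (hsal : ∀ x ∈ C, -x ∈ C → x = 0) :
    ∃ f : (Fin m → ℝ) →L[ℝ] ℝ, ∃ u : ℝ, 0 < u ∧ ∀ x ∈ C, u * ‖x‖ ≤ f x := by
  classical
  have hconv : Convex ℝ C := by
    intro x hx y hy a b ha hb hab
    exact hC.add _ (hC.smul _ ha _ hx) _ (hC.smul _ hb _ hy)
  let S : Set (Fin m → ℝ) := C ∩ Metric.sphere 0 1
  have hS : IsCompact S := (isCompact_sphere _ _).inter_left hcl
  have h1 : ∀ s : Fin m → ℝ, ∃ f : (Fin m → ℝ) →L[ℝ] ℝ, (∀ x ∈ C, 0 ≤ f x) ∧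
      (s ∈ S → 0 < f s) := by
    intro s
    by_cases hs : s ∈ S
    · have hs' : -s ∉ C := by
        intro h
        have h2 := hsal s hs.1 h
        have h3 : ‖s‖ = 1 := by simpa using hs.2
        rw [h2, norm_zero] at h3
        exact zero_ne_one h3
      obtain ⟨f, u, hfu, hu⟩ := geometric_hahn_banach_point_closed hconv hcl hs'
      have hu0 : u < 0 := by
        have := hu 0 hC.zero
        rwa [map_zero] at this
      refine ⟨f, fun x hx => ?_, fun _ => ?_⟩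
      · by_contra hcon
        push Not at hcon
        have h2 := hu _ (hC.smul (u / f x) (div_nonneg_of_nonpos hu0.le hcon.le) x hx)
        rw [map_smul, smul_eq_mul, div_mul_cancel₀ _ hcon.ne] at h2
        exact lt_irrefl _ h2
      · rw [map_neg] at hfu
        linarith
    · exact ⟨0, fun x _ => by simp, fun h => absurd h hs⟩
  choose f hf1 hf2 using h1
  obtain ⟨T, hT⟩ := hS.elim_finite_subcover (fun s : S => {x | 0 < f s x})
    (fun s => isOpen_lt continuous_const (f s).continuous)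
    (fun x hx => Set.mem_iUnion.2 ⟨⟨x, hx⟩, hf2 x hx⟩)
  obtain ⟨F, hF⟩ : ∃ F : (Fin m → ℝ) →L[ℝ] ℝ, F = ∑ s ∈ T, f s := ⟨_, rfl⟩
  have hFv : ∀ x, F x = ∑ s ∈ T, f s x := fun x => by rw [hF]; simp
  have hFnn : ∀ x ∈ C, 0 ≤ F x := fun x hx => by
    rw [hFv]
    exact Finset.sum_nonneg fun s _ => hf1 s x hx
  have hFpos : ∀ x ∈ S, 0 < F x := by
    intro x hx
    have h2 := hT hx
    simp only [Set.mem_iUnion] at h2
    obtain ⟨s, hs, h3⟩ := h2
    rw [hFv]
    exact Finset.sum_pos' (fun s _ => hf1 s x hx.1) ⟨s, hs, h3⟩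
  by_cases hSne : S.Nonempty
  · obtain ⟨s0, hs0, hmin⟩ := hS.exists_isMinOn hSne F.continuous.continuousOn
    refine ⟨F, F s0, hFpos _ hs0, fun x hx => ?_⟩
    by_cases hx0 : x = 0
    · rw [hx0]; simp
    have hn : 0 < ‖x‖ := norm_pos_iff.2 hx0
    have h2 : ‖x‖⁻¹ • x ∈ S := by
      refine ⟨hC.smul _ (inv_nonneg.2 hn.le) _ hx, ?_⟩
      simp only [mem_sphere_iff_norm, sub_zero]
      rw [norm_smul, norm_inv, norm_norm, inv_mul_cancel₀ hn.ne']
    have h3 : F s0 ≤ F (‖x‖⁻¹ • x) := hmin h2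
    rw [map_smul, smul_eq_mul] at h3
    calc F s0 * ‖x‖ ≤ ‖x‖⁻¹ * F x * ‖x‖ := mul_le_mul_of_nonneg_right h3 hn.le
      _ = F x := by field_simp
  · refine ⟨F, 1, one_pos, fun x hx => ?_⟩
    by_cases hx0 : x = 0
    · rw [hx0]; simp
    exfalso
    have hn : 0 < ‖x‖ := norm_pos_iff.2 hx0
    refine hSne ⟨‖x‖⁻¹ • x, hC.smul _ (inv_nonneg.2 hn.le) _ hx, ?_⟩
    simp only [mem_sphere_iff_norm, sub_zero]
    rw [norm_smul, norm_inv, norm_norm, inv_mul_cancel₀ hn.ne']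

variable {V : Type*} [AddCommGroup V] [Module ℝ V]

/-- A linear form with integral coefficients which bounds the coordinates on the cone. -/
theorem exists_xi {m : ℕ} (b : Basis (Fin m) ℝ V) {C : Set V} (hC : IsCone C) {e : V}
    (he : e ∈ inn C)
    (hsal : ∀ x, (∀ ε : ℝ, 0 < ε → x + ε • e ∈ C) → (∀ ε : ℝ, 0 < ε → -x + ε • e ∈ C) → x = 0) :
    ∃ z : Fin m → ℤ, ∀ x ∈ C, ∀ i, |b.repr x i| ≤ ∑ j, (z j : ℝ) * b.repr x j := by
  classical
  let φ : (Fin m → ℝ) ≃ₗ[ℝ] V := b.equivFun.symm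
  have hφ : ∀ c, φ c = ∑ i, c i • b i := fun c => b.equivFun_symm_apply c
  let C' : Set (Fin m → ℝ) := {c | φ c ∈ C}
  have hC' : IsCone C' := by
    refine ⟨?_, ?_, ?_⟩
    · change φ 0 ∈ C
      rw [map_zero]; exact hC.zero
    · intro x hx y hy
      change φ (x + y) ∈ C
      rw [map_add]; exact hC.add _ hx _ hy
    · intro c hc x hx
      change φ (c • x) ∈ C
      rw [map_smul]; exact hC.smul _ hc _ hx
  have hcl : IsCone (closure C') := by
    refine ⟨subset_closure hC'.zero, ?_, ?_⟩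
    · intro x hx y hy
      exact map_mem_closure₂ continuous_add hx hy fun a ha b hb => hC'.add _ ha _ hb
    · intro c hc x hx
      exact map_mem_closure (continuous_const_smul c) hx fun a ha => hC'.smul _ hc _ ha
  -- the interior point
  choose ε1 hε1 h1 using fun i => he (b i)
  choose ε2 hε2 h2 using fun i => he (-(b i))
  obtain ⟨r, hr, hr1⟩ : ∃ r : ℝ, 0 < r ∧ ∀ i, (m : ℝ) * r ≤ ε1 i ∧ (m : ℝ) * r ≤ ε2 i := by
    by_cases hm : m = 0
    · subst hm
      exact ⟨1, one_pos, fun i => i.elim0⟩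
    have hm0 : (0 : ℝ) < m := by exact_mod_cast Nat.pos_of_ne_zero hm
    have hne : (Finset.univ : Finset (Fin m)).Nonempty := ⟨⟨0, Nat.pos_of_ne_zero hm⟩,
      Finset.mem_univ _⟩
    obtain ⟨i0, -, hi0⟩ := Finset.univ.exists_min_image (fun i => min (ε1 i) (ε2 i)) hne
    refine ⟨min (ε1 i0) (ε2 i0) / m, div_pos (lt_min (hε1 _) (hε2 _)) hm0, fun i => ?_⟩
    rw [mul_div_cancel₀ _ hm0.ne']
    exact ⟨(hi0 i (Finset.mem_univ _)).trans (min_le_left _ _),
      (hi0 i (Finset.mem_univ _)).trans (min_le_right _ _)⟩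
  have hball : ∀ c : Fin m → ℝ, ‖c‖ ≤ r → e + φ c ∈ C := by
    intro c hc
    by_cases hm : m = 0
    · subst hm
      have : c = 0 := funext fun i => i.elim0
      rw [this, map_zero, add_zero]
      exact inn_sub he
    have hm0 : (0 : ℝ) < m := by exact_mod_cast Nat.pos_of_ne_zero hm
    have hseg : ∀ i, e + ((m : ℝ) * c i) • b i ∈ C := by
      intro i
      have hci : |c i| ≤ r := (norm_le_pi_norm c i).trans hc
      have hcv : ∀ (w : V) (ε1 ε : ℝ), 0 ≤ ε → ε ≤ ε1 → 0 < ε1 → e + ε1 • w ∈ C →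
          e + ε • w ∈ C := by
        intro w ε1 ε hε hεε hε1' hw
        have h7 : e + ε • w = (1 - ε / ε1) • e + (ε / ε1) • (e + ε1 • w) := by
          rw [smul_add, smul_smul, div_mul_cancel₀ _ hε1'.ne', sub_smul, one_smul]
          abel
        rw [h7]
        refine hC.add _ (hC.smul _ ?_ _ (inn_sub he)) _ (hC.smul _ (by positivity) _ hw)
        rw [sub_nonneg, div_le_one hε1']
        exact hεε
      rcases le_or_gt 0 (c i) with h3 | h3
      · refine hcv (b i) (ε1 i) _ (mul_nonneg hm0.le h3) ?_ (hε1 i) (h1 i)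
        rw [abs_of_nonneg h3] at hci
        exact (mul_le_mul_of_nonneg_left hci hm0.le).trans (hr1 i).1
      · have h4 := hcv (-(b i)) (ε2 i) ((m : ℝ) * (-c i)) (mul_nonneg hm0.le (by linarith)) (by
          rw [abs_of_neg h3] at hci
          exact (mul_le_mul_of_nonneg_left hci hm0.le).trans (hr1 i).2) (hε2 i) (h2 i)
        have h5 : ((m : ℝ) * (-c i)) • -(b i) = ((m : ℝ) * c i) • b i := by
          rw [smul_neg, ← neg_smul]; congr 1; ring
        rwa [h5] at h4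
    have h6 : e + φ c = ∑ i : Fin m, (1 / (m : ℝ)) • (e + ((m : ℝ) * c i) • b i) := by
      simp only [smul_add, smul_smul, Finset.sum_add_distrib]
      rw [Finset.sum_const, Finset.card_univ, Fintype.card_fin, hφ]
      congr 1
      · rw [← Nat.cast_smul_eq_nsmul ℝ, smul_smul, mul_one_div_cancel hm0.ne', one_smul]
      · refine Finset.sum_congr rfl fun i _ => ?_
        congr 1
        field_simp
    rw [h6]
    exact hC.sum _ _ fun i _ => hC.smul _ (by positivity) _ (hseg i)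
  have hint : ∀ c ∈ closure C', ∀ ε : ℝ, 0 < ε → φ c + ε • e ∈ C := by
    intro c hc ε hε
    obtain ⟨c', hc', hd⟩ := Metric.mem_closure_iff.1 hc (ε * r) (mul_pos hε hr)
    have h3 : φ c + ε • e = φ c' + ε • (e + φ (ε⁻¹ • (c - c'))) := by
      rw [smul_add, ← map_smul, smul_smul, mul_inv_cancel₀ hε.ne', one_smul, map_sub]
      abel
    rw [h3]
    refine hC.add _ hc' _ (hC.smul _ hε.le _ (hball _ ?_))
    rw [norm_smul, norm_inv, Real.norm_of_nonneg hε.le, inv_mul_le_iff₀ hε]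
    rw [dist_eq_norm] at hd
    exact hd.le
  obtain ⟨f, u, hu, hf⟩ := exists_pos_form hcl isClosed_closure fun c hc hc' => by
    have h3 := hsal (φ c) (hint c hc) fun ε hε => by
      have := hint _ hc' ε hε
      rwa [map_neg] at this
    exact φ.map_eq_zero_iff.1 h3
  obtain ⟨N, hN⟩ := exists_nat_gt (((m : ℝ) + 1) / u)
  rw [div_lt_iff₀ hu] at hN
  refine ⟨fun j => round ((N : ℝ) * f (Pi.single j 1)), fun x hx i => ?_⟩
  obtain ⟨c, hc⟩ : ∃ c : Fin m → ℝ, c = fun i => b.repr x i := ⟨_, rfl⟩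
  have hcC : c ∈ C' := by
    change φ c ∈ C
    have h3 : φ c = x := by
      rw [hφ, hc]
      exact b.sum_repr x
    rw [h3]
    exact hx
  have h3 := hf c (subset_closure hcC)
  have hfc : f c = ∑ j, c j * f (Pi.single j 1) := by
    have h4 : c = ∑ j, c j • (Pi.single j 1 : Fin m → ℝ) := by
      funext i
      simp [Finset.sum_apply, Pi.single_apply]
    conv_lhs => rw [h4]
    rw [map_sum]
    exact Finset.sum_congr rfl fun j _ => by rw [map_smul, smul_eq_mul]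
  have h5 : |∑ j, ((round ((N : ℝ) * f (Pi.single j 1)) : ℤ) : ℝ) * c j - N * f c| ≤ m * ‖c‖ := by
    rw [hfc, Finset.mul_sum, ← Finset.sum_sub_distrib]
    refine (Finset.abs_sum_le_sum_abs _ _).trans ?_
    have h6 : ∀ j ∈ (Finset.univ : Finset (Fin m)),
        |((round ((N : ℝ) * f (Pi.single j 1)) : ℤ) : ℝ) * c j - N * (c j * f (Pi.single j 1))| ≤
          ‖c‖ := by
      intro j _
      have h7 : ((round ((N : ℝ) * f (Pi.single j 1)) : ℤ) : ℝ) * c j -
          N * (c j * f (Pi.single j 1)) =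
          (((round ((N : ℝ) * f (Pi.single j 1)) : ℤ) : ℝ) - N * f (Pi.single j 1)) * c j := by
        ring
      rw [h7, abs_mul]
      have h8 : |((round ((N : ℝ) * f (Pi.single j 1)) : ℤ) : ℝ) - N * f (Pi.single j 1)| ≤ 1 := by
        rw [abs_sub_comm]
        exact (abs_sub_round _).trans (by norm_num)
      have h9 : |c j| ≤ ‖c‖ := norm_le_pi_norm c j
      calc _ ≤ 1 * ‖c‖ := mul_le_mul h8 h9 (abs_nonneg _) zero_le_one
        _ = ‖c‖ := one_mul _
    refine (Finset.sum_le_sum h6).trans (le_of_eq ?_)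
    rw [Finset.sum_const, Finset.card_univ, Fintype.card_fin, nsmul_eq_mul]
  have h6 : ∀ j, b.repr x j = c j := fun j => by rw [hc]
  simp only [h6]
  have h7 : |c i| ≤ ‖c‖ := norm_le_pi_norm c i
  have h8 := (abs_le.1 h5).1
  have h9 : (N : ℝ) * (u * ‖c‖) ≤ N * f c := mul_le_mul_of_nonneg_left h3 (Nat.cast_nonneg _)
  have h10 : ((m : ℝ) + 1) * ‖c‖ ≤ N * u * ‖c‖ := mul_le_mul_of_nonneg_right hN.le (norm_nonneg _)
  nlinarith

/-- Finiteness of the set of lattice points of bounded degree. -/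
theorem fin_deg {m : ℕ} (b : Basis (Fin m) ℝ V) {Λ : AddSubgroup V} {C : Set V}
    (hΛ : ∀ x ∈ Λ, ∀ i, ∃ z : ℤ, b.repr x i = z) {ξ : V →ₗ[ℝ] ℝ}
    (hξ : ∀ x ∈ C, ∀ i, |b.repr x i| ≤ ξ x) (B : ℝ) : {x | x ∈ Λ ∧ x ∈ C ∧ ξ x ≤ B}.Finite := by
  classical
  have hinj : Set.InjOn (fun x => fun i => b.repr x i) {x | x ∈ Λ ∧ x ∈ C ∧ ξ x ≤ B} := by
    intro x _ y _ h
    exact b.ext_elem fun i => congrFun h i
  refine Set.Finite.of_finite_image ?_ hinj
  have hfin : (Set.univ.pi fun _ : Fin m => ((fun z : ℤ => (z : ℝ)) '' Set.Icc (-⌈B⌉) ⌈B⌉)).Finite :=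
    Set.Finite.pi fun _ => (Set.finite_Icc _ _).image _
  refine hfin.subset ?_
  rintro _ ⟨x, ⟨h1, h2, h3⟩, rfl⟩ i -
  obtain ⟨z, hz⟩ := hΛ x h1 i
  refine ⟨z, ?_, hz.symm⟩
  have h4 := (hξ x h2 i).trans h3
  rw [hz, abs_le] at h4
  have h5 := Int.le_ceil B
  constructor
  · have : -((⌈B⌉ : ℤ) : ℝ) ≤ z := by linarith
    exact_mod_cast this
  · have : (z : ℝ) ≤ (⌈B⌉ : ℤ) := by linarith
    exact_mod_cast this

/-- Finiteness of the stabilizer. -/
theorem fin_stab {Γ : Type*} [Group Γ] {ρ : Γ →* Module.End ℝ V} {Λ : AddSubgroup V} {C : Set V}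
    {ξ : V →ₗ[ℝ] ℝ} (hfin : ∀ B : ℝ, {x | x ∈ Λ ∧ x ∈ C ∧ ξ x ≤ B}.Finite)
    (hΛ : ∀ γ, ∀ x ∈ Λ, ρ γ x ∈ Λ) (hC : ∀ γ, ∀ x ∈ C, ρ γ x ∈ C) {k : ℕ} {u : Fin k → V}
    (hu : ∀ i, u i ∈ Λ) (huC : ∀ i, u i ∈ C)
    (hspan : ∀ x, x ∈ Submodule.span ℝ (Set.range u)) :
    {f : Module.End ℝ V | (∃ γ, ρ γ = f) ∧ ξ ∘ₗ f = ξ}.Finite := by
  classical
  have hinj : Set.InjOn (fun f : Module.End ℝ V => fun i => f (u i))
      {f : Module.End ℝ V | (∃ γ, ρ γ = f) ∧ ξ ∘ₗ f = ξ} := by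
    intro f _ g _ h
    refine LinearMap.ext_on (s := Set.range u) ?_ ?_
    · exact Submodule.eq_top_iff'.2 hspan
    · rintro _ ⟨i, rfl⟩
      exact congrFun h i
  refine Set.Finite.of_finite_image ?_ hinj
  have h1 : (Set.univ.pi fun i : Fin k => {x | x ∈ Λ ∧ x ∈ C ∧ ξ x ≤ ξ (u i)}).Finite :=
    Set.Finite.pi fun _ => hfin _
  refine h1.subset ?_
  rintro _ ⟨f, ⟨⟨γ, rfl⟩, hf⟩, rfl⟩ i -
  refine ⟨hΛ _ _ (hu i), hC _ _ (huC i), le_of_eq ?_⟩
  exact congrArg (fun g : V →ₗ[ℝ] ℝ => g (u i)) hf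

end

end Pool.Agent.K1H17.MC
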