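import Pool.Agent.K1H17.MC.Defs
import Pool.Agent.K1H17.MC.Sa

/-! The effective movable cone with the action of the automorphisms. -/

set_option autoImplicit false
set_option linter.overlappingInstances false
set_option linter.unusedSectionVars false
set_option linter.unusedVariables false

open FF Module

namespace Pool.Agent.K1H17.MC

section

variable {k K : Type} [Field k] [Field K] [Algebra k K] {P : Set (Place k K)}

theorem Movable.sec {D : P →₀ ℤ} (h : Movable P D) : ∃ f, IsSec P D f := by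
  by_cases hP : Nonempty P
  · obtain ⟨v⟩ := hP
    obtain ⟨f, hf, -⟩ := h v
    exact ⟨f, hf⟩
  · exact ⟨1, one_ne_zero, fun v => absurd ⟨v⟩ hP⟩

theorem rl_nsmul (m : ℕ) (D : P →₀ ℤ) : rl P (m • D) = (m : ℝ) • rl P D := by
  rw [map_nsmul, Nat.cast_smul_eq_nsmul ℝ]

theorem mov_sub_eff : movC P ⊆ effC P := by
  refine cg_sub (cg_cone _) ?_
  rintro _ ⟨D, hD, rfl⟩
  exact cg_gen ⟨D, hD.sec, rfl⟩

theorem image_cone {V W : Type*} [AddCommGroup V] [Module ℝ V] [AddCommGroup W] [Module ℝ W]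
    (f : V →ₗ[ℝ] W) {C : Set V} (hC : IsCone C) : IsCone (f '' C) where
  zero := ⟨0, hC.zero, map_zero _⟩
  add := by
    rintro _ ⟨x, hx, rfl⟩ _ ⟨y, hy, rfl⟩
    exact ⟨x + y, hC.add _ hx _ hy, map_add _ _ _⟩
  smul := by
    rintro c hc _ ⟨x, hx, rfl⟩
    exact ⟨c • x, hC.smul _ hc _ hx, map_smul _ _ _⟩

theorem Mov_cone : IsCone (Mov P) := image_cone _ (cg_cone _)

theorem Eff_cone : IsCone (Eff P) := image_cone _ (cg_cone _)

theorem MovE_cone : IsCone (MovE P) where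
  zero := ⟨(clo_cone Mov_cone).zero, Eff_cone.zero⟩
  add := fun x hx y hy =>
    ⟨(clo_cone Mov_cone).add _ hx.1 _ hy.1, Eff_cone.add _ hx.2 _ hy.2⟩
  smul := fun c hc x hx =>
    ⟨(clo_cone Mov_cone).smul _ hc _ hx.1, Eff_cone.smul _ hc _ hx.2⟩

theorem Mov_sub_MovE : Mov P ⊆ MovE P := by
  rintro _ ⟨x, hx, rfl⟩
  exact ⟨sub_clo ⟨x, hx, rfl⟩, x, mov_sub_eff hx, rfl⟩

theorem rho_cls (g : psAut P) (x : P →₀ ℝ) : rho P g (cls P x) = cls P (pb g x) := rfl

theorem rho_Mov (g : psAut P) {x : N1 P} (hx : x ∈ Mov P) : rho P g x ∈ Mov P := by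
  obtain ⟨y, hy, rfl⟩ := hx
  exact ⟨pb g y, pb_mov g hy, rfl⟩

theorem rho_Eff (g : psAut P) {x : N1 P} (hx : x ∈ Eff P) : rho P g x ∈ Eff P := by
  obtain ⟨y, hy, rfl⟩ := hx
  exact ⟨pb g y, pb_eff g hy, rfl⟩

theorem rho_MovE (g : psAut P) {x : N1 P} (hx : x ∈ MovE P) : rho P g x ∈ MovE P :=
  ⟨clo_map (rho P g) (fun _ => rho_Mov g) hx.1, rho_Eff g hx.2⟩

theorem cls_rl_mem (D : P →₀ ℤ) : cls P (rl P D) ∈ lat P := ⟨D, rfl⟩

theorem rho_lat (g : psAut P) {x : N1 P} (hx : x ∈ lat P) : rho P g x ∈ lat P := by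
  obtain ⟨D, rfl⟩ := hx
  change rho P g (cls P (rl P D)) ∈ lat P
  rw [rho_cls, pb_rl]
  exact cls_rl_mem _

/-- Every real divisor is dominated by a multiple of the ample divisor. -/
theorem unit_mov {H : P →₀ ℤ} (hH : ∀ D : P →₀ ℤ, ∃ m : ℕ, 1 ≤ m ∧ Movable P (m • H + D))
    (D : P →₀ ℝ) : ∃ c : ℝ, 0 < c ∧ c • rl P H + D ∈ movC P := by
  classical
  have hz : ∀ (E : P →₀ ℤ) (a : ℝ), ∃ c : ℝ, 0 < c ∧ c • rl P H + a • rl P E ∈ movC P := by
    intro E a
    have h1 : ∀ (E : P →₀ ℤ) (a : ℝ), 0 < a → ∃ c : ℝ, 0 < c ∧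
        c • rl P H + a • rl P E ∈ movC P := by
      intro E a ha
      obtain ⟨m, hm, hM⟩ := hH E
      have hm0 : (0 : ℝ) < m := by exact_mod_cast hm
      refine ⟨a * m, mul_pos ha hm0, ?_⟩
      have h2 : (a * m) • rl P H + a • rl P E = a • rl P (m • H + E) := by
        rw [map_add, map_nsmul, smul_add, ← Nat.cast_smul_eq_nsmul ℝ, smul_smul]
      rw [h2]
      exact (cg_cone _).smul _ ha.le _ (cg_gen ⟨_, hM, rfl⟩)
    rcases lt_trichotomy a 0 with ha | ha | ha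
    · obtain ⟨c, hc, h2⟩ := h1 (-E) (-a) (by linarith)
      refine ⟨c, hc, ?_⟩
      rwa [map_neg, smul_neg, neg_smul, neg_neg] at h2
    · obtain ⟨c, hc, h2⟩ := h1 0 1 one_pos
      refine ⟨c, hc, ?_⟩
      rw [ha, zero_smul]
      rwa [map_zero, smul_zero] at h2
    · exact h1 E a ha
  induction D using Finsupp.induction_linear with
  | zero =>
    obtain ⟨c, hc, h⟩ := hz 0 0
    exact ⟨c, hc, by rwa [zero_smul] at h⟩
  | add f g hf hg =>
    obtain ⟨c, hc, h⟩ := hf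
    obtain ⟨c', hc', h'⟩ := hg
    refine ⟨c + c', add_pos hc hc', ?_⟩
    have h1 : (c + c') • rl P H + (f + g) = (c • rl P H + f) + (c' • rl P H + g) := by
      rw [add_smul]; abel
    rw [h1]
    exact (cg_cone _).add _ h _ h'
  | single v a =>
    obtain ⟨c, hc, h⟩ := hz (Finsupp.single v 1) a
    refine ⟨c, hc, ?_⟩
    have h1 : a • rl P (Finsupp.single v 1) = Finsupp.single v a := by
      ext w
      rw [Finsupp.smul_apply, rl_apply]
      by_cases hvw : v = w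
      · subst hvw; simp
      · simp [hvw]
    rwa [h1] at h

theorem clo_of_unit {H : P →₀ ℤ} (hH : ∀ D : P →₀ ℤ, ∃ m : ℕ, 1 ≤ m ∧ Movable P (m • H + D))
    {x : P →₀ ℝ} (hx : x ∈ clo (effC P)) {δ : ℝ} (hδ : 0 < δ) : x + δ • rl P H ∈ effC P := by
  obtain ⟨b, hb⟩ := hx
  obtain ⟨c, hc, h⟩ := unit_mov hH (-b)
  have h1 := hb (δ / c) (div_pos hδ hc)
  have h2 : x + δ • rl P H = (x + (δ / c) • b) + (δ / c) • (c • rl P H + -b) := by
    rw [smul_add, smul_smul, div_mul_cancel₀ _ hc.ne', smul_neg]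
    abel
  rw [h2]
  exact (cg_cone _).add _ h1 _ ((cg_cone _).smul _ (div_pos hδ hc).le _ (mov_sub_eff h))

/-- The ample class is an interior point of the movable cone. -/
theorem ample_inn {H : P →₀ ℤ} (hH : ∀ D : P →₀ ℤ, ∃ m : ℕ, 1 ≤ m ∧ Movable P (m • H + D)) :
    cls P (rl P H) ∈ inn (MovE P) := by
  intro v
  obtain ⟨D, rfl⟩ := cls_surj v
  obtain ⟨c, hc, h⟩ := unit_mov hH D
  refine ⟨c⁻¹, inv_pos.2 hc, Mov_sub_MovE ⟨c⁻¹ • (c • rl P H + D), (cg_cone _).smul _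
    (inv_pos.2 hc).le _ h, ?_⟩⟩
  rw [smul_add, smul_smul, inv_mul_cancel₀ hc.ne', one_smul, map_add, map_smul]

/-- The closure of the effective cone contains no line. -/
theorem salient {H : P →₀ ℤ} (hH : ∀ D : P →₀ ℤ, ∃ m : ℕ, 1 ≤ m ∧ Movable P (m • H + D))
    (x : N1 P) (h1 : ∀ ε : ℝ, 0 < ε → x + ε • cls P (rl P H) ∈ MovE P)
    (h2 : ∀ ε : ℝ, 0 < ε → -x + ε • cls P (rl P H) ∈ MovE P) : x = 0 := by
  obtain ⟨D, rfl⟩ := cls_surj x
  have key : ∀ D : P →₀ ℝ, (∀ ε : ℝ, 0 < ε → cls P D + ε • cls P (rl P H) ∈ MovE P) →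
      D ∈ clo (effC P) := by
    intro D hD
    refine ⟨(2 : ℝ) • rl P H, fun ε hε => ?_⟩
    obtain ⟨E, hE, hE'⟩ := (hD ε hε).2
    have h3 : E - (D + ε • rl P H) ∈ numTriv P := by
      rw [← cls_eq, hE', map_add, map_smul]
    have h4 := clo_of_unit hH h3.2 hε
    have h5 : D + ε • (2 : ℝ) • rl P H =
        E + (-(E - (D + ε • rl P H)) + ε • rl P H) := by
      rw [two_smul, smul_add]
      abel
    rw [h5]
    exact (cg_cone _).add _ hE _ h4
  have h3 : D ∈ numTriv P := by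
    refine ⟨key D h1, key (-D) fun ε hε => ?_⟩
    rw [map_neg]
    exact h2 ε hε
  exact cls_eq_zero.2 h3

/-- The data for the convex geometry. -/
theorem exists_dat' (hample : HasAmple P) (hbase : HasBase P) :
    ∃ (n : ℕ) (b : Basis (Fin n) ℝ (N1 P))
    (ξ : N1 P →ₗ[ℝ] ℝ), (∀ i, b i ∈ lat P) ∧ (∀ x ∈ lat P, ∀ i, ∃ z : ℤ, b.repr x i = z) ∧
    (∀ x ∈ MovE P, ∀ i, |b.repr x i| ≤ ξ x) ∧ Dat (lat P) (MovE P) (rho P) ξ := by
  classical
  obtain ⟨H, hH⟩ := hample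
  obtain ⟨n, b, hb, hbz⟩ := hbase
  obtain ⟨z, hz⟩ := exists_xi b MovE_cone (ample_inn hH) (salient hH)
  obtain ⟨ξ, hξ⟩ : ∃ ξ : N1 P →ₗ[ℝ] ℝ, ∀ x, ξ x = ∑ j, (z j : ℝ) * b.repr x j := by
    refine ⟨∑ j, (z j : ℝ) • b.coord j, fun x => ?_⟩
    rw [LinearMap.sum_apply]
    exact Finset.sum_congr rfl fun j _ => by
      rw [LinearMap.smul_apply, Basis.coord_apply, smul_eq_mul]
  have hξ1 : ∀ x ∈ MovE P, ∀ i, |b.repr x i| ≤ ξ x := fun x hx i => by
    rw [hξ]; exact hz x hx i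
  refine ⟨n, b, ξ, hb, hbz, hξ1, ?_⟩
  have hint : ∀ x ∈ lat P, ∃ m : ℤ, ξ x = m := by
    intro x hx
    choose w hw using hbz x hx
    refine ⟨∑ j, z j * w j, ?_⟩
    rw [hξ]
    push_cast
    exact Finset.sum_congr rfl fun j _ => by rw [hw]
  refine ⟨MovE_cone, fun g x => rho_lat g, fun g x => rho_MovE g, hint, ?_, ?_, ?_⟩
  · intro x hx
    by_cases hn : n = 0
    · subst hn
      rw [hξ]; simp
    · exact (abs_nonneg _).trans (hξ1 x hx ⟨0, Nat.pos_of_ne_zero hn⟩)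
  · -- the stabilizer
    choose D hD using hb
    choose m hm hM using fun i => hH (D i)
    obtain ⟨m0, hm0, hM0⟩ := hH 0
    rw [add_zero] at hM0
    let u : Fin (n + 1) → N1 P := Fin.cons (cls P (rl P (m0 • H)))
      fun i => cls P (rl P (m i • H + D i))
    refine fin_stab (u := u) (fin_deg b hbz hξ1) (fun g x => rho_lat g) (fun g x => rho_MovE g)
      ?_ ?_ ?_
    · intro i
      refine Fin.cases ?_ (fun j => ?_) i
      · exact cls_rl_mem _
      · exact cls_rl_mem _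
    · intro i
      refine Fin.cases ?_ (fun j => ?_) i
      · exact Mov_sub_MovE ⟨_, cg_gen ⟨_, hM0, rfl⟩, rfl⟩
      · exact Mov_sub_MovE ⟨_, cg_gen ⟨_, hM j, rfl⟩, rfl⟩
    · intro x
      have h1 : ∀ i, b i ∈ Submodule.span ℝ (Set.range u) := by
        intro i
        have h2 : b i = u i.succ - ((m i : ℝ) / m0) • u 0 := by
          have hm0' : (m0 : ℝ) ≠ 0 := by
            have : 0 < m0 := hm0
            exact_mod_cast this.ne'
          have h3 : b i = cls P (rl P (D i)) := (hD i).symm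
          change b i = cls P (rl P (m i • H + D i)) - ((m i : ℝ) / m0) • cls P (rl P (m0 • H))
          rw [h3, map_add, map_add, rl_nsmul, rl_nsmul, (cls P).map_smul, (cls P).map_smul,
            smul_smul, div_mul_cancel₀ _ hm0']
          abel
        rw [h2]
        exact Submodule.sub_mem _ (Submodule.subset_span ⟨_, rfl⟩)
          (Submodule.smul_mem _ _ (Submodule.subset_span ⟨_, rfl⟩))
      rw [← b.sum_repr x]
      exact Submodule.sum_mem _ fun i _ => Submodule.smul_mem _ _ (h1 i)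
  · intro x hx
    refine b.ext_elem fun i => ?_
    rw [map_zero, Finsupp.zero_apply]
    exact hx (b.coord i) fun y hy => hbz y hy i

/-- The data for the convex geometry. -/
theorem IsProj.exists_dat (hP : IsProj P) : ∃ (n : ℕ) (b : Basis (Fin n) ℝ (N1 P))
    (ξ : N1 P →ₗ[ℝ] ℝ), (∀ i, b i ∈ lat P) ∧ (∀ x ∈ lat P, ∀ i, ∃ z : ℤ, b.repr x i = z) ∧
    (∀ x ∈ MovE P, ∀ i, |b.repr x i| ≤ ξ x) ∧ Dat (lat P) (MovE P) (rho P) ξ :=
  exists_dat' hP.ample hP.base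

end

end Pool.Agent.K1H17.MC
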