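import Pool.Agent.K1H17.MC.Qn

/-! The movable cone conjecture for quotients. -/

set_option autoImplicit false
set_option linter.overlappingInstances false
set_option linter.unusedSectionVars false
set_option linter.unusedVariables false

open FF Module IntermediateField Pool.Agent.W603.LV Pool.Agent.W619.PQ

namespace Pool.Agent.K1H17.MC

section

variable {k K : Type} [Field k] [Field K] [Algebra k K] {P : Set (Place k K)}

/-- The lattice spans. -/
theorem span_lat (P : Set (Place k K)) : Submodule.span ℝ (lat P : Set (N1 P)) = ⊤ := by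
  classical
  rw [Submodule.eq_top_iff']
  intro x
  obtain ⟨D, rfl⟩ := cls_surj x
  change cls P D ∈ _
  induction D using Finsupp.induction_linear with
  | zero => rw [map_zero]; exact Submodule.zero_mem _
  | add f g hf hg => rw [map_add]; exact Submodule.add_mem _ hf hg
  | single v a =>
    have h1 : a • rl P (Finsupp.single v 1) = Finsupp.single v a := by
      ext w
      rw [Finsupp.smul_apply, rl_apply]
      by_cases hvw : v = w
      · subst hvw; simp
      · simp [hvw]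
    rw [← h1, map_smul]
    exact Submodule.smul_mem _ _ (Submodule.subset_span (cls_rl_mem _))

/-- If there is an integral class in the interior of the cone, the integral classes in the cone
span. -/
theorem span_cone {C : Set (N1 P)} (hC : IsCone C) {h : N1 P} (hl : h ∈ lat P) (hi : h ∈ inn C) :
    Submodule.span ℝ {x | x ∈ lat P ∧ x ∈ C} = ⊤ := by
  rw [eq_top_iff, ← span_lat P, Submodule.span_le]
  intro y hy
  obtain ⟨ε, hε, h1⟩ := hi y
  obtain ⟨N, hN⟩ := exists_nat_ge ε⁻¹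
  have h2 : (N : ℝ) • h + y ∈ C := by
    have h3 : (N : ℝ) • h + y = ε⁻¹ • (h + ε • y) + ((N : ℝ) - ε⁻¹) • h := by
      rw [smul_add, smul_smul, inv_mul_cancel₀ hε.ne', one_smul, sub_smul]
      abel
    rw [h3]
    exact hC.add _ (hC.smul _ (inv_pos.2 hε).le _ h1) _
      (hC.smul _ (sub_nonneg.2 hN) _ (inn_sub hi))
  have h3 : (N : ℝ) • h + y ∈ lat P := by
    rw [Nat.cast_smul_eq_nsmul ℝ]
    exact add_mem (nsmul_mem hl _) hy
  have h4 : y = ((N : ℝ) • h + y) - (N : ℝ) • h := by abel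
  have h5 : (N : ℝ) • h + y ∈ Submodule.span ℝ {x | x ∈ lat P ∧ x ∈ C} :=
    Submodule.subset_span ⟨h3, h2⟩
  have h6 : h ∈ Submodule.span ℝ {x | x ∈ lat P ∧ x ∈ C} :=
    Submodule.subset_span ⟨hl, inn_sub hi⟩
  have h7 := Submodule.sub_mem _ h5 (Submodule.smul_mem _ (N : ℝ) h6)
  rw [← h4] at h7
  exact h7

/-- Finitely many of them suffice. -/
theorem exists_span {C : Set (N1 P)} (hC : IsCone C) {h : N1 P} (hl : h ∈ lat P) (hi : h ∈ inn C)
    [Module.Finite ℝ (N1 P)] : ∃ (m : ℕ) (u : Fin m → N1 P), (∀ i, u i ∈ lat P) ∧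
      (∀ i, u i ∈ C) ∧ ∀ x, x ∈ Submodule.span ℝ (Set.range u) := by
  classical
  have h1 := span_cone hC hl hi
  obtain ⟨s, hs, h2⟩ := (Submodule.fg_span_iff_fg_span_finset_subset
    {x | x ∈ lat P ∧ x ∈ C}).1 (by rw [h1]; exact Module.Finite.fg_top)
  refine ⟨s.card, fun i => (s.equivFin.symm i : N1 P), fun i => (hs (s.equivFin.symm i).2).1,
    fun i => (hs (s.equivFin.symm i).2).2, fun x => ?_⟩
  have h3 : Set.range (fun i => (s.equivFin.symm i : N1 P)) = (s : Set (N1 P)) := by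
    ext y
    constructor
    · rintro ⟨i, rfl⟩
      exact (s.equivFin.symm i).2
    · intro hy
      exact ⟨s.equivFin ⟨y, hy⟩, by simp⟩
  rw [h3, ← h2, h1]
  trivial

end

section

variable {k L : Type} [Field k] [CharZero k] [IsAlgClosed k] [Field L] [Algebra k L]
  {G : Subgroup (L ≃ₐ[k] L)} [Finite G] {P : Set (Place k L)}

/-- **The movable cone conjecture for quotients.** -/
theorem main (hP : IsProj P) (hG : G ≤ psAut P) (h : MovableConeConjecture P) :
    MovableConeConjecture (quo P G) := by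
  classical
  have := Fintype.ofFinite G
  obtain ⟨n, b, ξ, hb, hbz, hξ, hD⟩ := hP.exists_dat
  obtain ⟨A, hA, hA1, hker⟩ := hP.aut
  obtain ⟨H, hH⟩ := hP.ample
  have hfd : Module.Finite ℝ (N1 P) := Module.Finite.of_basis b
  have hfd' : Module.Finite ℝ (N1 (quo P G)) :=
    Module.Finite.of_injective (piN G P hG) (piN_inj hG)
  -- the group
  obtain ⟨G', hG'⟩ : ∃ G' : Subgroup (psAut P), G' = G.subgroupOf (psAut P) := ⟨_, rfl⟩
  have hmem : ∀ g : G, up hG g ∈ G' := fun g => by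
    rw [hG', Subgroup.mem_subgroupOf]
    exact g.2
  have hmem' : ∀ g ∈ G', ∃ g' : G, g = up hG g' := fun g hg => by
    rw [hG', Subgroup.mem_subgroupOf] at hg
    exact ⟨⟨g, hg⟩, rfl⟩
  have hG'f : Finite G' := by
    have h1 : Function.Surjective (fun g : G => (⟨up hG g, hmem g⟩ : G')) := by
      rintro ⟨g, hg⟩
      obtain ⟨g', rfl⟩ := hmem' g hg
      exact ⟨g', rfl⟩
    exact Finite.of_surjective _ h1
  -- the invariant ample class
  obtain ⟨e0, he0⟩ : ∃ e0 : N1 P, e0 = ∑ g : G, rho P (up hG g) (cls P (rl P H)) := ⟨_, rfl⟩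
  have he0Λ : e0 ∈ lat P := by
    rw [he0]
    exact sum_mem fun g _ => rho_lat _ (cls_rl_mem _)
  have he0i : e0 ∈ inn (MovE P) := by
    rw [he0, ← Finset.add_sum_erase _ _ (Finset.mem_univ (1 : G))]
    exact inn_add MovE_cone (hD.inn_rho (ample_inn hH) _) (MovE_cone.sum _ _ fun g _ =>
      rho_MovE _ (inn_sub (ample_inn hH)))
  have he0G : ∀ g : G, rho P (up hG g) e0 = e0 := by
    intro g
    rw [he0, map_sum]
    refine Fintype.sum_equiv (Equiv.mulLeft g) _ _ fun g' => ?_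
    change rho P (up hG g) (rho P (up hG g') _) = rho P (up hG (g * g')) _
    have h1 : up hG (g * g') = up hG g * up hG g' := rfl
    rw [h1, rho_mul]
  have he0G' : ∀ g ∈ G', rho P g e0 = e0 := by
    intro g hg
    obtain ⟨g', rfl⟩ := hmem' g hg
    exact he0G g'
  -- the cone upstairs
  obtain ⟨Q, hQ, hQ1, -⟩ := h
  have hQC : Q ⊆ MovE P := by
    intro x hx
    rw [← hQ1]
    refine Set.mem_iUnion.2 ⟨1, x, hx, ?_⟩
    change rho P 1 x = x
    rw [map_one]
    rfl
  have hcov : ∀ x ∈ MovE P, ∃ γ, ∃ y ∈ Q, x = rho P γ y := by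
    intro x hx
    rw [← hQ1] at hx
    obtain ⟨γ, y, hy, h⟩ := Set.mem_iUnion.1 hx
    exact ⟨γ, y, hy, h.symm⟩
  obtain ⟨Q'', hQ'', hQ''1, hQ''2⟩ := hD.fixed hb
    (fun x => by rw [b.span_eq]; trivial) (ls := fun i => b.coord i)
    (fun i x hx => hbz x hx i) (fun x hx => b.ext_elem fun i => by
      rw [map_zero, Finsupp.zero_apply]; exact hx i) hQ hQC hcov hA hA1 hker G' he0Λ he0i he0G'
  -- the cone on the quotient
  obtain ⟨m, t, ht, hQt⟩ := hQ''
  have htG : ∀ i, ∀ g : G, rho P (up hG g) (t i) = t i := fun i g =>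
    (hQ''1 (t i) (by rw [hQt]; exact gen_mem t i)).2 _ (hmem g)
  have htC : ∀ i, t i ∈ MovE P := fun i => (hQ''1 (t i) (by rw [hQt]; exact gen_mem t i)).1
  choose c u hc hu hcu using fun i => lat_down hG (ht i) (htG i)
  have huC : ∀ i, u i ∈ MovE (quo P G) := fun i => by
    rw [← piN_MovE hG, hcu]
    exact MovE_cone.smul _ (hc i).le _ (htC i)
  have hRP : RP (lat (quo P G)) (cn u) := ⟨m, u, hu, rfl⟩
  have hsub : cn u ⊆ MovE (quo P G) := cn_sub MovE_cone huC
  have hcov' : ∀ x ∈ MovE (quo P G), ∃ γ, ∃ y ∈ cn u, x = rho (quo P G) γ y := by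
    intro x hx
    obtain ⟨z, hz, y, hy, hxy⟩ := hQ''2 (piN G P hG x) ((piN_MovE hG).2 hx) (fun g hg => by
      obtain ⟨g', rfl⟩ := hmem' g hg
      exact rho_piN hG g' x)
    obtain ⟨z', hz'⟩ := exists_rst hG (z := z) fun g => hz _ (hmem g)
    rw [hQt] at hy
    obtain ⟨a, ha, hya⟩ := hy
    refine ⟨z', ∑ i, (a i * (c i)⁻¹) • u i, ⟨_, fun i => mul_nonneg (ha i)
      (inv_pos.2 (hc i)).le, rfl⟩, ?_⟩
    apply piN_inj hG
    rw [hz', hxy, hya, map_sum (piN G P hG)]
    congr 1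
    refine Finset.sum_congr rfl fun i _ => ?_
    rw [map_smul, hcu, smul_smul, mul_assoc, inv_mul_cancel₀ (hc i).ne', mul_one]
  -- the data for the quotient
  obtain ⟨c0, h0, hc0, hh0, hch0⟩ := lat_down hG he0Λ he0G
  have hh0i : h0 ∈ inn (MovE (quo P G)) := by
    intro v
    obtain ⟨ε, hε, h1⟩ := inn_smul MovE_cone he0i hc0 (piN G P hG v)
    refine ⟨ε, hε, ?_⟩
    rw [← piN_MovE hG, map_add, map_smul, hch0]
    exact h1
  obtain ⟨k', w, hw1, hw2, hw3⟩ := exists_span MovE_cone hh0 hh0i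
  have hdat : Dat (lat (quo P G)) (MovE (quo P G)) (rho (quo P G)) (ξ ∘ₗ piN G P hG) := by
    refine ⟨MovE_cone, fun g x => rho_lat g, fun g x => rho_MovE g, fun x hx =>
      hD.int _ (piN_lat hG hx), fun x hx => hD.nonneg _ ((piN_MovE hG).2 hx), ?_, ?_⟩
    · refine fin_stab (u := w) (fun B => ?_) (fun g x => rho_lat g) (fun g x => rho_MovE g)
        hw1 hw2 hw3
      refine ((fin_deg b hbz hξ B).preimage (piN_inj hG).injOn).subset ?_
      rintro x ⟨h1, h2, h3⟩
      exact ⟨piN_lat hG h1, (piN_MovE hG).2 h2, h3⟩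
    · intro x hx
      apply piN_inj hG
      rw [map_zero]
      refine b.ext_elem fun i => ?_
      rw [map_zero, Finsupp.zero_apply]
      exact hx (b.coord i ∘ₗ piN G P hG) fun y hy => hbz _ (piN_lat hG hy) i
  exact hdat.fund hRP hsub hcov'

end

end Pool.Agent.K1H17.MC
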