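import Pool.Agent.K1H17.MC.Main
import Pool.Agent.W619.PQ.Core

/-! Divisors on a product. -/

set_option autoImplicit false
set_option linter.overlappingInstances false
set_option linter.unusedSectionVars false
set_option linter.unusedVariables false

open FF Module Pool.Agent.W603.LV

namespace Pool.Agent.K1H17.MC

section

variable {k L : Type} [Field k] [Field L] [Algebra k L] {ι : Type} [Fintype ι]
  {M : ι → IntermediateField k L} {P : ∀ i, Set (Place k (M i))} {Q : Set (Place k L)}

/-- The divisor `∑ p_i^* D_i` on the product, where `s i v = p_i^* v` for the prime divisors `v` on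
the factor `Y_i`. -/
noncomputable def ext (s : ∀ i, P i → Q) {R : Type} [AddCommMonoid R] (D : ∀ i, P i →₀ R) :
    Q →₀ R := ∑ i, (D i).mapDomain (s i)

/-- The products of sections `f_i` of the divisors `D_i` on the factors. -/
def prods (D : ∀ i, P i →₀ ℤ) : Set L :=
  {F | ∃ f : ∀ i, M i, (∀ i, IsSec (P i) (D i) (f i)) ∧ F = ∏ i, (f i : L)}

/-- `Q` is the set of the prime divisors of the product `Y` of varieties `Y_i` with the sets `P i` of
prime divisors, and the prime divisors `v` on `Y_i` have the pull-backs `s i v` to `Y`; the Picard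
group of `Y` is the sum of the Picard groups of the `Y_i`. -/
structure IsProduct (Q : Set (Place k L)) (M : ι → IntermediateField k L)
    (P : ∀ i, Set (Place k (M i))) (s : ∀ i, P i → Q) : Prop where
  /-- the pull-back of `v` is a prime divisor over `v`, without ramification -/
  lies : ∀ i (v : P i), Over (s i v : Place k L) (v : Place k (M i)) 1
  /-- the other prime divisors on the product dominate `Y_i` -/
  other : ∀ i (w : Q), w ∉ Set.range (s i) → ∀ f : M i, f ≠ 0 → (w : Place k L).ord (f : L) = 0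
  /-- the pull-backs of prime divisors from `Y_i` dominate the other factors -/
  disj : ∀ i j, i ≠ j → ∀ v v', s i v ≠ s j v'
  /-- Künneth: the sections of `∑ p_i^* D_i` are linear combinations of products of sections -/
  kunneth : ∀ (D : ∀ i, P i →₀ ℤ) (F : L), IsSec Q (ext s D) F → F ∈ Submodule.span k (prods D)
  /-- divisors on the product are linearly equivalent to sums of pull-backs -/
  split : ∀ E : Q →₀ ℤ, ∃ (D : ∀ i, P i →₀ ℤ) (f : L), f ≠ 0 ∧
    ∀ w : Q, E w = ext s D w + (w : Place k L).ord f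
  /-- the birational automorphisms of `Y_i` act on the product -/
  lift : ∀ i (g : psAut (P i)), ∃ h : psAut Q,
    (∀ f : M i, (h : L ≃ₐ[k] L) f = ((g : M i ≃ₐ[k] M i) f : M i)) ∧
    ∀ j, j ≠ i → ∀ f : M j, (h : L ≃ₐ[k] L) f = f

variable {s : ∀ i, P i → Q}

theorem IsProduct.inj (h : IsProduct Q M P s) (i : ι) : Function.Injective (s i) := by
  intro v v' hvv
  apply Subtype.ext
  apply Place.ext
  funext f
  have h1 := (h.lies i v).2 f
  have h2 := (h.lies i v').2 f
  rw [hvv, h2] at h1
  simpa using h1.symm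

theorem IsProduct.ne (h : IsProduct Q M P s) {i j : ι} (hij : j ≠ i) (v : P i) :
    s i v ∉ Set.range (s j) := by
  rintro ⟨v', hv'⟩
  exact h.disj j i hij v' v hv'

theorem cases (s : ∀ i, P i → Q) (w : Q) : (∃ i v, w = s i v) ∨ ∀ i, w ∉ Set.range (s i) := by
  by_cases h : ∃ i v, w = s i v
  · exact Or.inl h
  · right
    rintro i ⟨v, rfl⟩
    exact h ⟨i, v, rfl⟩

section

variable {R : Type} [AddCommMonoid R]

theorem ext_apply (D : ∀ i, P i →₀ R) (w : Q) :
    ext s D w = ∑ i, (D i).mapDomain (s i) w := by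
  rw [ext, Finsupp.finsetSum_apply]

theorem IsProduct.ext_s (h : IsProduct Q M P s) (D : ∀ i, P i →₀ R) (i : ι) (v : P i) :
    ext s D (s i v) = D i v := by
  classical
  rw [ext_apply, Finset.sum_eq_single i]
  · exact Finsupp.mapDomain_apply (h.inj i) _ _
  · intro j _ hj
    exact Finsupp.mapDomain_of_notMem_range _ _ (h.ne hj v)
  · intro h; exact absurd (Finset.mem_univ _) h

theorem ext_other (D : ∀ i, P i →₀ R) {w : Q} (hw : ∀ i, w ∉ Set.range (s i)) :
    ext s D w = 0 := by
  rw [ext_apply]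
  exact Finset.sum_eq_zero fun i _ => Finsupp.mapDomain_of_notMem_range _ _ (hw i)

end

theorem IsProduct.ord_s (h : IsProduct Q M P s) (i : ι) (v : P i) {f : ∀ j, M j}
    (hf : ∀ j, f j ≠ 0) : (s i v : Place k L).ord (∏ j, (f j : L)) =
      (v : Place k (M i)).ord (f i) := by
  classical
  have hf' : ∀ j, (f j : L) ≠ 0 := fun j => by simpa using hf j
  rw [Pool.Agent.W619.PQ.ord_prod Finset.univ _ _ fun j _ => hf' j, Finset.sum_eq_single i]
  · have h1 := (h.lies i v).2 (f i)
    simpa using h1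
  · intro j _ hj
    exact h.other j _ (h.ne hj v) _ (hf j)
  · intro h; exact absurd (Finset.mem_univ _) h

theorem IsProduct.ord_o (h : IsProduct Q M P s) {w : Q} (hw : ∀ i, w ∉ Set.range (s i))
    {f : ∀ j, M j} (hf : ∀ j, f j ≠ 0) : (w : Place k L).ord (∏ j, (f j : L)) = 0 := by
  have hf' : ∀ j, (f j : L) ≠ 0 := fun j => by simpa using hf j
  rw [Pool.Agent.W619.PQ.ord_prod Finset.univ _ _ fun j _ => hf' j]
  exact Finset.sum_eq_zero fun j _ => h.other j _ (hw j) _ (hf j)

theorem IsProduct.prod_sec (h : IsProduct Q M P s) {D : ∀ i, P i →₀ ℤ} {f : ∀ i, M i}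
    (hf : ∀ i, IsSec (P i) (D i) (f i)) : IsSec Q (ext s D) (∏ i, (f i : L)) := by
  refine ⟨Finset.prod_ne_zero_iff.2 fun i _ => by simpa using (hf i).1, fun w => ?_⟩
  rcases cases s w with ⟨i, v, rfl⟩ | hw
  · rw [h.ext_s, h.ord_s i v fun j => (hf j).1]
    exact (hf i).2 v
  · rw [ext_other D hw, h.ord_o hw fun j => (hf j).1, neg_zero]

theorem IsProduct.sec_split (h : IsProduct Q M P s) {D : ∀ i, P i →₀ ℤ} {F : L}
    (hF : IsSec Q (ext s D) F) (i : ι) : ∃ f, IsSec (P i) (D i) f := by
  have h1 := h.kunneth D F hF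
  by_contra hcon
  have h2 : prods D = ∅ := by
    ext G
    constructor
    · rintro ⟨f, hf, -⟩
      exact hcon ⟨f i, hf i⟩
    · intro h; exact h.elim
  rw [h2, Submodule.span_empty, Submodule.mem_bot] at h1
  exact hF.1 h1

theorem IsProduct.mov_split (h : IsProduct Q M P s) {D : ∀ i, P i →₀ ℤ}
    (hD : Movable Q (ext s D)) (i : ι) : Movable (P i) (D i) := by
  intro v
  obtain ⟨F, hF, hF1⟩ := hD (s i v)
  rw [h.ext_s] at hF1
  by_contra hcon
  push Not at hcon
  let W : Submodule k L :=
    { carrier := {f | Ge (s i v : Place k L) (-D i v + 1) f}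
      add_mem' := fun ha hb => ha.add hb
      zero_mem' := Ge.zero
      smul_mem' := fun c x hx => by
        rw [Algebra.smul_def]
        have := (Ge.const (P := (s i v : Place k L)) c).mul hx
        rwa [zero_add] at this }
  have h1 : Submodule.span k (prods D) ≤ W := by
    rw [Submodule.span_le]
    rintro _ ⟨f, hf, rfl⟩
    have h2 := hcon (f i) (hf i)
    have h3 := (hf i).2 v
    right
    rw [h.ord_s i v fun j => (hf j).1]
    omega
  have h2 : Ge (s i v : Place k L) (-D i v + 1) F := h1 (h.kunneth D F hF)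
  have h3 := h2.resolve_left hF.1
  omega

theorem IsProduct.mov_prod (h : IsProduct Q M P s) {D : ∀ i, P i →₀ ℤ}
    (hD : ∀ i, Movable (P i) (D i)) : Movable Q (ext s D) := by
  classical
  choose f hf using fun i => (hD i).sec
  intro w
  rcases cases s w with ⟨i, v, rfl⟩ | hw
  · obtain ⟨g, hg, hg1⟩ := hD i v
    have h1 : ∀ j, IsSec (P j) (D j) (Function.update f i g j) := by
      intro j
      by_cases hj : j = i
      · subst hj
        rw [Function.update_self]; exact hg
      · rw [Function.update_of_ne hj]; exact hf j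
    refine ⟨_, h.prod_sec h1, ?_⟩
    rw [h.ext_s, h.ord_s i v fun j => (h1 j).1, Function.update_self]
    exact hg1
  · refine ⟨_, h.prod_sec hf, ?_⟩
    rw [ext_other D hw, h.ord_o hw fun j => (hf j).1, neg_zero]

/-- linear equivalence -/
theorem sec_equiv {D E : Q →₀ ℤ} {f : L} (hf : f ≠ 0)
    (hE : ∀ w : Q, E w = D w + (w : Place k L).ord f) {F : L} (hF : IsSec Q E F) :
    IsSec Q D (F * f) := by
  refine ⟨mul_ne_zero hF.1 hf, fun w => ?_⟩
  rw [Place.ord_mul _ hF.1 hf]
  have h1 := hF.2 w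
  rw [hE] at h1
  linarith

theorem mov_equiv {D E : Q →₀ ℤ} {f : L} (hf : f ≠ 0)
    (hE : ∀ w : Q, E w = D w + (w : Place k L).ord f) (h : Movable Q E) : Movable Q D := by
  intro w
  obtain ⟨F, hF, h1⟩ := h w
  refine ⟨F * f, sec_equiv hf hE hF, ?_⟩
  rw [Place.ord_mul _ hF.1 hf, h1, hE]
  ring

/-- principal divisors -/
theorem princ {D E : Q →₀ ℤ} {f : L} (hf : f ≠ 0)
    (hE : ∀ w : Q, E w = D w + (w : Place k L).ord f) :
    rl Q (E - D) ∈ effC Q ∧ -rl Q (E - D) ∈ effC Q := by
  constructor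
  · refine cg_gen ⟨E - D, ⟨f⁻¹, inv_ne_zero hf, fun w => ?_⟩, rfl⟩
    rw [Place.ord_inv, Finsupp.sub_apply, hE]
    linarith
  · rw [← map_neg]
    refine cg_gen ⟨-(E - D), ⟨f, hf, fun w => ?_⟩, rfl⟩
    rw [Finsupp.neg_apply, Finsupp.sub_apply, hE]
    linarith

theorem princ_num {D E : Q →₀ ℤ} {f : L} (hf : f ≠ 0)
    (hE : ∀ w : Q, E w = D w + (w : Place k L).ord f) : cls Q (rl Q E) = cls Q (rl Q D) := by
  rw [cls_eq, ← map_sub]
  exact ⟨sub_clo (princ hf hE).1, sub_clo (princ hf hE).2⟩

end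

end Pool.Agent.K1H17.MC
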