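import Pool.Agent.K1H17.MC.Pr

/-! Numerical classes on a product. -/

set_option autoImplicit false
set_option linter.overlappingInstances false
set_option linter.unusedSectionVars false
set_option linter.unusedVariables false

open FF Module Pool.Agent.W603.LV

namespace Pool.Agent.K1H17.MC

section

variable {k L : Type} [Field k] [Field L] [Algebra k L] {ι : Type} [Fintype ι]
  {M : ι → IntermediateField k L} {P : ∀ i, Set (Place k (M i))} {Q : Set (Place k L)}
  {s : ∀ i, P i → Q}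

/-- The pull-back of real divisors. -/
noncomputable def pP (s : ∀ i, P i → Q) : (∀ i, P i →₀ ℝ) →ₗ[ℝ] (Q →₀ ℝ) :=
  ∑ i, Finsupp.lmapDomain ℝ ℝ (s i) ∘ₗ LinearMap.proj i

theorem pP_eq (x : ∀ i, P i →₀ ℝ) : pP s x = ext s x := by
  rw [pP, LinearMap.sum_apply]
  rfl

theorem IsProduct.pP_s (h : IsProduct Q M P s) (x : ∀ i, P i →₀ ℝ) (i : ι) (v : P i) :
    pP s x (s i v) = x i v := by
  rw [pP_eq, h.ext_s]

theorem pP_other (x : ∀ i, P i →₀ ℝ) {w : Q} (hw : ∀ i, w ∉ Set.range (s i)) :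
    pP s x w = 0 := by
  rw [pP_eq, ext_other x hw]

theorem IsProduct.eq_of (h : IsProduct Q M P s) {x : ∀ i, P i →₀ ℝ} {y : Q →₀ ℝ}
    (h1 : ∀ i v, y (s i v) = x i v) (h2 : ∀ w, (∀ i, w ∉ Set.range (s i)) → y w = 0) :
    y = pP s x := by
  ext w
  rcases cases s w with ⟨i, v, rfl⟩ | hw
  · rw [h1, h.pP_s]
  · rw [h2 w hw, pP_other x hw]

theorem IsProduct.pP_rl (h : IsProduct Q M P s) (D : ∀ i, P i →₀ ℤ) :
    rl Q (ext s D) = pP s fun i => rl (P i) (D i) := by
  refine h.eq_of (fun i v => ?_) fun w hw => ?_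
  · rw [rl_apply, h.ext_s, rl_apply]
  · rw [rl_apply, ext_other D hw, Int.cast_zero]

theorem movable_zero (P : Set (Place k L)) : Movable P 0 := by
  intro v
  refine ⟨1, ⟨one_ne_zero, fun w => ?_⟩, ?_⟩
  · rw [Place.ord_one]; simp
  · rw [Place.ord_one]; simp

theorem IsProduct.pP_mov (h : IsProduct Q M P s) {x : ∀ i, P i →₀ ℝ}
    (hx : ∀ i, x i ∈ movC (P i)) : pP s x ∈ movC Q := by
  classical
  have h1 : ∀ i, ∀ y ∈ movC (P i), pP s (Pi.single i y) ∈ movC Q := by
    intro i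
    have h2 : IsCone {y : P i →₀ ℝ | pP s (Pi.single i y) ∈ movC Q} :=
      pre_cone (pP s ∘ₗ LinearMap.single ℝ (fun i => P i →₀ ℝ) i) (cg_cone _)
    refine fun y hy => cg_sub h2 ?_ hy
    rintro _ ⟨D, hD, rfl⟩
    have h3 : (fun j => rl (P j) ((Pi.single i D : ∀ j, P j →₀ ℤ) j)) =
        (Pi.single i (rl (P i) D) : ∀ j, P j →₀ ℝ) := by
      funext j
      by_cases hj : j = i
      · subst hj; rw [Pi.single_eq_same, Pi.single_eq_same]
      · rw [Pi.single_eq_of_ne hj, Pi.single_eq_of_ne hj, map_zero]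
    change pP s (Pi.single i (rl (P i) D)) ∈ movC Q
    rw [← h3, ← h.pP_rl]
    refine cg_gen ⟨_, h.mov_prod fun j => ?_, rfl⟩
    by_cases hj : j = i
    · subst hj; rw [Pi.single_eq_same]; exact hD
    · rw [Pi.single_eq_of_ne hj]; exact movable_zero _
  have h2 : pP s x = ∑ i, pP s (Pi.single i (x i)) := by
    rw [← map_sum, Finset.univ_sum_single]
  rw [h2]
  exact (cg_cone _).sum _ _ fun i _ => h1 i _ (hx i)

theorem IsProduct.pP_eff (h : IsProduct Q M P s) {x : ∀ i, P i →₀ ℝ}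
    (hx : ∀ i, x i ∈ effC (P i)) : pP s x ∈ effC Q := by
  classical
  have h1 : ∀ i, ∀ y ∈ effC (P i), pP s (Pi.single i y) ∈ effC Q := by
    intro i
    have h2 : IsCone {y : P i →₀ ℝ | pP s (Pi.single i y) ∈ effC Q} :=
      pre_cone (pP s ∘ₗ LinearMap.single ℝ (fun i => P i →₀ ℝ) i) (cg_cone _)
    refine fun y hy => cg_sub h2 ?_ hy
    rintro _ ⟨D, ⟨f, hf⟩, rfl⟩
    have h3 : (fun j => rl (P j) ((Pi.single i D : ∀ j, P j →₀ ℤ) j)) =
        (Pi.single i (rl (P i) D) : ∀ j, P j →₀ ℝ) := by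
      funext j
      by_cases hj : j = i
      · subst hj; rw [Pi.single_eq_same, Pi.single_eq_same]
      · rw [Pi.single_eq_of_ne hj, Pi.single_eq_of_ne hj, map_zero]
    change pP s (Pi.single i (rl (P i) D)) ∈ effC Q
    rw [← h3, ← h.pP_rl]
    have h4 : ∀ j, ∃ g, IsSec (P j) ((Pi.single i D : ∀ j, P j →₀ ℤ) j) g := by
      intro j
      by_cases hj : j = i
      · subst hj; rw [Pi.single_eq_same]; exact ⟨f, hf⟩
      · rw [Pi.single_eq_of_ne hj]; exact (movable_zero _).sec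
    choose g hg using h4
    exact cg_gen ⟨_, ⟨_, h.prod_sec hg⟩, rfl⟩
  have h2 : pP s x = ∑ i, pP s (Pi.single i (x i)) := by
    rw [← map_sum, Finset.univ_sum_single]
  rw [h2]
  exact (cg_cone _).sum _ _ fun i _ => h1 i _ (hx i)

/-- sections of sums -/
theorem sec_sum {n : ℕ} {E : Fin n → (Q →₀ ℤ)} {F : Fin n → L} (hF : ∀ j, IsSec Q (E j) (F j))
    (m : Fin n → ℕ) : IsSec Q (∑ j, m j • E j) (∏ j, F j ^ m j) := by
  refine ⟨Finset.prod_ne_zero_iff.2 fun j _ => pow_ne_zero _ (hF j).1, fun w => ?_⟩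
  rw [Pool.Agent.W619.PQ.ord_prod Finset.univ _ _ fun j _ => pow_ne_zero _ (hF j).1,
    Finsupp.finsetSum_apply, ← Finset.sum_neg_distrib]
  refine Finset.sum_le_sum fun j _ => ?_
  rw [Place.ord_pow, Finsupp.smul_apply, nsmul_eq_mul]
  have h1 := mul_le_mul_of_nonneg_left ((hF j).2 w) (Int.natCast_nonneg (m j))
  linarith

/-- **Effective real divisors which are pull-backs.** -/
theorem IsProduct.eff_split (h : IsProduct Q M P s) {x : ∀ i, P i →₀ ℝ} (hx : pP s x ∈ effC Q)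
    (i : ι) : x i ∈ effC (P i) := by
  classical
  obtain ⟨n, t, ht, a, ha, hxa⟩ := hx
  choose E hE hEt using ht
  choose F hF using hE
  -- the cone of the coefficients
  obtain ⟨Λ, hΛ⟩ : ∃ Λ : AddSubgroup (Fin n → ℝ), ∀ c, c ∈ Λ ↔ ∀ j, ∃ z : ℤ, c j = z :=
    ⟨{ carrier := {c | ∀ j, ∃ z : ℤ, c j = z}
       add_mem' := by
        intro c d hc hd j
        obtain ⟨z, hz⟩ := hc j
        obtain ⟨z', hz'⟩ := hd j
        exact ⟨z + z', by rw [Pi.add_apply, hz, hz']; push_cast; rfl⟩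
       zero_mem' := fun j => ⟨0, by simp⟩
       neg_mem' := by
        intro c hc j
        obtain ⟨z, hz⟩ := hc j
        exact ⟨-z, by rw [Pi.neg_apply, hz]; push_cast; rfl⟩ }, fun c => Iff.rfl⟩
  have hC0 : RP Λ (cn fun j : Fin n => (Pi.single j 1 : Fin n → ℝ)) := by
    refine RP.of_fintype _ fun j => (hΛ _).2 fun j' => ?_
    by_cases hj : j' = j
    · subst hj; exact ⟨1, by simp⟩
    · exact ⟨0, by rw [Pi.single_eq_of_ne hj]; simp⟩
  have hC0' : ∀ c : Fin n → ℝ, c ∈ cn (fun j : Fin n => (Pi.single j 1 : Fin n → ℝ)) ↔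
      ∀ j, 0 ≤ c j := by
    intro c
    constructor
    · rintro ⟨b, hb, rfl⟩ j
      rw [Finset.sum_apply]
      refine Finset.sum_nonneg fun j' _ => ?_
      rw [Pi.smul_apply, smul_eq_mul]
      refine mul_nonneg (hb j') ?_
      change 0 ≤ (Pi.single j' 1 : Fin n → ℝ) j
      by_cases hj : j = j'
      · subst hj; simp
      · rw [Pi.single_eq_of_ne hj]
    · intro hc
      refine ⟨c, hc, ?_⟩
      funext j
      simp [Finset.sum_apply, Pi.single_apply]
  let W : Finset Q := (Finset.univ.biUnion fun j => (E j).support).filter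
    fun w => ∀ i, w ∉ Set.range (s i)
  let ℓ : Q × Bool → (Fin n → ℝ) →ₗ[ℝ] ℝ := fun p =>
    (if p.2 then (1 : ℝ) else -1) • ∑ j, (E j p.1 : ℝ) • LinearMap.proj j
  have hℓ : ∀ p c, ℓ p c = (if p.2 then (1 : ℝ) else -1) * ∑ j, (E j p.1 : ℝ) * c j := by
    intro p c
    rw [LinearMap.smul_apply, LinearMap.sum_apply, smul_eq_mul]
    rfl
  obtain ⟨m, u, hu, hC1⟩ := RP.cut_many hC0 (W ×ˢ Finset.univ) ℓ fun p _ c hc => by
    choose z hz using (hΛ c).1 hc
    rw [hℓ]
    refine ⟨(if p.2 then 1 else -1) * ∑ j, E j p.1 * z j, ?_⟩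
    push_cast
    congr 1
    exact Finset.sum_congr rfl fun j _ => by rw [hz]
  have hmem : ∀ c : Fin n → ℝ, c ∈ cn u ↔ (∀ j, 0 ≤ c j) ∧
      ∀ w : Q, (∀ i, w ∉ Set.range (s i)) → ∑ j, (E j w : ℝ) * c j = 0 := by
    intro c
    rw [← hC1, Set.mem_ofPred_eq, hC0']
    constructor
    · rintro ⟨h1, h2⟩
      refine ⟨h1, fun w hw => ?_⟩
      by_cases hwW : w ∈ W
      · have h3 := h2 (w, true) (Finset.mem_product.2 ⟨hwW, Finset.mem_univ _⟩)
        have h4 := h2 (w, false) (Finset.mem_product.2 ⟨hwW, Finset.mem_univ _⟩)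
        rw [hℓ] at h3 h4
        simp only [if_true, Bool.false_eq_true, if_false] at h3 h4
        linarith
      · refine Finset.sum_eq_zero fun j _ => ?_
        have h3 : E j w = 0 := by
          by_contra h4
          exact hwW (Finset.mem_filter.2 ⟨Finset.mem_biUnion.2 ⟨j, Finset.mem_univ _,
            Finsupp.mem_support_iff.2 h4⟩, hw⟩)
        rw [h3]; simp
    · rintro ⟨h1, h2⟩
      refine ⟨h1, fun p hp => ?_⟩
      rw [hℓ, h2 p.1 (Finset.mem_filter.1 (Finset.mem_product.1 hp).1).2, mul_zero]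
  have hxw : ∀ w, pP s x w = ∑ j, (E j w : ℝ) * a j := by
    intro w
    rw [hxa, Finsupp.finsetSum_apply]
    refine Finset.sum_congr rfl fun j _ => ?_
    rw [Finsupp.smul_apply, hEt, rl_apply, smul_eq_mul, mul_comm]
  have haC : a ∈ cn u := (hmem a).2 ⟨ha, fun w hw => by rw [← hxw, pP_other x hw]⟩
  obtain ⟨b, hb, hab⟩ := haC
  have hul : ∀ l, u l ∈ cn u := fun l => gen_mem u l
  choose z hz using fun l => (hΛ (u l)).1 (hu l)
  have hz0 : ∀ l j, 0 ≤ z l j := fun l j => by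
    have := ((hmem _).1 (hul l)).1 j
    rw [hz] at this
    exact_mod_cast this
  -- the integral divisors
  let El : Fin m → (Q →₀ ℤ) := fun l => ∑ j, (z l j).toNat • E j
  have hElw : ∀ l w, ((El l w : ℤ) : ℝ) = ∑ j, (E j w : ℝ) * u l j := by
    intro l w
    change (((∑ j, (z l j).toNat • E j : Q →₀ ℤ) w : ℤ) : ℝ) = _
    rw [Finsupp.finsetSum_apply, Int.cast_sum]
    refine Finset.sum_congr rfl fun j _ => ?_
    rw [Finsupp.smul_apply, nsmul_eq_mul, Int.toNat_of_nonneg (hz0 l j), hz]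
    push_cast
    ring
  let Dl : Fin m → ∀ i, P i →₀ ℤ := fun l i => (El l).comapDomain (s i) (h.inj i).injOn
  have hDl : ∀ l, El l = ext s (Dl l) := by
    intro l
    ext w
    rcases cases s w with ⟨i, v, rfl⟩ | hw
    · rw [h.ext_s]
      rfl
    · rw [ext_other _ hw]
      have h1 := hElw l w
      rw [((hmem _).1 (hul l)).2 w hw] at h1
      exact_mod_cast h1
  have hsec : ∀ l, ∃ f, IsSec (P i) (Dl l i) f := fun l => by
    refine h.sec_split (F := ∏ j, F j ^ (z l j).toNat) ?_ i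
    rw [← hDl]
    exact sec_sum hF _
  have hxi : x i = ∑ l, b l • rl (P i) (Dl l i) := by
    ext v
    rw [← h.pP_s x i v, hxw, hab, Finsupp.finsetSum_apply]
    have h1 : ∀ l, (b l • rl (P i) (Dl l i)) v = b l * ∑ j, (E j (s i v) : ℝ) * u l j := by
      intro l
      rw [Finsupp.smul_apply, rl_apply, smul_eq_mul, ← hElw]
      rfl
    rw [Finset.sum_congr rfl fun l _ => h1 l]
    simp only [Finset.sum_apply, Pi.smul_apply, smul_eq_mul, Finset.mul_sum]
    rw [Finset.sum_comm]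
    exact Finset.sum_congr rfl fun l _ => Finset.sum_congr rfl fun j _ => by ring
  rw [hxi]
  exact (cg_cone _).sum _ _ fun l _ => (cg_cone _).smul _ (hb l) _ (cg_gen ⟨_, hsec l, rfl⟩)

/-- Every real divisor is a sum of pull-backs and a (real) principal divisor. -/
theorem IsProduct.real_split (h : IsProduct Q M P s) (b : Q →₀ ℝ) :
    ∃ b' : ∀ i, P i →₀ ℝ, b - pP s b' ∈ effC Q ∧ -(b - pP s b') ∈ effC Q := by
  induction b using Finsupp.induction_linear with
  | zero =>
    refine ⟨0, ?_⟩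
    rw [map_zero, sub_zero, neg_zero]
    exact ⟨(cg_cone _).zero, (cg_cone _).zero⟩
  | add f g hf hg =>
    obtain ⟨f', hf1, hf2⟩ := hf
    obtain ⟨g', hg1, hg2⟩ := hg
    refine ⟨f' + g', ?_, ?_⟩
    · have h1 : f + g - pP s (f' + g') = (f - pP s f') + (g - pP s g') := by
        rw [map_add]; abel
      rw [h1]
      exact (cg_cone _).add _ hf1 _ hg1
    · have h1 : -(f + g - pP s (f' + g')) = -(f - pP s f') + -(g - pP s g') := by
        rw [map_add]; abel
      rw [h1]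
      exact (cg_cone _).add _ hf2 _ hg2
  | single w a =>
    obtain ⟨D, f, hf, hE⟩ := h.split (Finsupp.single w 1)
    obtain ⟨h1, h2⟩ := princ hf hE
    have h3 : rl Q (Finsupp.single w 1 - ext s D) = Finsupp.single w 1 -
        pP s fun i => rl (P i) (D i) := by
      rw [map_sub, h.pP_rl]
      congr 1
      ext w'
      rw [rl_apply]
      by_cases hw : w = w'
      · subst hw; simp
      · simp [hw]
    rw [h3] at h1 h2
    have h4 : Finsupp.single w a = a • (Finsupp.single w 1 : Q →₀ ℝ) := by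
      rw [Finsupp.smul_single, smul_eq_mul, mul_one]
    refine ⟨a • fun i => rl (P i) (D i), ?_⟩
    have h5 : Finsupp.single w a - pP s (a • fun i => rl (P i) (D i)) =
        a • (Finsupp.single w 1 - pP s fun i => rl (P i) (D i)) := by
      rw [h4, map_smul, smul_sub]
    rw [h5]
    rcases le_total 0 a with ha | ha
    · refine ⟨(cg_cone _).smul _ ha _ h1, ?_⟩
      rw [← smul_neg]
      exact (cg_cone _).smul _ ha _ h2
    · refine ⟨?_, ?_⟩
      · have h6 : ∀ y : Q →₀ ℝ, a • y = (-a) • -y := fun y => by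
          rw [smul_neg, neg_smul, neg_neg]
        rw [h6]
        exact (cg_cone _).smul _ (by linarith) _ h2
      · rw [← neg_smul]
        exact (cg_cone _).smul _ (by linarith) _ h1

theorem IsProduct.clo_split (h : IsProduct Q M P s) {x : ∀ i, P i →₀ ℝ}
    (hx : pP s x ∈ clo (effC Q)) (i : ι) : x i ∈ clo (effC (P i)) := by
  obtain ⟨b, hb⟩ := hx
  obtain ⟨b', -, hb'⟩ := h.real_split b
  refine ⟨b' i, fun ε hε => ?_⟩
  have h1 : pP s (x + ε • b') ∈ effC Q := by
    have h2 : pP s (x + ε • b') = (pP s x + ε • b) + ε • (-(b - pP s b')) := by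
      rw [map_add, map_smul, smul_neg, smul_sub]; abel
    rw [h2]
    exact (cg_cone _).add _ (hb ε hε) _ ((cg_cone _).smul _ hε.le _ hb')
  exact h.eff_split h1 i

theorem IsProduct.num_split (h : IsProduct Q M P s) {x : ∀ i, P i →₀ ℝ} :
    pP s x ∈ numTriv Q ↔ ∀ i, x i ∈ numTriv (P i) := by
  classical
  constructor
  · rintro ⟨h1, h2⟩ i
    refine ⟨h.clo_split h1 i, ?_⟩
    rw [← map_neg] at h2
    exact h.clo_split h2 i
  · intro hx
    have h1 : ∀ y : ∀ i, P i →₀ ℝ, (∀ i, y i ∈ clo (effC (P i))) → pP s y ∈ clo (effC Q) := by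
      intro y hy
      choose b hb using hy
      refine ⟨pP s b, fun ε hε => ?_⟩
      rw [← map_smul, ← map_add]
      exact h.pP_eff fun i => hb i ε hε
    refine ⟨h1 x fun i => (hx i).1, ?_⟩
    rw [← map_neg]
    exact h1 (-x) fun i => (hx i).2

end

end Pool.Agent.K1H17.MC
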