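import Pool.Agent.K1H17.MC.Pr2

/-! The movable cone conjecture for products and their quotients. -/

set_option autoImplicit false
set_option linter.overlappingInstances false
set_option linter.unusedSectionVars false
set_option linter.unusedVariables false

open FF Module Pool.Agent.W603.LV

namespace Pool.Agent.K1H17.MC

section

variable {k L : Type} [Field k] [Field L] [Algebra k L] {ι : Type} [Fintype ι]
  {M : ι → IntermediateField k L} {P : ∀ i, Set (Place k (M i))} {Q : Set (Place k L)}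
  {s : ∀ i, P i → Q}

theorem IsProduct.num_le [DecidableEq ι] (h : IsProduct Q M P s) (i : ι) :
    numTriv (P i) ≤ (numTriv Q).comap (pP s ∘ₗ LinearMap.single ℝ (fun i => P i →₀ ℝ) i) := by
  intro x hx
  change pP s (Pi.single i x) ∈ numTriv Q
  rw [h.num_split]
  intro j
  by_cases hj : j = i
  · subst hj; rw [Pi.single_eq_same]; exact hx
  · rw [Pi.single_eq_of_ne hj]; exact (numTriv _).zero_mem

/-- The pull-back of classes from a factor. -/
noncomputable def IsProduct.pN1 [DecidableEq ι] (h : IsProduct Q M P s) (i : ι) :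
    N1 (P i) →ₗ[ℝ] N1 Q :=
  (numTriv (P i)).mapQ (numTriv Q) (pP s ∘ₗ LinearMap.single ℝ (fun i => P i →₀ ℝ) i) (h.num_le i)

/-- The classes on the product. -/
noncomputable def IsProduct.pN [DecidableEq ι] (h : IsProduct Q M P s) :
    (∀ i, N1 (P i)) →ₗ[ℝ] N1 Q := ∑ i, h.pN1 i ∘ₗ LinearMap.proj i

variable [DecidableEq ι]

theorem IsProduct.pN1_cls (h : IsProduct Q M P s) (i : ι) (x : P i →₀ ℝ) :
    h.pN1 i (cls (P i) x) = cls Q (pP s (Pi.single i x)) := rfl

theorem IsProduct.pN_apply (h : IsProduct Q M P s) (y : ∀ i, N1 (P i)) :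
    h.pN y = ∑ i, h.pN1 i (y i) := by
  rw [IsProduct.pN, LinearMap.sum_apply]
  rfl

theorem IsProduct.pN_cls (h : IsProduct Q M P s) (x : ∀ i, P i →₀ ℝ) :
    (h.pN fun i => cls (P i) (x i)) = cls Q (pP s x) := by
  rw [h.pN_apply]
  have h1 : ∀ i, h.pN1 i (cls (P i) (x i)) = cls Q (pP s (Pi.single i (x i))) := fun i => rfl
  rw [Finset.sum_congr rfl fun i _ => h1 i, ← map_sum, ← map_sum, Finset.univ_sum_single]

theorem IsProduct.pN_inj (h : IsProduct Q M P s) : Function.Injective h.pN := by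
  rw [← LinearMap.ker_eq_bot, LinearMap.ker_eq_bot']
  intro y hy
  choose x hx using fun i => cls_surj (y i)
  have h1 : y = fun i => cls (P i) (x i) := funext fun i => (hx i).symm
  rw [h1, h.pN_cls, cls_eq_zero, h.num_split] at hy
  rw [h1]
  funext i
  exact cls_eq_zero.2 (hy i)

theorem IsProduct.pN_surj (h : IsProduct Q M P s) (z : N1 Q) : ∃ y, h.pN y = z := by
  obtain ⟨b, rfl⟩ := cls_surj z
  obtain ⟨b', h1, h2⟩ := h.real_split b
  refine ⟨fun i => cls (P i) (b' i), ?_⟩
  rw [h.pN_cls, eq_comm, cls_eq]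
  exact ⟨sub_clo h1, sub_clo h2⟩

theorem IsProduct.pN_lat (h : IsProduct Q M P s) {y : ∀ i, N1 (P i)} (hy : ∀ i, y i ∈ lat (P i)) :
    h.pN y ∈ lat Q := by
  choose D hD using hy
  have h1 : y = fun i => cls (P i) (rl (P i) (D i)) := funext fun i => (hD i).symm
  rw [h1, h.pN_cls, ← h.pP_rl]
  exact cls_rl_mem _

theorem IsProduct.aux (h : IsProduct Q M P s) {C : Set (Q →₀ ℝ)} {S : Set (Q →₀ ℤ)}
    {C' : ∀ i, Set (N1 (P i))} (hC' : ∀ i, IsCone (C' i))
    (hC : C = cg {x | ∃ D, D ∈ S ∧ x = rl Q D})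
    (hS : ∀ E ∈ S, ∃ D : ∀ i, P i →₀ ℤ, cls Q (rl Q E) = cls Q (rl Q (ext s D)) ∧
      ∀ i, cls (P i) (rl (P i) (D i)) ∈ C' i) {y : ∀ i, N1 (P i)} (hy : h.pN y ∈ cls Q '' C)
    (i : ι) : y i ∈ C' i := by
  have h1 : IsCone {y : ∀ i, N1 (P i) | ∀ i, y i ∈ C' i} := by
    refine ⟨fun i => (hC' i).zero, fun x hx y hy i => (hC' i).add _ (hx i) _ (hy i),
      fun c hc x hx i => (hC' i).smul _ hc _ (hx i)⟩
  have h2 : IsCone {x | cls Q x ∈ h.pN '' {y : ∀ i, N1 (P i) | ∀ i, y i ∈ C' i}} :=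
    pre_cone (cls Q) (image_cone h.pN h1)
  obtain ⟨x, hx, hxy⟩ := hy
  rw [hC] at hx
  have h3 := cg_sub h2 (by
    rintro _ ⟨E, hE, rfl⟩
    obtain ⟨D, hD1, hD2⟩ := hS E hE
    refine ⟨fun i => cls (P i) (rl (P i) (D i)), hD2, ?_⟩
    rw [h.pN_cls, ← h.pP_rl, ← hD1]) hx
  obtain ⟨y', hy', hyx⟩ := h3
  rw [hxy] at hyx
  rw [← h.pN_inj hyx]
  exact hy' i

theorem IsProduct.pN_Mov (h : IsProduct Q M P s) {y : ∀ i, N1 (P i)} :
    h.pN y ∈ Mov Q ↔ ∀ i, y i ∈ Mov (P i) := by
  constructor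
  · intro hy
    refine h.aux (C' := fun i => Mov (P i)) (fun i => Mov_cone) rfl ?_ hy
    intro E hE
    obtain ⟨D, f, hf, hDf⟩ := h.split E
    refine ⟨D, princ_num hf hDf, fun i => ⟨_, cg_gen ⟨_, ?_, rfl⟩, rfl⟩⟩
    exact h.mov_split (mov_equiv hf hDf hE) i
  · intro hy
    choose x hx hxy using hy
    have h1 : y = fun i => cls (P i) (x i) := funext fun i => (hxy i).symm
    rw [h1, h.pN_cls]
    exact ⟨_, h.pP_mov hx, rfl⟩

theorem IsProduct.pN_Eff (h : IsProduct Q M P s) {y : ∀ i, N1 (P i)} :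
    h.pN y ∈ Eff Q ↔ ∀ i, y i ∈ Eff (P i) := by
  constructor
  · intro hy
    refine h.aux (C' := fun i => Eff (P i)) (fun i => Eff_cone) rfl ?_ hy
    rintro E ⟨F, hF⟩
    obtain ⟨D, f, hf, hDf⟩ := h.split E
    refine ⟨D, princ_num hf hDf, fun i => ⟨_, cg_gen ⟨_, ?_, rfl⟩, rfl⟩⟩
    exact h.sec_split (sec_equiv hf hDf hF) i
  · intro hy
    choose x hx hxy using hy
    have h1 : y = fun i => cls (P i) (x i) := funext fun i => (hxy i).symm
    rw [h1, h.pN_cls]
    exact ⟨_, h.pP_eff hx, rfl⟩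

theorem IsProduct.pN_MovE (h : IsProduct Q M P s) {y : ∀ i, N1 (P i)} :
    h.pN y ∈ MovE Q ↔ ∀ i, y i ∈ MovE (P i) := by
  constructor
  · rintro ⟨⟨b, hb⟩, h2⟩ i
    obtain ⟨b', rfl⟩ := h.pN_surj b
    refine ⟨⟨b' i, fun ε hε => ?_⟩, h.pN_Eff.1 h2 i⟩
    have h3 := hb ε hε
    rw [← map_smul, ← map_add, h.pN_Mov] at h3
    exact h3 i
  · intro hy
    choose b hb using fun i => (hy i).1
    refine ⟨⟨h.pN b, fun ε hε => ?_⟩, h.pN_Eff.2 fun i => (hy i).2⟩
    rw [← map_smul, ← map_add, h.pN_Mov]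
    exact fun i => hb i ε hε

/-- The action of the automorphisms of the factors. -/
theorem IsProduct.act_lift (h : IsProduct Q M P s) (i : ι) (g : psAut (P i)) :
    ∃ g' : psAut Q, ∀ y : ∀ i, N1 (P i),
      act g' (h.pN y) = h.pN (Function.update y i (act g (y i))) := by
  obtain ⟨g', h1, h2⟩ := h.lift i g
  refine ⟨g', fun y => ?_⟩
  choose x hx using fun i => cls_surj (y i)
  have hy : y = fun i => cls (P i) (x i) := funext fun i => (hx i).symm
  have hup : Function.update y i (act g (y i)) =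
      fun j => cls (P j) (Function.update x i (pb g (x i)) j) := by
    funext j
    by_cases hj : j = i
    · subst hj
      rw [Function.update_self, Function.update_self, ← hx, act_cls]
    · rw [Function.update_of_ne hj, Function.update_of_ne hj, hx]
  rw [hup, h.pN_cls, hy, h.pN_cls, act_cls]
  congr 1
  -- places which are not trivial on a factor
  have hin : ∀ (j : ι) (w : Q) (u : Place k (M j)),
      (∀ f : M j, (w : Place k L).ord (f : L) = u.ord f) → ∃ v : P j, w = s j v ∧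
        (v : Place k (M j)) = u := by
    intro j w u hu
    by_cases hw : w ∈ Set.range (s j)
    · obtain ⟨v, rfl⟩ := hw
      refine ⟨v, rfl, ?_⟩
      apply Place.ext
      funext f
      rw [← hu]
      have h3 := (h.lies j v).2 f
      simpa using h3.symm
    · obtain ⟨t, ht0, ht⟩ := u.surj
      have h3 := h.other j w hw t ht0
      rw [hu, ht] at h3
      exact absurd h3 one_ne_zero
  refine h.eq_of (fun j v => ?_) fun w hw => ?_
  · rw [pb_apply]
    by_cases hj : j = i
    · subst hj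
      obtain ⟨v', hv1, hv2⟩ := hin j (sg g' (s j v)) ((v : Place k (M j)).comp (g : M j ≃ₐ[k] M j))
        fun f => by
          change (s j v : Place k L).ord ((g' : L ≃ₐ[k] L) f) = _
          rw [h1, Place.comp_ord]
          have h3 := (h.lies j v).2 ((g : M j ≃ₐ[k] M j) f)
          simpa using h3
      rw [hv1, h.pP_s, Function.update_self, pb_apply]
      congr 1
      exact Subtype.ext hv2
    · obtain ⟨v', hv1, hv2⟩ := hin j (sg g' (s j v)) v fun f => by
        change (s j v : Place k L).ord ((g' : L ≃ₐ[k] L) f) = _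
        rw [h2 j hj]
        have h3 := (h.lies j v).2 f
        simpa using h3
      rw [hv1, h.pP_s, Function.update_of_ne hj, Subtype.ext hv2]
  · rw [pb_apply]
    refine pP_other _ fun j hj => ?_
    obtain ⟨v, hv⟩ := hj
    obtain ⟨t, ht0, ht⟩ := (v : Place k (M j)).surj
    have h3 := (h.lies j v).2 t
    rw [hv] at h3
    change (w : Place k L).ord ((g' : L ≃ₐ[k] L) t) = _ at h3
    by_cases hji : j = i
    · subst hji
      rw [h1, h.other j w (hw j) _ (by simpa using ht0), ht] at h3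
      simp at h3
    · rw [h2 j hji, h.other j w (hw j) _ ht0, ht] at h3
      simp at h3

/-- The theorem of the base for products. -/
theorem IsProduct.base (h : IsProduct Q M P s) (hP : ∀ i, HasBase (P i)) : HasBase Q := by
  choose n b hb hbz using hP
  let e : (∀ i, N1 (P i)) ≃ₗ[ℝ] N1 Q := LinearEquiv.ofBijective h.pN ⟨h.pN_inj, h.pN_surj⟩
  have he : ∀ y, e y = h.pN y := fun y => rfl
  let B : Basis (Σ i, Fin (n i)) ℝ (N1 Q) := (Pi.basis b).map e
  let σ := Fintype.equivFin (Σ i, Fin (n i))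
  refine ⟨_, B.reindex σ, fun i => ?_, fun x hx i => ?_⟩
  · rw [Basis.reindex_apply, Basis.map_apply, he, Pi.basis_apply]
    refine h.pN_lat fun j => ?_
    by_cases hj : j = (σ.symm i).1
    · subst hj; rw [Pi.single_eq_same]; exact hb _ _
    · rw [Pi.single_eq_of_ne hj]; exact zero_mem _
  · obtain ⟨E, hE⟩ := hx
    have hE' : cls Q (rl Q E) = x := hE
    obtain ⟨D, f, hf, hDf⟩ := h.split E
    rw [princ_num hf hDf, h.pP_rl, ← h.pN_cls, ← he] at hE'
    rw [← hE', Basis.repr_reindex_apply, Basis.map_repr, LinearEquiv.trans_apply,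
      LinearEquiv.symm_apply_apply]
    obtain ⟨z, hz⟩ := hbz (σ.symm i).1 _ (cls_rl_mem (D (σ.symm i).1)) (σ.symm i).2
    exact ⟨z, by rw [← hz]; exact Pi.basis_repr b _ (σ.symm i)⟩

/-- **The movable cone conjecture for products.** -/
theorem IsProduct.main (h : IsProduct Q M P s) (ha : HasAmple Q) (hb : ∀ i, HasBase (P i))
    (hM : ∀ i, MovableConeConjecture (P i)) : MovableConeConjecture Q := by
  obtain ⟨n, b, ξ, hb, hbz, hξ, hD⟩ := exists_dat' ha (h.base hb)
  choose C hC1 hC2 hC3 using hM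
  have hRP : ∀ i, RP (lat Q) (h.pN1 i '' C i) := by
    intro i
    obtain ⟨m, t, ht, hCt⟩ := hC1 i
    rw [hCt, cn_map]
    refine ⟨m, _, fun j => ?_, rfl⟩
    obtain ⟨D, hD⟩ := ht j
    have h1 : t j = cls (P i) (rl (P i) D) := hD.symm
    have h2 : h.pN (Pi.single i (t j)) = h.pN1 i (t j) := by
      rw [h.pN_apply, Finset.sum_eq_single i]
      · rw [Pi.single_eq_same]
      · intro j' _ hj'
        rw [Pi.single_eq_of_ne hj', map_zero]
      · intro h; exact absurd (Finset.mem_univ _) h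
    rw [← h2]
    refine h.pN_lat fun i' => ?_
    by_cases hi : i' = i
    · subst hi; rw [Pi.single_eq_same]; exact ht j
    · rw [Pi.single_eq_of_ne hi]; exact zero_mem _
  have hCM : ∀ i, C i ⊆ MovE (P i) := by
    intro i x hx
    rw [← hC2 i]
    refine Set.mem_iUnion.2 ⟨1, x, hx, ?_⟩
    change rho (P i) 1 x = x
    rw [map_one]
    rfl
  obtain ⟨T, hT1, hT2, hT3⟩ := sum_RP _ hRP
  have hTM : T ⊆ MovE Q := by
    refine hT3 _ MovE_cone fun i => ?_
    rintro _ ⟨x, hx, rfl⟩
    have h2 : h.pN (Pi.single i x) = h.pN1 i x := by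
      rw [h.pN_apply, Finset.sum_eq_single i]
      · rw [Pi.single_eq_same]
      · intro j' _ hj'
        rw [Pi.single_eq_of_ne hj', map_zero]
      · intro h; exact absurd (Finset.mem_univ _) h
    rw [← h2, h.pN_MovE]
    intro i'
    by_cases hi : i' = i
    · subst hi; rw [Pi.single_eq_same]; exact hCM _ hx
    · rw [Pi.single_eq_of_ne hi]; exact MovE_cone.zero
  refine hD.fund hT1 hTM fun x hx => ?_
  obtain ⟨y, rfl⟩ := h.pN_surj x
  rw [h.pN_MovE] at hx
  have hcov : ∀ i, ∃ (g : psAut (P i)) (z : N1 (P i)), z ∈ C i ∧ act g z = y i := by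
    intro i
    have h1 := hx i
    rw [← hC2 i] at h1
    obtain ⟨g, z, hz, hzy⟩ := Set.mem_iUnion.1 h1
    exact ⟨g, z, hz, hzy⟩
  choose g z hz hzy using hcov
  have key : ∀ S : Finset ι, ∃ g' : psAut Q,
      (h.pN fun i => if i ∈ S then y i else z i) = rho Q g' (h.pN z) := by
    intro S
    induction S using Finset.induction_on with
    | empty => exact ⟨1, by rw [map_one]; simp⟩
    | insert a S ha ih =>
      obtain ⟨g', hg'⟩ := ih
      obtain ⟨g1, hg1⟩ := h.act_lift a (g a)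
      refine ⟨g1 * g', ?_⟩
      rw [rho_mul, ← hg']
      change _ = act g1 _
      rw [hg1]
      congr 1
      funext i
      by_cases hi : i = a
      · subst hi
        rw [Function.update_self, if_pos (Finset.mem_insert_self _ _), if_neg ha, hzy]
      · rw [Function.update_of_ne hi]
        simp only [Finset.mem_insert, hi, false_or]
  obtain ⟨g', hg'⟩ := key Finset.univ
  simp only [Finset.mem_univ, if_true] at hg'
  refine ⟨g', h.pN z, ?_, hg'⟩
  rw [h.pN_apply]
  exact hT1.cone.sum _ _ fun i _ => hT2 i ⟨z i, hz i, rfl⟩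

end

end Pool.Agent.K1H17.MC
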