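import Pool.Agent.K1H17.MC.Qt

/-! The effective movable cone of a quotient. -/

set_option autoImplicit false
set_option linter.overlappingInstances false
set_option linter.unusedSectionVars false
set_option linter.unusedVariables false

open FF Module IntermediateField Pool.Agent.W603.LV Pool.Agent.W619.PQ

namespace Pool.Agent.K1H17.MC

section

variable {k L : Type} [Field k] [CharZero k] [IsAlgClosed k] [Field L] [Algebra k L]
  {G : Subgroup (L ≃ₐ[k] L)} [Finite G] {P : Set (Place k L)}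

theorem pi_eff {x : quo P G →₀ ℝ} (hx : x ∈ effC (quo P G)) : pi G P x ∈ effC P := by
  have h1 : IsCone {x | pi G P x ∈ effC P} := by
    refine ⟨?_, ?_, ?_⟩
    · change pi G P 0 ∈ effC P
      rw [map_zero]; exact (cg_cone _).zero
    · intro x hx y hy
      change pi G P (x + y) ∈ effC P
      rw [map_add]; exact (cg_cone _).add _ hx _ hy
    · intro c hc x hx
      change pi G P (c • x) ∈ effC P
      rw [map_smul]; exact (cg_cone _).smul _ hc _ hx
  refine cg_sub h1 ?_ hx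
  rintro _ ⟨D, ⟨f, hf⟩, rfl⟩
  change pi G P (rl _ D) ∈ effC P
  rw [pi_rl]
  exact cg_gen ⟨_, ⟨_, sec_up hf⟩, rfl⟩

theorem pi_mov {x : quo P G →₀ ℝ} (hx : x ∈ movC (quo P G)) : pi G P x ∈ movC P := by
  have h1 : IsCone {x | pi G P x ∈ movC P} := by
    refine ⟨?_, ?_, ?_⟩
    · change pi G P 0 ∈ movC P
      rw [map_zero]; exact (cg_cone _).zero
    · intro x hx y hy
      change pi G P (x + y) ∈ movC P
      rw [map_add]; exact (cg_cone _).add _ hx _ hy
    · intro c hc x hx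
      change pi G P (c • x) ∈ movC P
      rw [map_smul]; exact (cg_cone _).smul _ hc _ hx
  refine cg_sub h1 ?_ hx
  rintro _ ⟨D, hD, rfl⟩
  change pi G P (rl _ D) ∈ movC P
  rw [pi_rl]
  exact cg_gen ⟨_, mov_up hD, rfl⟩

section

variable (hG : G ≤ psAut P)

theorem pre_cone {V W : Type*} [AddCommGroup V] [Module ℝ V] [AddCommGroup W] [Module ℝ W]
    (f : V →ₗ[ℝ] W) {C : Set W} (hC : IsCone C) : IsCone {x | f x ∈ C} where
  zero := by
    change f 0 ∈ C
    rw [map_zero]; exact hC.zero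
  add := by
    intro x hx y hy
    change f (x + y) ∈ C
    rw [map_add]; exact hC.add _ hx _ hy
  smul := by
    intro c hc x hx
    change f (c • x) ∈ C
    rw [map_smul]; exact hC.smul _ hc _ hx

theorem tr_eff [Fintype G] {x : P →₀ ℝ} (hx : x ∈ effC P) :
    tr hG x ∈ pi G P '' effC (quo P G) := by
  have h0 : IsCone {x | tr hG x ∈ pi G P '' effC (quo P G)} :=
    pre_cone (tr hG) (image_cone (pi G P) (cg_cone _))
  refine cg_sub h0 ?_ hx
  rintro _ ⟨D, ⟨f, hf⟩, rfl⟩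
  change tr hG (rl P D) ∈ pi G P '' effC (quo P G)
  obtain ⟨N, E, hN, hE⟩ := desc_z hG (D := trz hG D) fun g => by
    rw [← tr_rl]; exact pb_tr hG g _
  obtain ⟨F, hF, -⟩ := sec_down hG hf hE
  have hN0 : (N : ℝ) ≠ 0 := by
    have : 0 < N := hN
    exact_mod_cast this.ne'
  refine ⟨(N : ℝ)⁻¹ • rl _ E, (cg_cone _).smul _ (by positivity) _ (cg_gen ⟨E, ⟨F, hF⟩, rfl⟩), ?_⟩
  rw [map_smul, hE, smul_smul, inv_mul_cancel₀ hN0, one_smul, tr_rl]

theorem tr_mov [Fintype G] {x : P →₀ ℝ} (hx : x ∈ movC P) :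
    tr hG x ∈ pi G P '' movC (quo P G) := by
  have h0 : IsCone {x | tr hG x ∈ pi G P '' movC (quo P G)} :=
    pre_cone (tr hG) (image_cone (pi G P) (cg_cone _))
  refine cg_sub h0 ?_ hx
  rintro _ ⟨D, hD, rfl⟩
  change tr hG (rl P D) ∈ pi G P '' movC (quo P G)
  obtain ⟨N, E, hN, hE⟩ := desc_z hG (D := trz hG D) fun g => by
    rw [← tr_rl]; exact pb_tr hG g _
  have hN0 : (N : ℝ) ≠ 0 := by
    have : 0 < N := hN
    exact_mod_cast this.ne'
  refine ⟨(N : ℝ)⁻¹ • rl _ E, (cg_cone _).smul _ (by positivity) _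
    (cg_gen ⟨E, mov_down hG hD hE, rfl⟩), ?_⟩
  rw [map_smul, hE, smul_smul, inv_mul_cancel₀ hN0, one_smul, tr_rl]

include hG in
theorem pi_num (D : quo P G →₀ ℝ) : pi G P D ∈ numTriv P ↔ D ∈ numTriv (quo P G) := by
  have := Fintype.ofFinite G
  have hc : (0 : ℝ) < Fintype.card G := by exact_mod_cast Fintype.card_pos
  constructor
  · have key : ∀ D : quo P G →₀ ℝ, pi G P D ∈ clo (effC P) → D ∈ clo (effC (quo P G)) := by
      rintro D ⟨b, hb⟩
      obtain ⟨b', hb'⟩ := desc hG (x := tr hG b) fun g => pb_tr hG g b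
      refine ⟨(Fintype.card G : ℝ)⁻¹ • b', fun ε hε => ?_⟩
      obtain ⟨y, hy, hy'⟩ := tr_eff hG (hb ε hε)
      rw [map_add, map_smul, tr_pi, ← hb', ← map_smul, ← map_smul, ← map_add] at hy'
      have h1 := pi_inj hy'
      have h2 : D + ε • (Fintype.card G : ℝ)⁻¹ • b' = (Fintype.card G : ℝ)⁻¹ • y := by
        rw [h1, smul_add, inv_smul_smul₀ hc.ne', smul_comm]
      rw [h2]
      exact (cg_cone _).smul _ (by positivity) _ hy
    rintro ⟨h1, h2⟩
    refine ⟨key D h1, key (-D) ?_⟩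
    rw [map_neg]
    exact h2
  · rintro ⟨h1, h2⟩
    refine ⟨clo_map (pi G P) (fun _ => pi_eff) h1, ?_⟩
    rw [← map_neg]
    exact clo_map (pi G P) (fun _ => pi_eff) h2

variable (G P) in
/-- The pull-back of numerical classes. -/
noncomputable def piN (hG : G ≤ psAut P) : N1 (quo P G) →ₗ[ℝ] N1 P :=
  (numTriv (quo P G)).mapQ (numTriv P) (pi G P) fun D hD => (pi_num hG D).2 hD

theorem piN_cls (D : quo P G →₀ ℝ) : piN G P hG (cls _ D) = cls P (pi G P D) := rfl

theorem piN_inj : Function.Injective (piN G P hG) := by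
  rw [← LinearMap.ker_eq_bot, LinearMap.ker_eq_bot']
  intro x hx
  obtain ⟨D, rfl⟩ := cls_surj x
  have h1 : cls P (pi G P D) = 0 := hx
  have h2 : pi G P D ∈ numTriv P := cls_eq_zero.1 h1
  exact cls_eq_zero.2 ((pi_num hG D).1 h2)

theorem rho_piN (g : G) (x : N1 (quo P G)) : rho P (up hG g) (piN G P hG x) = piN G P hG x := by
  obtain ⟨D, rfl⟩ := cls_surj x
  change cls P (pb (up hG g) (pi G P D)) = cls P (pi G P D)
  rw [pb_pi]

theorem cls_tr [Fintype G] (x : P →₀ ℝ) :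
    cls P (tr hG x) = ∑ g : G, rho P (up hG g) (cls P x) := by
  rw [tr_apply, map_sum]
  rfl

/-- Invariant classes come from the quotient. -/
theorem range_piN {x : N1 P} (hx : ∀ g : G, rho P (up hG g) x = x) :
    ∃ y, piN G P hG y = x := by
  have := Fintype.ofFinite G
  have hc : (Fintype.card G : ℝ) ≠ 0 := by
    have : 0 < Fintype.card G := Fintype.card_pos
    exact_mod_cast this.ne'
  obtain ⟨D, rfl⟩ := cls_surj x
  obtain ⟨E, hE⟩ := desc hG (x := tr hG D) fun g => pb_tr hG g D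
  refine ⟨(Fintype.card G : ℝ)⁻¹ • cls _ E, ?_⟩
  rw [map_smul, piN_cls, hE, cls_tr]
  have h1 : ∑ g : G, rho P (up hG g) (cls P D) = ∑ g : G, cls P D :=
    Finset.sum_congr rfl fun g _ => hx g
  rw [h1, Finset.sum_const, Finset.card_univ, ← Nat.cast_smul_eq_nsmul ℝ, smul_smul,
    inv_mul_cancel₀ hc, one_smul]

theorem down_aux {C : Set (P →₀ ℝ)} {C' : Set (quo P G →₀ ℝ)} (hC' : IsCone C')
    (htr : ∀ [Fintype G], ∀ x ∈ C, tr hG x ∈ pi G P '' C') {x : N1 (quo P G)}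
    (hx : piN G P hG x ∈ cls P '' C) : x ∈ cls (quo P G) '' C' := by
  have := Fintype.ofFinite G
  have hc : (0 : ℝ) < Fintype.card G := by exact_mod_cast Fintype.card_pos
  obtain ⟨E, hE, hEx⟩ := hx
  obtain ⟨y, hy, hy'⟩ := htr E hE
  refine ⟨(Fintype.card G : ℝ)⁻¹ • y, hC'.smul _ (by positivity) _ hy, ?_⟩
  apply piN_inj hG
  rw [map_smul, map_smul, piN_cls, hy', cls_tr, hEx, Finset.sum_congr rfl fun g _ => rho_piN hG g x,
    Finset.sum_const, Finset.card_univ, ← Nat.cast_smul_eq_nsmul ℝ, smul_smul,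
    inv_mul_cancel₀ hc.ne', one_smul]

theorem piN_Eff {x : N1 (quo P G)} : piN G P hG x ∈ Eff P ↔ x ∈ Eff (quo P G) := by
  constructor
  · intro hx
    exact down_aux hG (cg_cone _) (fun x hx => tr_eff hG hx) hx
  · rintro ⟨D, hD, rfl⟩
    exact ⟨pi G P D, pi_eff hD, rfl⟩

theorem piN_Mov {x : N1 (quo P G)} : piN G P hG x ∈ Mov P ↔ x ∈ Mov (quo P G) := by
  constructor
  · intro hx
    exact down_aux hG (cg_cone _) (fun x hx => tr_mov hG hx) hx
  · rintro ⟨D, hD, rfl⟩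
    exact ⟨pi G P D, pi_mov hD, rfl⟩

theorem piN_MovE {x : N1 (quo P G)} : piN G P hG x ∈ MovE P ↔ x ∈ MovE (quo P G) := by
  have := Fintype.ofFinite G
  have hc : (0 : ℝ) < Fintype.card G := by exact_mod_cast Fintype.card_pos
  constructor
  · rintro ⟨⟨b, hb⟩, h2⟩
    refine ⟨?_, (piN_Eff hG).1 h2⟩
    obtain ⟨b', hb'⟩ := range_piN hG (x := ∑ g : G, rho P (up hG g) b) fun g => by
      rw [map_sum]
      refine Fintype.sum_equiv (Equiv.mulLeft g) _ _ fun g' => ?_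
      change rho P (up hG g) (rho P (up hG g') b) = rho P (up hG (g * g')) b
      have h1 : up hG (g * g') = up hG g * up hG g' := rfl
      rw [h1, rho_mul]
    refine ⟨(Fintype.card G : ℝ)⁻¹ • b', fun ε hε => ?_⟩
    rw [← piN_Mov hG]
    have h1 : piN G P hG (x + ε • (Fintype.card G : ℝ)⁻¹ • b') =
        (Fintype.card G : ℝ)⁻¹ • ∑ g : G, rho P (up hG g) (piN G P hG x + ε • b) := by
      simp only [map_add, map_smul, rho_piN]
      rw [Finset.sum_add_distrib, Finset.sum_const, Finset.card_univ, ← Nat.cast_smul_eq_nsmul ℝ,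
        smul_add, inv_smul_smul₀ hc.ne', hb', ← Finset.smul_sum, smul_comm ε]
    rw [h1]
    exact Mov_cone.smul _ (by positivity) _ (Mov_cone.sum _ _ fun g _ => rho_Mov _ (hb ε hε))
  · rintro ⟨h1, h2⟩
    exact ⟨clo_map (piN G P hG) (fun x hx => (piN_Mov hG).2 hx) h1, (piN_Eff hG).2 h2⟩

theorem piN_lat {x : N1 (quo P G)} (hx : x ∈ lat (quo P G)) : piN G P hG x ∈ lat P := by
  obtain ⟨D, rfl⟩ := hx
  change piN G P hG (cls _ (rl _ D)) ∈ lat P
  rw [piN_cls, pi_rl]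
  exact cls_rl_mem _

/-- Multiples of invariant integral classes come from integral classes on the quotient. -/
theorem lat_down {x : N1 P} (hx : x ∈ lat P) (hxG : ∀ g : G, rho P (up hG g) x = x) :
    ∃ (c : ℝ) (y : N1 (quo P G)), 0 < c ∧ y ∈ lat (quo P G) ∧ piN G P hG y = c • x := by
  have := Fintype.ofFinite G
  have hc : (0 : ℝ) < Fintype.card G := by exact_mod_cast Fintype.card_pos
  obtain ⟨D, hD⟩ := hx
  have hD' : cls P (rl P D) = x := hD
  obtain ⟨N, E, hN, hE⟩ := desc_z hG (D := trz hG D) fun g => by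
    rw [← tr_rl]; exact pb_tr hG g _
  have hN0 : (0 : ℝ) < N := by
    have : 0 < N := hN
    exact_mod_cast this
  refine ⟨N * Fintype.card G, cls _ (rl _ E), mul_pos hN0 hc, cls_rl_mem _, ?_⟩
  rw [piN_cls, hE, map_smul, ← tr_rl, cls_tr, hD', Finset.sum_congr rfl fun g _ => hxG g,
    Finset.sum_const, Finset.card_univ, ← Nat.cast_smul_eq_nsmul ℝ, smul_smul]

/-- An automorphism which commutes with `G` acts on the fixed field. -/
theorem exists_rst {z : psAut P} (hz : ∀ g : G, z * up hG g = up hG g * z) :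
    ∃ z' : psAut (quo P G), ∀ x, piN G P hG (rho _ z' x) = rho P z (piN G P hG x) := by
  have hcomm : ∀ (g : G) (f : L), (z : L ≃ₐ[k] L) ((g : L ≃ₐ[k] L) f) =
      (g : L ≃ₐ[k] L) ((z : L ≃ₐ[k] L) f) := fun g f =>
    congrArg (fun h : psAut P => (h : L ≃ₐ[k] L) f) (hz g)
  have hzi : ∀ g : G, z⁻¹ * up hG g = up hG g * z⁻¹ := fun g => by
    have h1 := hz g
    calc z⁻¹ * up hG g = z⁻¹ * (up hG g * z) * z⁻¹ := by group
      _ = z⁻¹ * (z * up hG g) * z⁻¹ := by rw [h1]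
      _ = up hG g * z⁻¹ := by group
  have hcommi : ∀ (g : G) (f : L), ((z⁻¹ : psAut P) : L ≃ₐ[k] L) ((g : L ≃ₐ[k] L) f) =
      (g : L ≃ₐ[k] L) (((z⁻¹ : psAut P) : L ≃ₐ[k] L) f) := fun g f =>
    congrArg (fun h : psAut P => (h : L ≃ₐ[k] L) f) (hzi g)
  have hst : ∀ f ∈ fixedField G, (z : L ≃ₐ[k] L) f ∈ fixedField G := by
    intro f hf g
    change (g : L ≃ₐ[k] L) ((z : L ≃ₐ[k] L) f) = _
    rw [← hcomm]
    congr 1
    exact hf g
  have hsti : ∀ f ∈ fixedField G, ((z⁻¹ : psAut P) : L ≃ₐ[k] L) f ∈ fixedField G := by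
    intro f hf g
    change (g : L ≃ₐ[k] L) (((z⁻¹ : psAut P) : L ≃ₐ[k] L) f) = _
    rw [← hcommi]
    congr 1
    exact hf g
  have hzz : ∀ f : L, (z : L ≃ₐ[k] L) (((z⁻¹ : psAut P) : L ≃ₐ[k] L) f) = f := fun f => by
    change ((z * z⁻¹ : psAut P) : L ≃ₐ[k] L) f = f
    rw [mul_inv_cancel]; rfl
  have hzz' : ∀ f : L, ((z⁻¹ : psAut P) : L ≃ₐ[k] L) ((z : L ≃ₐ[k] L) f) = f := fun f => by
    change ((z⁻¹ * z : psAut P) : L ≃ₐ[k] L) f = f
    rw [inv_mul_cancel]; rfl
  let ζ : fixedField G ≃ₐ[k] fixedField G := AlgEquiv.ofAlgHom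
    ((((z : L ≃ₐ[k] L) : L →ₐ[k] L).comp (fixedField G).val).codRestrict (fixedField G).toSubalgebra
      (fun f => hst f f.2))
    (((((z⁻¹ : psAut P) : L ≃ₐ[k] L) : L →ₐ[k] L).comp (fixedField G).val).codRestrict
      (fixedField G).toSubalgebra (fun f => hsti f f.2))
    (by
      apply AlgHom.ext
      intro f
      apply Subtype.ext
      exact hzz f)
    (by
      apply AlgHom.ext
      intro f
      apply Subtype.ext
      exact hzz' f)
  have hζ : ∀ f : fixedField G, algebraMap (fixedField G) L (ζ f) =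
      (z : L ≃ₐ[k] L) (algebraMap (fixedField G) L f) := fun f => rfl
  have hover : ∀ {w : Place k L} {v : Place k (fixedField G)} {e : ℕ}, Over w v e →
      Over (w.comp (z : L ≃ₐ[k] L)) (v.comp ζ) e := by
    intro w v e h
    refine ⟨h.1, fun f => ?_⟩
    rw [Place.comp_ord, Place.comp_ord, ← hζ, h.2]
  have hmem : ∀ v : Place k (fixedField G), v ∈ quo P G → v.comp ζ ∈ quo P G := by
    rintro v ⟨w, hw, e, h⟩
    exact ⟨_, (z.2 w).1 hw, e, hover h⟩
  have hoveri : ∀ {w : Place k L} {v : Place k (fixedField G)} {e : ℕ}, Over w (v.comp ζ) e →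
      Over (w.comp ((z⁻¹ : psAut P) : L ≃ₐ[k] L)) v e := by
    intro w v e h
    refine ⟨h.1, fun f => ?_⟩
    have h1 : v.ord f = (v.comp ζ).ord (ζ.symm f) := by
      rw [Place.comp_ord, AlgEquiv.apply_symm_apply]
    rw [h1, ← h.2, Place.comp_ord]
    rfl
  let z' : psAut (quo P G) := ⟨ζ, fun v => ⟨hmem v, by
    rintro ⟨w, hw, e, h⟩
    exact ⟨_, ((z⁻¹).2 w).1 hw, e, hoveri h⟩⟩⟩
  refine ⟨z', fun x => ?_⟩
  obtain ⟨D, rfl⟩ := cls_surj x
  change cls P (pi G P (pb z' D)) = cls P (pb z (pi G P D))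
  congr 1
  ext w
  rw [pi_apply, pb_apply, pb_apply, pi_apply]
  have h1 : Over (sg z w : Place k L) (sg z' (rr G P w) : Place k (fixedField G)) (ee G P w) :=
    hover (over_rr w)
  obtain ⟨h2, h3⟩ := rr_unique h1
  rw [h2, h3]

end

end

end Pool.Agent.K1H17.MC
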