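import Pool.Agent.K1H17.MC.Gm
import Pool.Agent.Helper386.D5V.Helper399_FF4a
import Pool.Agent.W619.PQ.Approx
import Pool.Agent.W619.PQ.Local

/-! Divisors on the quotient by a finite group. -/

set_option autoImplicit false
set_option linter.overlappingInstances false
set_option linter.unusedSectionVars false
set_option linter.unusedVariables false

open FF Module IntermediateField Pool.Agent.W603.LV Pool.Agent.W619.PQ

namespace Pool.Agent.K1H17.MC

section

variable {k L : Type} [Field k] [CharZero k] [IsAlgClosed k] [Field L] [Algebra k L]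
  {G : Subgroup (L ≃ₐ[k] L)} [Finite G]

theorem exists_under (G : Subgroup (L ≃ₐ[k] L)) [Finite G] (w : Place k L) :
    ∃ (v : Place k (fixedField G)) (e : ℕ), Over w v e := by
  have hfin := fixed_finite G
  have halg : Algebra.IsAlgebraic (fixedField G) L := Algebra.IsAlgebraic.of_finite _ _
  obtain ⟨e, v, h⟩ := exists_over (K := fixedField G) w (by
    by_contra hcon
    push Not at hcon
    obtain ⟨t, -, ht⟩ := w.surj
    have h1 := ord_eq_zero_of_alg (K0 := fixedField G) (K1 := L) (K2 := L) w hcon t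
    rw [Algebra.algebraMap_self, RingHom.id_apply, ht] at h1
    exact one_ne_zero h1)
  exact ⟨v, e, h⟩

theorem over_comp {w : Place k L} {v : Place k (fixedField G)} {e : ℕ} (h : Over w v e)
    {g : L ≃ₐ[k] L} (hg : g ∈ G) : Over (w.comp g) v e := by
  refine ⟨h.1, fun f => ?_⟩
  rw [Place.comp_ord]
  have h1 : g (algebraMap (fixedField G) L f) = algebraMap (fixedField G) L f := f.2 ⟨g, hg⟩
  rw [h1]
  exact h.2 f

/-- The norm. -/
theorem exists_nrm (G : Subgroup (L ≃ₐ[k] L)) [Finite G] [Fintype G] {f : L} (hf : f ≠ 0) :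
    ∃ z : fixedField G, z ≠ 0 ∧ ∀ w : Place k L,
      w.ord (algebraMap (fixedField G) L z) = ∑ g : G, w.ord ((g : L ≃ₐ[k] L) f) := by
  classical
  have hprod : ∀ g : G, (g : L ≃ₐ[k] L) (∏ g' : G, (g' : L ≃ₐ[k] L) f) =
      ∏ g' : G, (g' : L ≃ₐ[k] L) f := by
    intro g
    rw [map_prod]
    exact Fintype.prod_equiv (Equiv.mulLeft g) _ _ fun g' => rfl
  have hne : ∀ g : G, (g : L ≃ₐ[k] L) f ≠ 0 := fun g => by simpa using hf
  refine ⟨⟨∏ g' : G, (g' : L ≃ₐ[k] L) f, fun g => hprod g⟩, ?_, fun w => ?_⟩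
  · intro h
    exact (Finset.prod_ne_zero_iff.2 fun g _ => hne g) (congrArg Subtype.val h)
  · change w.ord (∏ g' : G, (g' : L ≃ₐ[k] L) f) = _
    have key : ∀ s : Finset G, (∏ g ∈ s, (g : L ≃ₐ[k] L) f) ≠ 0 ∧
        w.ord (∏ g ∈ s, (g : L ≃ₐ[k] L) f) = ∑ g ∈ s, w.ord ((g : L ≃ₐ[k] L) f) := by
      intro s
      induction s using Finset.induction_on with
      | empty => exact ⟨by simp, by simp [w.ord_one]⟩
      | insert a s ha ih =>
        rw [Finset.prod_insert ha, Finset.sum_insert ha]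
        exact ⟨mul_ne_zero (hne a) ih.1, by rw [w.ord_mul (hne a) ih.1, ih.2]⟩
    exact (key Finset.univ).2

/-- The group acts transitively on the places over a place of the fixed field. -/
theorem transitive {w w' : Place k L} {v : Place k (fixedField G)} {e e' : ℕ} (h : Over w v e)
    (h' : Over w' v e') : ∃ g ∈ G, w' = w.comp g := by
  classical
  have := Fintype.ofFinite G
  by_contra hc
  push Not at hc
  obtain ⟨S, hS⟩ : ∃ S : Finset (Place k L),
      S = Finset.univ.image fun g : G => w'.comp (g : L ≃ₐ[k] L) := ⟨_, rfl⟩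
  obtain ⟨T, hT⟩ : ∃ T : Finset (Place k L),
      T = Finset.univ.image fun g : G => w.comp (g : L ≃ₐ[k] L) := ⟨_, rfl⟩
  have hdis : ∀ P ∈ S, P ∉ T := by
    intro P hP hP'
    rw [hS, Finset.mem_image] at hP
    rw [hT, Finset.mem_image] at hP'
    obtain ⟨g1, -, h1⟩ := hP
    obtain ⟨g2, -, h2⟩ := hP'
    refine hc ((g2 * g1⁻¹ : G) : L ≃ₐ[k] L) (g2 * g1⁻¹).2 ?_
    have h3 : w'.comp (g1 : L ≃ₐ[k] L) = w.comp (g2 : L ≃ₐ[k] L) := h1.trans h2.symm
    have h4 := congrArg (fun P : Place k L => P.comp ((g1⁻¹ : G) : L ≃ₐ[k] L)) h3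
    simp only [comp_comp, ← Subgroup.coe_mul] at h4
    rw [mul_inv_cancel, Subgroup.coe_one, comp_one] at h4
    exact h4
  -- an element close to `1` on `S` and to `0` on `T`
  obtain ⟨b, hb1, hb2⟩ : ∃ b : L, (∀ P ∈ S, Ge P 1 (b - 1)) ∧ ∀ Q ∈ T, Ge Q 1 b := by
    have h1 : ∀ P : Place k L, ∃ b : L, P ∈ S →
        Ge P 1 (b - 1) ∧ ∀ Q ∈ (S ∪ T).erase P, Ge Q 1 b := by
      intro P
      obtain ⟨b, hb⟩ := approx_one ((S ∪ T).erase P) P (Finset.notMem_erase _ _) 1 1
      exact ⟨b, fun _ => hb⟩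
    choose b hb using h1
    refine ⟨∑ P ∈ S, b P, fun P hP => ?_, fun Q hQ => ?_⟩
    · rw [← Finset.add_sum_erase _ _ hP]
      have e : b P + ∑ x ∈ S.erase P, b x - 1 = (b P - 1) + ∑ x ∈ S.erase P, b x := by ring
      rw [e]
      refine (hb P hP).1.add (Ge.sum _ _ fun x hx => ?_)
      obtain ⟨hx1, hx2⟩ := Finset.mem_erase.1 hx
      exact (hb x hx2).2 P (Finset.mem_erase.2 ⟨hx1.symm, Finset.mem_union_left _ hP⟩)
    · refine Ge.sum _ _ fun x hx => ?_
      refine (hb x hx).2 Q (Finset.mem_erase.2 ⟨?_, Finset.mem_union_right _ hQ⟩)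
      rintro rfl
      exact hdis _ hx hQ
  have hzero : ∀ P ∈ S, b ≠ 0 ∧ P.ord b = 0 := by
    intro P hP
    have h1 := hb1 P hP
    have hb0 : b ≠ 0 := by
      rintro rfl
      rw [zero_sub] at h1
      rcases h1 with h1 | h1
      · exact one_ne_zero (neg_eq_zero.1 h1)
      · rw [P.ord_neg, P.ord_one] at h1
        omega
    refine ⟨hb0, ?_⟩
    rcases h1 with h1 | h1
    · rw [sub_eq_zero] at h1
      rw [h1, P.ord_one]
    · by_cases h2 : b - 1 = 0
      · rw [sub_eq_zero] at h2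
        rw [h2, P.ord_one]
      have h3 := P.ord_add_eq (one_ne_zero (α := L)) h2 (by rw [P.ord_one]; omega)
      have h4 : (1 : L) + (b - 1) = b := by ring
      rw [h4, P.ord_one] at h3
      exact h3.2
  have hmemS : ∀ g : G, w'.comp (g : L ≃ₐ[k] L) ∈ S := fun g => by
    rw [hS]; exact Finset.mem_image_of_mem _ (Finset.mem_univ _)
  have hmemT : ∀ g : G, w.comp (g : L ≃ₐ[k] L) ∈ T := fun g => by
    rw [hT]; exact Finset.mem_image_of_mem _ (Finset.mem_univ _)
  have hb0 : b ≠ 0 := (hzero _ (hmemS 1)).1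
  obtain ⟨z, hz0, hz⟩ := exists_nrm G hb0
  have h1 : w'.ord (algebraMap (fixedField G) L z) = 0 := by
    rw [hz]
    exact Finset.sum_eq_zero fun g _ => (hzero _ (hmemS g)).2
  have h2 : 0 < w.ord (algebraMap (fixedField G) L z) := by
    rw [hz]
    refine Finset.sum_pos (fun g _ => ?_) ⟨1, Finset.mem_univ _⟩
    have h3 := (hb2 _ (hmemT g)).resolve_left hb0
    rw [Place.comp_ord] at h3
    omega
  rw [h'.2] at h1
  rw [h.2] at h2
  have h3 : (e' : ℤ) ≠ 0 := by have := h'.1; omega
  rw [(mul_eq_zero.1 h1).resolve_left h3, mul_zero] at h2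
  exact lt_irrefl _ h2

variable {P : Set (Place k L)}

variable (P G) in
/-- The image of a prime divisor. -/
noncomputable def rr (w : P) : quo P G :=
  ⟨(exists_under G (w : Place k L)).choose, w, w.2, (exists_under G (w : Place k L)).choose_spec⟩

variable (P G) in
/-- The ramification index. -/
noncomputable def ee (w : P) : ℕ := (exists_under G (w : Place k L)).choose_spec.choose

theorem over_rr (w : P) : Over (w : Place k L) (rr G P w : Place k (fixedField G)) (ee G P w) :=
  (exists_under G (w : Place k L)).choose_spec.choose_spec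

theorem rr_unique {w : P} {v : quo P G} {e : ℕ} (h : Over (w : Place k L)
    (v : Place k (fixedField G)) e) : rr G P w = v ∧ ee G P w = e := by
  obtain ⟨h1, h2⟩ := over_unique' (over_rr w) h
  exact ⟨Subtype.ext h1, h2⟩

theorem rr_surj (v : quo P G) : ∃ w : P, rr G P w = v := by
  obtain ⟨w, hw, e, h⟩ := v.2
  exact ⟨⟨w, hw⟩, (rr_unique h).1⟩

theorem rr_fib {w w' : P} (h : rr G P w = rr G P w') :
    ∃ g ∈ G, (w' : Place k L) = (w : Place k L).comp g := by
  have h1 := over_rr (G := G) w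
  rw [h] at h1
  exact transitive h1 (over_rr w')

theorem rr_comp {w w' : P} {g : L ≃ₐ[k] L} (hg : g ∈ G)
    (h : (w' : Place k L) = (w : Place k L).comp g) :
    rr G P w' = rr G P w ∧ ee G P w' = ee G P w := by
  have h1 := over_comp (over_rr (G := G) w) hg
  rw [← h] at h1
  exact rr_unique h1

theorem ee_eq {w w' : P} (h : rr G P w = rr G P w') : ee G P w = ee G P w' := by
  obtain ⟨g, hg, h1⟩ := rr_fib h
  exact (rr_comp hg h1).2.symm

theorem fib_finite (v : quo P G) : {w : P | rr G P w = v}.Finite := by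
  obtain ⟨w0, hw0⟩ := rr_surj v
  have h1 : (Set.range fun g : G => (w0 : Place k L).comp (g : L ≃ₐ[k] L)).Finite :=
    Set.finite_range _
  refine Set.Finite.of_finite_image (f := fun w : P => (w : Place k L)) (h1.subset ?_)
    Subtype.val_injective.injOn
  rintro _ ⟨w, hw, rfl⟩
  have hw' : rr G P w = v := hw
  obtain ⟨g, hg, h2⟩ := rr_fib (hw0.trans hw'.symm)
  exact ⟨⟨g, hg⟩, h2.symm⟩

theorem supp_finite {M : Type*} [Zero M] (D : quo P G →₀ M) (f : P → M)
    (hf : ∀ w, D (rr G P w) = 0 → f w = 0) : (Function.support f).Finite := by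
  have h1 : (⋃ v ∈ D.support, {w : P | rr G P w = v}).Finite :=
    Set.Finite.biUnion D.support.finite_toSet fun v _ => fib_finite v
  refine h1.subset fun w hw => ?_
  simp only [Set.mem_iUnion]
  refine ⟨rr G P w, ?_, rfl⟩
  rw [Finsupp.mem_support_iff]
  exact fun h => hw (hf w h)

variable (P G) in
/-- The pull-back of real divisors. -/
noncomputable def pi : (quo P G →₀ ℝ) →ₗ[ℝ] (P →₀ ℝ) where
  toFun D := Finsupp.ofSupportFinite (fun w => (ee G P w : ℝ) * D (rr G P w))
    (supp_finite D _ fun w h => by rw [h, mul_zero])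
  map_add' D E := by
    ext w
    change (ee G P w : ℝ) * (D (rr G P w) + E (rr G P w)) = _
    rw [mul_add]
    rfl
  map_smul' c D := by
    ext w
    change (ee G P w : ℝ) * (c * D (rr G P w)) = c * ((ee G P w : ℝ) * D (rr G P w))
    ring

theorem pi_apply (D : quo P G →₀ ℝ) (w : P) : pi G P D w = (ee G P w : ℝ) * D (rr G P w) := rfl

variable (P G) in
/-- The pull-back of integral divisors. -/
noncomputable def piz (D : quo P G →₀ ℤ) : P →₀ ℤ :=
  Finsupp.ofSupportFinite (fun w => (ee G P w : ℤ) * D (rr G P w))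
    (supp_finite D _ fun w h => by rw [h, mul_zero])

theorem piz_apply (D : quo P G →₀ ℤ) (w : P) : piz G P D w = (ee G P w : ℤ) * D (rr G P w) := rfl

theorem pi_rl (D : quo P G →₀ ℤ) : pi G P (rl _ D) = rl P (piz G P D) := by
  ext w
  rw [pi_apply, rl_apply, rl_apply, piz_apply]
  push_cast
  rfl

theorem ee_pos (w : P) : 0 < ee G P w := (over_rr w).1

theorem pi_inj : Function.Injective (pi G P) := by
  rw [← LinearMap.ker_eq_bot, LinearMap.ker_eq_bot']
  intro D hD
  ext v
  obtain ⟨w, rfl⟩ := rr_surj v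
  have h1 := congrArg (fun E : P →₀ ℝ => E w) hD
  change (ee G P w : ℝ) * D (rr G P w) = 0 at h1
  have h2 : (ee G P w : ℝ) ≠ 0 := by exact_mod_cast (ee_pos w).ne'
  exact (mul_eq_zero.1 h1).resolve_left h2

section

variable (hG : G ≤ psAut P)

/-- an element of `G` as an automorphism of the variety -/
def up (hG : G ≤ psAut P) (g : G) : psAut P := ⟨g, hG g.2⟩

theorem rr_sg (g : G) (w : P) : rr G P (sg (up hG g) w) = rr G P w ∧
    ee G P (sg (up hG g) w) = ee G P w := rr_comp g.2 rfl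

theorem pb_pi (g : G) (D : quo P G →₀ ℝ) : pb (up hG g) (pi G P D) = pi G P D := by
  ext w
  rw [pb_apply, pi_apply, pi_apply, (rr_sg hG g w).1, (rr_sg hG g w).2]

/-- Invariant real divisors come from the quotient. -/
theorem desc {x : P →₀ ℝ} (hx : ∀ g : G, pb (up hG g) x = x) : ∃ D, pi G P D = x := by
  classical
  choose s hs using fun v : quo P G => rr_surj v
  have hsinj : Function.Injective s := fun v v' h => by rw [← hs v, ← hs v', h]
  refine ⟨Finsupp.ofSupportFinite (fun v => x (s v) / ee G P (s v)) ?_, ?_⟩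
  · refine Set.Finite.of_finite_image (f := s) (x.support.finite_toSet.subset ?_) hsinj.injOn
    rintro _ ⟨v, hv, rfl⟩
    rw [Finset.mem_coe, Finsupp.mem_support_iff]
    intro h
    apply hv
    change x (s v) / ee G P (s v) = 0
    rw [h, zero_div]
  · ext w
    rw [pi_apply]
    change (ee G P w : ℝ) * (x (s (rr G P w)) / ee G P (s (rr G P w))) = x w
    have h1 : rr G P w = rr G P (s (rr G P w)) := (hs _).symm
    obtain ⟨g, hg, h2⟩ := rr_fib h1
    have h3 : s (rr G P w) = sg (up hG ⟨g, hg⟩) w := Subtype.ext h2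
    have h4 : x (s (rr G P w)) = x w := by
      have h5 := congrArg (fun E : P →₀ ℝ => E w) (hx ⟨g, hg⟩)
      change x (sg (up hG ⟨g, hg⟩) w) = x w at h5
      rw [h3]
      exact h5
    rw [h4, ← ee_eq h1]
    have h5 : (ee G P w : ℝ) ≠ 0 := by exact_mod_cast (ee_pos w).ne'
    field_simp

/-- Multiples of invariant integral divisors come from the quotient. -/
theorem desc_z {D : P →₀ ℤ} (hD : ∀ g : G, pb (up hG g) (rl P D) = rl P D) :
    ∃ (N : ℕ) (E : quo P G →₀ ℤ), 1 ≤ N ∧ pi G P (rl _ E) = (N : ℝ) • rl P D := by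
  classical
  obtain ⟨x, hx⟩ := desc hG hD
  obtain ⟨N, hN⟩ : ∃ N : ℕ, N = ∏ w ∈ D.support, ee G P w := ⟨_, rfl⟩
  have hN1 : 1 ≤ N := by
    rw [hN]
    exact Finset.prod_pos fun w _ => ee_pos w
  have hint : ∀ v, ∃ z : ℤ, (N : ℝ) * x v = z := by
    intro v
    obtain ⟨w, rfl⟩ := rr_surj v
    have h1 := congrArg (fun E : P →₀ ℝ => E w) hx
    change (ee G P w : ℝ) * x (rr G P w) = (D w : ℝ) at h1
    have h5 : (ee G P w : ℝ) ≠ 0 := by exact_mod_cast (ee_pos w).ne'
    by_cases hw : w ∈ D.support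
    · obtain ⟨M, hM⟩ : ee G P w ∣ N := by
        rw [hN]
        exact Finset.dvd_prod_of_mem _ hw
      refine ⟨M * D w, ?_⟩
      rw [hM]
      push_cast
      rw [← h1]
      ring
    · rw [Finsupp.notMem_support_iff] at hw
      rw [hw, Int.cast_zero] at h1
      refine ⟨0, ?_⟩
      rw [(mul_eq_zero.1 h1).resolve_left h5]
      simp
  choose z hz using hint
  refine ⟨N, Finsupp.ofSupportFinite z ?_, hN1, ?_⟩
  · refine x.support.finite_toSet.subset fun v hv => ?_
    rw [Finset.mem_coe, Finsupp.mem_support_iff]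
    intro h
    apply hv
    have h1 := hz v
    rw [h, mul_zero] at h1
    exact_mod_cast h1.symm
  · ext w
    rw [pi_apply, rl_apply]
    change (ee G P w : ℝ) * (z (rr G P w) : ℝ) = (N : ℝ) * (rl P D) w
    rw [← hz, ← hx, pi_apply]
    ring

/-- the sum over the group -/
noncomputable def tr [Fintype G] : (P →₀ ℝ) →ₗ[ℝ] (P →₀ ℝ) := ∑ g : G, pb (up hG g)

/-- the sum over the group -/
noncomputable def trz [Fintype G] (D : P →₀ ℤ) : P →₀ ℤ := ∑ g : G, pbz (up hG g) D

theorem tr_apply [Fintype G] (x : P →₀ ℝ) : tr hG x = ∑ g : G, pb (up hG g) x := by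
  rw [tr, LinearMap.sum_apply]

theorem tr_rl [Fintype G] (D : P →₀ ℤ) : tr hG (rl P D) = rl P (trz hG D) := by
  rw [tr_apply, trz, map_sum]
  exact Finset.sum_congr rfl fun g _ => pb_rl _ _

theorem trz_val [Fintype G] (D : P →₀ ℤ) (w : P) :
    trz hG D w = ∑ g : G, D (sg (up hG g) w) := by
  rw [trz, Finsupp.finsetSum_apply]
  rfl

theorem pb_tr [Fintype G] (g : G) (x : P →₀ ℝ) : pb (up hG g) (tr hG x) = tr hG x := by
  rw [tr_apply, map_sum]
  refine Fintype.sum_equiv (Equiv.mulLeft g) _ _ fun g' => ?_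
  change pb (up hG g) (pb (up hG g') x) = pb (up hG (g * g')) x
  have h1 : up hG (g * g') = up hG g * up hG g' := rfl
  rw [h1, pb_mul]
  rfl

theorem tr_pi [Fintype G] (D : quo P G →₀ ℝ) :
    tr hG (pi G P D) = (Fintype.card G : ℝ) • pi G P D := by
  rw [tr_apply, Finset.sum_congr rfl fun g _ => pb_pi hG g D, Finset.sum_const, Finset.card_univ,
    ← Nat.cast_smul_eq_nsmul ℝ]

end

/-- Sections pull back. -/
theorem sec_up {E : quo P G →₀ ℤ} {f : fixedField G} (h : IsSec (quo P G) E f) :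
    IsSec P (piz G P E) (algebraMap (fixedField G) L f) := by
  refine ⟨by simpa using h.1, fun w => ?_⟩
  rw [(over_rr (G := G) w).2, piz_apply]
  have h1 := h.2 (rr G P w)
  have h2 : (0 : ℤ) ≤ ee G P w := by positivity
  have h3 := mul_le_mul_of_nonneg_left h1 h2
  linarith

theorem mov_up {E : quo P G →₀ ℤ} (h : Movable (quo P G) E) : Movable P (piz G P E) := by
  intro w
  obtain ⟨f, hf, h1⟩ := h (rr G P w)
  refine ⟨algebraMap (fixedField G) L f, sec_up hf, ?_⟩
  rw [(over_rr (G := G) w).2, piz_apply, h1]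
  ring

variable (hG : G ≤ psAut P)

/-- The norm of a section. -/
theorem sec_down [Fintype G] {D : P →₀ ℤ} {f : L} (h : IsSec P D f) {N : ℕ}
    {E : quo P G →₀ ℤ} (hE : pi G P (rl _ E) = (N : ℝ) • rl P (trz hG D)) :
    ∃ F : fixedField G, IsSec (quo P G) E F ∧ ∀ w : P,
      (∀ g : G, (sg (up hG g) w : Place k L).ord f = -D (sg (up hG g) w)) →
      (rr G P w : Place k (fixedField G)).ord F = -E (rr G P w) := by
  obtain ⟨z, hz0, hz⟩ := exists_nrm G h.1
  have hEw : ∀ w : P, (ee G P w : ℤ) * E (rr G P w) = N * ∑ g : G, D (sg (up hG g) w) := by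
    intro w
    have h1 := congrArg (fun x : P →₀ ℝ => x w) hE
    change (ee G P w : ℝ) * (E (rr G P w) : ℝ) = (N : ℝ) * ((trz hG D) w : ℝ) at h1
    rw [trz_val] at h1
    exact_mod_cast h1
  have hord : ∀ w : P, (ee G P w : ℤ) * (rr G P w : Place k (fixedField G)).ord (z ^ N) =
      N * ∑ g : G, (sg (up hG g) w : Place k L).ord f := by
    intro w
    rw [← (over_rr (G := G) w).2, map_pow, Place.ord_pow, hz]
    rfl
  refine ⟨z ^ N, ⟨pow_ne_zero _ hz0, fun v => ?_⟩, fun w hw => ?_⟩
  · obtain ⟨w, rfl⟩ := rr_surj v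
    have h1 : -(∑ g : G, D (sg (up hG g) w)) ≤ ∑ g : G, (sg (up hG g) w : Place k L).ord f := by
      rw [← Finset.sum_neg_distrib]
      exact Finset.sum_le_sum fun g _ => h.2 _
    have h2 : (0 : ℤ) ≤ N := by positivity
    have h3 := mul_le_mul_of_nonneg_left h1 h2
    rw [← hord] at h3
    have h4 : (ee G P w : ℤ) * (-E (rr G P w)) ≤
        ee G P w * (rr G P w : Place k (fixedField G)).ord (z ^ N) := by
      have := hEw w
      linarith
    have h5 : (0 : ℤ) < ee G P w := by exact_mod_cast ee_pos w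
    exact le_of_mul_le_mul_left h4 h5
  · have h1 := hord w
    rw [Finset.sum_congr rfl fun g _ => hw g, Finset.sum_neg_distrib, mul_neg, ← hEw] at h1
    have h5 : (ee G P w : ℤ) ≠ 0 := by exact_mod_cast (ee_pos w).ne'
    refine mul_left_cancel₀ h5 ?_
    rw [h1]
    ring

/-- A section which is general along the orbit of a prime divisor. -/
theorem generic {D : P →₀ ℤ} (hD : Movable P D) (w : P) : ∃ f, IsSec P D f ∧
    ∀ g : G, (sg (up hG g) w : Place k L).ord f = -D (sg (up hG g) w) := by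
  classical
  have := Fintype.ofFinite G
  have hinf : Infinite k := CharZero.infinite k
  let V : Submodule k L :=
    { carrier := {f | ∀ v : P, Ge (v : Place k L) (-D v) f}
      add_mem' := fun ha hb v => (ha v).add (hb v)
      zero_mem' := fun v => Ge.zero
      smul_mem' := fun c x hx v => by
        rw [Algebra.smul_def]
        have := (Ge.const (P := (v : Place k L)) c).mul (hx v)
        rwa [zero_add] at this }
  let W : G → Submodule k V := fun g =>
    { carrier := {f | Ge (sg (up hG g) w : Place k L) (-D (sg (up hG g) w) + 1) (f : L)}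
      add_mem' := fun ha hb => Ge.add ha hb
      zero_mem' := Ge.zero
      smul_mem' := fun c x hx => by
        have h1 : ((c • x : V) : L) = algebraMap k L c * (x : L) := by
          rw [← Algebra.smul_def]; rfl
        change Ge _ _ ((c • x : V) : L)
        rw [h1]
        have := (Ge.const (P := (sg (up hG g) w : Place k L)) c).mul hx
        rwa [zero_add] at this }
  have hW : ∀ g, W g ≠ ⊤ := by
    intro g htop
    obtain ⟨f, hf, h1⟩ := hD (sg (up hG g) w)
    have h2 : (⟨f, fun v => Or.inr (hf.2 v)⟩ : V) ∈ W g := by rw [htop]; trivial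
    have h3 : Ge (sg (up hG g) w : Place k L) (-D (sg (up hG g) w) + 1) f := h2
    have h4 := h3.resolve_left hf.1
    omega
  have hne := Subspace.biUnion_ne_univ_of_top_notMem (k := k) (E := V)
    (s := Finset.univ.image W) (by
      rw [Finset.mem_image]
      rintro ⟨g, -, hg⟩
      exact hW g hg)
  rw [Set.ne_univ_iff_exists_notMem] at hne
  obtain ⟨f, hf⟩ := hne
  simp only [Set.mem_iUnion, not_exists] at hf
  have hf' : ∀ g, ¬ Ge (sg (up hG g) w : Place k L) (-D (sg (up hG g) w) + 1) (f : L) :=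
    fun g hg => hf (W g) (Finset.mem_image_of_mem _ (Finset.mem_univ _)) hg
  have hf0 : (f : L) ≠ 0 := fun h => hf' 1 (Or.inl h)
  refine ⟨f, ⟨hf0, fun v => (f.2 v).resolve_left hf0⟩, fun g => ?_⟩
  have h1 := (f.2 (sg (up hG g) w)).resolve_left hf0
  have h2 := hf' g
  have h3 : ¬ (-D (sg (up hG g) w) + 1 ≤ (sg (up hG g) w : Place k L).ord f) :=
    fun h => h2 (Or.inr h)
  omega

theorem mov_down [Fintype G] {D : P →₀ ℤ} (h : Movable P D) {N : ℕ}
    {E : quo P G →₀ ℤ} (hE : pi G P (rl _ E) = (N : ℝ) • rl P (trz hG D)) :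
    Movable (quo P G) E := by
  intro v
  obtain ⟨w, rfl⟩ := rr_surj v
  obtain ⟨f, hf, h1⟩ := generic hG h w
  obtain ⟨F, hF, h2⟩ := sec_down hG hf hE
  exact ⟨F, hF, h2 w h1⟩

end

end Pool.Agent.K1H17.MC
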